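import Mathlib

/-!
Polynomially bounded functions.
-/

namespace Pool.Agent.P.MP_d0a708_lc.BH

/-- Polynomially bounded. -/
def PB (f : ℕ → ℕ) : Prop := ∃ c d : ℕ, ∀ n, f n ≤ c * (n + 1) ^ d

lemma PB.const (c : ℕ) : PB fun _ => c := ⟨c, 0, by simp⟩

lemma PB.id : PB fun n => n := ⟨1, 1, by simp⟩

lemma PB.add {f g : ℕ → ℕ} (hf : PB f) (hg : PB g) : PB fun n => f n + g n := by
  obtain ⟨c, d, hf⟩ := hf
  obtain ⟨c', d', hg⟩ := hg
  refine ⟨c + c', d + d', fun n => ?_⟩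
  have h1 : (n + 1) ^ d ≤ (n + 1) ^ (d + d') := Nat.pow_le_pow_right (by omega) (by omega)
  have h2 : (n + 1) ^ d' ≤ (n + 1) ^ (d + d') := Nat.pow_le_pow_right (by omega) (by omega)
  have := Nat.mul_le_mul_left c h1
  have := Nat.mul_le_mul_left c' h2
  have := hf n
  have := hg n
  rw [add_mul]
  simp only
  omega

lemma PB.mul {f g : ℕ → ℕ} (hf : PB f) (hg : PB g) : PB fun n => f n * g n := by
  obtain ⟨c, d, hf⟩ := hf
  obtain ⟨c', d', hg⟩ := hg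
  refine ⟨c * c', d + d', fun n => (Nat.mul_le_mul (hf n) (hg n)).trans (le_of_eq ?_)⟩
  ring

lemma PB.pow {f : ℕ → ℕ} (hf : PB f) (k : ℕ) : PB fun n => f n ^ k := by
  induction k with
  | zero => simpa using PB.const 1
  | succ k ih => simpa [pow_succ] using ih.mul hf

lemma PB.lt_two_pow {f : ℕ → ℕ} (hf : PB f) : ∃ n, 1 ≤ n ∧ f n < 2 ^ n := by
  obtain ⟨c, d, hf⟩ := hf
  have h := tendsto_pow_const_div_const_pow_of_one_lt d (r := 2) (by norm_num)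
  have h1 := (h.eventually (gt_mem_nhds (show (0 : ℝ) < 1 / (2 * (c + 1)) by positivity)))
  obtain ⟨n0, hn0⟩ := Filter.eventually_atTop.1 h1
  refine ⟨n0 + 1, by omega, (hf _).trans_lt ?_⟩
  have h2 := hn0 (n0 + 1 + 1) (by omega)
  rw [div_lt_div_iff₀ (by positivity) (by positivity), pow_succ (2 : ℝ)] at h2
  have h3 : (0 : ℝ) ≤ ((n0 + 1 + 1 : ℕ) : ℝ) ^ d := by positivity
  have : (c : ℝ) * ((n0 + 1 + 1 : ℕ) : ℝ) ^ d < 2 ^ (n0 + 1) := by nlinarith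
  exact_mod_cast this

end Pool.Agent.P.MP_d0a708_lc.BH
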