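import Pool.Agent.P.MP_d0a708_lc.BH.Tour
import Pool.Agent.P.MP_d0a708_lc.BH.Poly

/-!
Two words of equal length on which all traversals have the same extreme counter changes.
-/

namespace Pool.Agent.P.MP_d0a708_lc.BH

variable {Q : Type}

/-- Offset of a local vertex. -/
def pos {lam : ℕ} (u : Q × Fin (lam + 2)) : ℤ := (u.2 : ℤ) - 1

/-- Moves of the automaton whose head starts inside the word `σ`. -/
def LE (int : Q → Bool → Q → ℤ → ℤ → Prop) (lam : ℕ) (σ : ℤ → Bool) (u v : Q × Fin (lam + 2))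
    (d : ℤ × ℤ) : Prop :=
  0 ≤ pos u ∧ pos u < lam ∧ d.1 = 0 ∧ int u.1 (σ (pos u)) v.1 (pos v - pos u) d.2

variable [DecidableEq Q]

/-- A short traversal with counter change `a` through a short cycle with counter change `g`. -/
def PS {X : Type} [DecidableEq X] (E : X → X → ℤ × ℤ → Prop) (L : ℕ) (u v : X) (a g : ℤ) : Prop :=
  ∃ z n1 n2 k Y1 Y2 Y3 w1 w2 w3, n1 + n2 ≤ L ∧ k ≤ L ∧ Tour E n1 u z w1 Y1 ∧ Tour E k z z w3 Y3 ∧
    Tour E n2 z v w2 Y2 ∧ w1.2 + w2.2 = a ∧ w3.2 = g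

lemma ps_exists {X : Type} [DecidableEq X] [Fintype X] {E : X → X → ℤ × ℤ → Prop}
    (hE : ∀ x y d, E x y d → Bd (1 : ℕ) d) {ε : ℤ} (hε : ε = 1 ∨ ε = -1) {u v : X}
    (h : ∃ n w Y, Tour E n u v w Y) : ∃ a g : ℤ, |a| ≤ (Fintype.card X ^ 2 : ℕ) ∧ 0 ≤ g ∧
      g ≤ (Fintype.card X ^ 2 : ℕ) ∧ PS E (Fintype.card X ^ 2) u v a (ε * g) ∧
      (g = 0 → ∀ n w Y, Tour E n u v w Y → ε * w.2 ≤ ε * a) := by
  set L := Fintype.card X ^ 2 with hL
  have hb : ∀ a g, PS E L u v a g → |a| ≤ L ∧ |g| ≤ L := by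
    rintro a g ⟨z, n1, n2, k, Y1, Y2, Y3, w1, w2, w3, h1, h2, h3, h4, h5, rfl, rfl⟩
    have a1 := ((h3.append h5).bd hE).2
    have a2 := (h4.bd hE).2
    simp only [Nat.cast_one, mul_one, Prod.snd_add] at a1 a2
    exact ⟨a1.trans (by exact_mod_cast h1), a2.trans (by exact_mod_cast h2)⟩
  by_cases hp : ∃ a g, 0 < g ∧ PS E L u v a (ε * g)
  · obtain ⟨a, g, h1, h2⟩ := hp
    refine ⟨a, g, (hb _ _ h2).1, h1.le, ?_, h2, fun h => absurd h h1.ne'⟩
    have := (hb _ _ h2).2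
    rcases hε with rfl | rfl
    · simpa using (le_abs_self _).trans this
    · simpa using (neg_le_abs _).trans this
  · have key : ∀ n w Y, Tour E n u v w Y → ∃ a, PS E L u v a 0 ∧ ε * w.2 ≤ ε * a := by
      intro n w Y h
      obtain ⟨n', s', cs, h1, h2, rfl, h3⟩ := h.dec
      refine ⟨s'.2, ⟨u, 0, n', 0, _, _, _, 0, s', 0, by omega, by omega, .nil u, .nil u, h1,
        by simp, rfl⟩, ?_⟩
      have : ∀ x ∈ cs, ε * x.2 ≤ 0 := by
        intro x hx
        obtain ⟨z, hz, k, hk, Y', hc⟩ := h3 x hx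
        obtain ⟨n1, n2, s1, s2, Y1, Y2, k1, k2, rfl, rfl, rfl⟩ := h1.split hz
        by_contra hh
        refine hp ⟨s1.2 + s2.2, ε * x.2, not_le.1 hh, z, n1, n2, k, _, _, _, s1, s2, x, h2,
          hk.trans (Nat.le_self_pow (by norm_num) _), k1, hc, k2, rfl, ?_⟩
        rcases hε with rfl | rfl <;> simp
      have h4 : ε * cs.sum.2 ≤ 0 := by
        clear h3 h
        induction cs with
        | nil => simp
        | cons x cs ih =>
          have := ih fun y hy => this y (by simp [hy])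
          have := ‹∀ y ∈ x :: cs, _› x (by simp)
          simp only [List.sum_cons, Prod.snd_add, mul_add]
          linarith
      simp only [Prod.snd_add, mul_add]
      linarith
    obtain ⟨n, w, Y, h⟩ := h
    obtain ⟨a0, h0, -⟩ := key n w Y h
    obtain ⟨b, ⟨a, h1, rfl⟩, h2⟩ := Int.exists_greatest_of_bdd
      (P := fun b => ∃ a, PS E L u v a 0 ∧ b = ε * a)
      ⟨L, by
        rintro _ ⟨a, h1, rfl⟩
        have := abs_le.1 (hb _ _ h1).1
        rcases hε with rfl | rfl <;> omega⟩ ⟨_, a0, h0, rfl⟩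
    refine ⟨a, 0, (hb _ _ h1).1, le_rfl, by positivity, by simpa using h1, fun _ n w Y h => ?_⟩
    obtain ⟨a', h3, h4⟩ := key n w Y h
    exact h4.trans (h2 _ ⟨a', h3, rfl⟩)

omit [DecidableEq Q] in
lemma LE.bd {int : Q → Bool → Q → ℤ → ℤ → Prop}
    (hint : ∀ q x q' dp dc, int q x q' dp dc → |dp| ≤ 1 ∧ |dc| ≤ 1) (lam : ℕ) (σ : ℤ → Bool) :
    ∀ u v d, LE int lam σ u v d → Bd (1 : ℕ) d :=
  fun _ _ _ h => ⟨by simp [h.2.2.1], by simpa using (hint _ _ _ _ _ h.2.2.2).2⟩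

theorem units [Fintype Q] {int : Q → Bool → Q → ℤ → ℤ → Prop}
    (hint : ∀ q x q' dp dc, int q x q' dp dc → |dp| ≤ 1 ∧ |dc| ≤ 1) :
    ∃ (lam : ℕ) (s : Bool → ℤ → Bool) (L : ℕ), 0 < lam ∧
      (∃ r, 0 ≤ r ∧ r < (lam : ℤ) ∧ s false r ≠ s true r) ∧
      ∀ u v : Q × Fin (lam + 2), (pos u = 0 ∨ pos u = lam - 1) → (pos v = -1 ∨ pos v = lam) →
        ∀ β n w Y, Tour (LE int lam (s β)) n u v w Y → ∀ ε : ℤ, (ε = 1 ∨ ε = -1) →
          ∃ a g : ℤ, |a| ≤ L ∧ 0 ≤ g ∧ g ≤ L ∧ (∀ β', PS (LE int lam (s β')) L u v a (ε * g)) ∧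
            (g = 0 → ε * w.2 ≤ ε * a) := by
  classical
  obtain ⟨lam, hlam, hlt⟩ := (((((((PB.const 2).mul (((PB.const (Fintype.card Q)).mul
    (PB.id.add (PB.const 2))).pow 2)).add (PB.const 1)).pow 2).add (PB.const 1)).pow
    (Fintype.card ((Q × Bool) × (Q × Bool) × Bool)))).lt_two_pow
  set L := (Fintype.card Q * (lam + 2)) ^ 2 with hL
  have hL' : Fintype.card (Q × Fin (lam + 2)) ^ 2 = L := by simp [hL]
  set ext : (Fin lam → Bool) → ℤ → Bool :=
    fun σ r => if h : r.toNat < lam then σ ⟨_, h⟩ else false with hext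
  set ent : Q × Bool → Q × Fin (lam + 2) :=
    fun k => (k.1, if k.2 then ⟨lam, by omega⟩ else ⟨1, by omega⟩) with hent
  set ex : Q × Bool → Q × Fin (lam + 2) :=
    fun k => (k.1, if k.2 then ⟨lam + 1, by omega⟩ else ⟨0, by omega⟩) with hex
  set sg : Bool → ℤ := fun e => if e then 1 else -1 with hsg
  have hsg' : ∀ e, sg e = 1 ∨ sg e = -1 := fun e => by cases e <;> simp [hsg]
  choose A G hAG using fun (σ : Fin lam → Bool) (k : (Q × Bool) × (Q × Bool) × Bool) =>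
    ps_exists (LE.bd hint lam (ext σ)) (hsg' k.2.2) (u := ent k.1) (v := ex k.2.1)
  set I : Finset ℤ := Finset.Icc (-(L : ℤ)) L with hI
  obtain ⟨σ0, -, σ1, -, hne, heq⟩ := Finset.exists_ne_map_eq_of_card_lt_of_maps_to
    (s := Finset.univ)
    (t := Fintype.piFinset fun _ : (Q × Bool) × (Q × Bool) × Bool => Finset.insertNone (I ×ˢ I))
    (f := fun (σ : Fin lam → Bool) k =>
      if h : ∃ n w Y, Tour (LE int lam (ext σ)) n (ent k.1) (ex k.2.1) w Y
        then some (A σ k h, G σ k h) else none)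
    (by
      have : I.card = 2 * L + 1 := by rw [hI, Int.card_Icc]; omega
      simpa [Fintype.card_piFinset, Finset.card_insertNone, this, sq] using hlt)
    (by
      intro σ _
      simp only [Finset.mem_coe, Fintype.mem_piFinset, Finset.mem_insertNone]
      intro k a ha
      split_ifs at ha with h
      · obtain rfl : (A σ k h, G σ k h) = a := by simpa using ha
        obtain ⟨h1, h2, h3, -⟩ := hAG σ k h
        rw [hL'] at h1 h3
        simp only [hI, Finset.mem_product, Finset.mem_Icc]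
        exact ⟨abs_le.1 h1, by omega, h3⟩
      · simp at ha)
  set σ : Bool → Fin lam → Bool := fun β => if β then σ1 else σ0 with hσ
  have heq' : ∀ β β' k (h : ∃ n w Y, Tour (LE int lam (ext (σ β))) n (ent k.1) (ex k.2.1) w Y),
      ∃ h' : ∃ n w Y, Tour (LE int lam (ext (σ β'))) n (ent k.1) (ex k.2.1) w Y,
        A (σ β') k h' = A (σ β) k h ∧ G (σ β') k h' = G (σ β) k h := by
    intro β β' k h
    have e := congrFun heq k
    cases β <;> cases β'
    · exact ⟨h, rfl, rfl⟩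
    · simp only [hσ, Bool.false_eq_true, if_false, if_true] at h ⊢
      simp only [dif_pos h] at e
      split_ifs at e with h'
      exact ⟨h', by simpa [eq_comm] using e⟩
    · simp only [hσ, Bool.false_eq_true, if_false, if_true] at h ⊢
      simp only [dif_pos h] at e
      split_ifs at e with h'
      exact ⟨h', by simpa using e⟩
    · exact ⟨h, rfl, rfl⟩
  refine ⟨lam, fun β => ext (σ β), L, hlam, ?_, ?_⟩
  · obtain ⟨r, hr⟩ := Function.ne_iff.1 hne
    refine ⟨r, by positivity, by exact_mod_cast r.2, ?_⟩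
    simpa [hσ, hext] using hr
  · intro u v hu hv β n w Y h ε hε
    obtain ⟨k1, rfl⟩ : ∃ k, u = ent k := by
      unfold pos at hu
      rcases hu with hu | hu
      · exact ⟨(u.1, false), Prod.ext rfl (Fin.ext (by simp [hent]; omega))⟩
      · exact ⟨(u.1, true), Prod.ext rfl (Fin.ext (by simp [hent]; omega))⟩
    obtain ⟨k2, rfl⟩ : ∃ k, v = ex k := by
      unfold pos at hv
      rcases hv with hv | hv
      · exact ⟨(v.1, false), Prod.ext rfl (Fin.ext (by
          simp only [hex, Bool.false_eq_true, if_false]; omega))⟩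
      · exact ⟨(v.1, true), Prod.ext rfl (Fin.ext (by simp [hex]; omega))⟩
    obtain ⟨e, rfl⟩ : ∃ e, ε = sg e := by
      rcases hε with rfl | rfl
      · exact ⟨true, rfl⟩
      · exact ⟨false, rfl⟩
    have h0 : ∃ n w Y, Tour (LE int lam (ext (σ β))) n (ent (k1, k2, e).1) (ex (k1, k2, e).2.1) w Y :=
      ⟨n, w, Y, h⟩
    obtain ⟨h1, h2, h3, -, h5⟩ := hAG (σ β) (k1, k2, e) h0
    rw [hL'] at h1 h3
    refine ⟨_, _, h1, h2, h3, fun β' => ?_, fun hg => h5 hg n w Y h⟩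
    obtain ⟨h', e1, e2⟩ := heq' β β' (k1, k2, e) h0
    have := (hAG (σ β') (k1, k2, e) h').2.2.2.1
    rwa [e1, e2, hL'] at this

end Pool.Agent.P.MP_d0a708_lc.BH
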