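import Pool.Agent.P.MP_d0a708_lc.BH.Paths
import Pool.Agent.P.MP_d0a708_lc.BH.Units

/-!
The finite graph that describes the interior moves on concatenations of the two words.
-/

namespace Pool.Agent.P.MP_d0a708_lc.BH

open Relation

/-- Abstract vertices: a local configuration and a counter shift for each admissible bit. -/
abbrev Vx (Q : Type) (lam L : ℕ) : Type := Bool → Option ((Q × Fin (lam + 2)) × Fin (2 * L + 1))

variable {Q : Type} (int : Q → Bool → Q → ℤ → ℤ → Prop) (lam : ℕ) (s : Bool → ℤ → Bool) (L : ℕ)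

/-- The configuration with local vertex `u` in unit `i`. -/
def loc {lam : ℕ} (i : ℤ) (u : Q × Fin (lam + 2)) (c : ℤ) : Q × ℤ × ℤ := (u.1, i * lam + pos u, c)

/-- The configuration represented by an abstract configuration. -/
def Rep {lam L : ℕ} (b : ℤ → Bool) (A : Vx Q lam L × ℤ × ℤ) (a : Q × ℤ × ℤ) : Prop :=
  ∃ u e, A.1 (b A.2.1) = some (u, e) ∧ a = loc A.2.1 u (A.2.2 + e - L)

/-- An interior move on the concatenation of units with bits `b`. -/
def IS (b : ℤ → Bool) (a a' : Q × ℤ × ℤ) : Prop :=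
  int a.1 (s (b (a.2.1 / lam)) (a.2.1 % lam)) a'.1 (a'.2.1 - a.2.1) (a'.2.2 - a.2.2)

/-- A box of configurations around an abstract position. -/
def Box (P : ℤ × ℤ) (a : Q × ℤ × ℤ) : Prop :=
  (P.1 - 1) * lam ≤ a.2.1 ∧ a.2.1 < (P.1 + 2) * lam ∧ |a.2.2 - P.2| ≤ 2 * L + 1

/-- Reachability inside a box. -/
def BR (b : ℤ → Bool) (P : ℤ × ℤ) : Q × ℤ × ℤ → Q × ℤ × ℤ → Prop :=
  ReflTransGen fun u v => IS int lam s b u v ∧ Box lam L P u ∧ Box lam L P v

/-- Abstract edges, with an optional test of the bit of the current unit. -/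
def Ed (t : Option Bool) (x x' : Vx Q lam L) (d : ℤ × ℤ) : Prop :=
  Bd (2 * L + 1 : ℕ) d ∧ ∀ (b : ℤ → Bool) (P : ℤ × ℤ) (a : Q × ℤ × ℤ),
    (∀ β, t = some β → b P.1 = β) → Rep b (x, P) a →
      ∃ a', Rep b (x', P + d) a' ∧ BR int lam s L b P a a'

/-- Test edges. -/
def Tt (β : Bool) (x x' : Vx Q lam L) : Prop := Ed int lam s L (some β) x x' 0

/-- The region in which moves are interior. -/
def Reg (hi : ℤ × ℤ) (a : Q × ℤ × ℤ) : Prop :=
  0 ≤ a.2.1 ∧ a.2.1 < hi.1 * lam ∧ 0 < a.2.2 ∧ a.2.2 < hi.2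

variable {int lam s L}

section Sound

variable {hi : ℤ × ℤ} {K : ℤ} {b : ℤ → Bool} {Re : Q × ℤ × ℤ → Prop} (hK : 2 * L + 2 ≤ K)
  (hR : ∀ a a', Re a → IS int lam s b a a' → Reg lam hi a → Reg lam hi a' → Re a')
include hK hR

lemma Ed.sound {t x x' d P} (h : Ed int lam s L t x x' d) (hP : In hi K P)
    (ht : ∀ β, t = some β → b P.1 = β) (ha : ∃ a, Rep b (x, P) a ∧ Re a) :
    ∃ a, Rep b (x', P + d) a ∧ Re a := by
  obtain ⟨a, h1, h2⟩ := ha
  obtain ⟨a', h3, h4⟩ := h.2 b P a ht h1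
  refine ⟨a', h3, ?_⟩
  have hb : ∀ u : Q × ℤ × ℤ, Box lam L P u → Reg lam hi u := by
    rintro u ⟨k1, k2, k3⟩
    obtain ⟨p1, p2, p3, p4⟩ := hP
    rw [abs_le] at k3
    have hl : (0 : ℤ) ≤ lam := by positivity
    refine ⟨le_trans (mul_nonneg (by omega) hl) k1,
      k2.trans_le (mul_le_mul_of_nonneg_right (by omega) hl), by omega, by omega⟩
  clear h3
  induction h4 with
  | refl => exact h2
  | tail _ h ih => exact hR _ _ ih h.1 (hb _ h.2.1) (hb _ h.2.2)

lemma FR.sound {A A'} (h : FR (Ed int lam s L none) hi K A A') (ha : ∃ a, Rep b A a ∧ Re a) :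
    ∃ a, Rep b A' a ∧ Re a := by
  obtain ⟨h1, h2⟩ := h
  induction h2 with
  | refl => exact ha
  | @tail u v h3 h ih =>
    have := h.1.sound hK hR (FR.end_in ⟨h1, h3⟩) (by simp) ih
    simpa using this

theorem AP.sound {A ts A'} (h : AP (Ed int lam s L none) (Tt int lam s L) hi K A ts A')
    (hts : ∀ u ∈ ts, b u.1 = u.2) (ha : ∃ a, Rep b A a ∧ Re a) : ∃ a, Rep b A' a ∧ Re a := by
  induction h with
  | free h => exact h.sound hK hR ha
  | test h1 h2 _ ih =>
    refine ih (fun u hu => hts u (by simp [hu])) ?_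
    have := Ed.sound hK hR h2 h1.end_in
      (fun β hβ => by simpa [← Option.some.inj hβ] using hts _ List.mem_cons_self)
      (h1.sound hK hR ha)
    simpa using this

end Sound

/-- The vertex with a fixed local configuration. -/
def cv (L : ℕ) (u : Q × Fin (lam + 2)) : Vx Q lam L := fun _ => some (u, ⟨L, by omega⟩)

/-- The vertex with a fixed local configuration in a unit with known bit. -/
def tg (L : ℕ) (β : Bool) (u : Q × Fin (lam + 2)) : Vx Q lam L :=
  fun β' => if β' = β then some (u, ⟨L, by omega⟩) else none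

/-- The local vertex of a configuration. -/
def lv (lam : ℕ) (a : Q × ℤ × ℤ) : Q × Fin (lam + 2) :=
  (a.1, ⟨min ((a.2.1 % lam).toNat + 1) lam, by omega⟩)

/-- The abstract form of a configuration. -/
def abs (lam L : ℕ) (a : Q × ℤ × ℤ) : Vx Q lam L × ℤ × ℤ := (cv L (lv lam a), a.2.1 / lam, a.2.2)

lemma rep_cv {b : ℤ → Bool} {u : Q × Fin (lam + 2)} {P a} :
    Rep b (cv L u, P) a ↔ a = loc P.1 u P.2 := by
  simp [Rep, cv]

lemma rep_tg {b : ℤ → Bool} {β} {u : Q × Fin (lam + 2)} {P a} :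
    Rep b (tg L β u, P) a ↔ b P.1 = β ∧ a = loc P.1 u P.2 := by
  by_cases h : b P.1 = β <;> simp [Rep, tg, h]

lemma pos_lv (hl : 0 < lam) (a : Q × ℤ × ℤ) : pos (lv lam a) = a.2.1 % lam := by
  have h1 := Int.emod_nonneg a.2.1 (show (lam : ℤ) ≠ 0 by omega)
  have h2 := Int.emod_lt_of_pos a.2.1 (show (0 : ℤ) < lam by omega)
  simp only [pos, lv]
  omega

lemma loc_lv (hl : 0 < lam) (a : Q × ℤ × ℤ) : loc (a.2.1 / lam) (lv lam a) a.2.2 = a := by
  refine Prod.ext rfl (Prod.ext ?_ rfl)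
  simp only [loc, pos_lv hl]
  exact Int.ediv_mul_add_emod _ _

lemma rep_abs (hl : 0 < lam) {b : ℤ → Bool} {a a' : Q × ℤ × ℤ} :
    Rep b (abs lam L a) a' ↔ a' = a := by
  rw [abs, rep_cv, loc_lv hl]

lemma div_loc {i : ℤ} {u : Q × Fin (lam + 2)} (h0 : 0 ≤ pos u) (h1 : pos u < lam) :
    (i * lam + pos u) / lam = i ∧ (i * lam + pos u) % lam = pos u := by
  constructor
  · rw [add_comm, Int.add_mul_ediv_right _ _ (by omega), Int.ediv_eq_zero_of_lt h0 h1, zero_add]
  · rw [add_comm, Int.add_mul_emod_self_right, Int.emod_eq_of_lt h0 h1]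

lemma abs_loc {i c : ℤ} {u : Q × Fin (lam + 2)} (h0 : 0 ≤ pos u) (h1 : pos u < lam) :
    abs lam L (loc i u c) = (cv L u, i, c) := by
  have := div_loc (i := i) h0 h1
  have e : lv lam (loc i u c) = u := by
    refine Prod.ext rfl (Fin.ext ?_)
    simp only [lv, loc, this.2]
    unfold pos at *
    omega
  simp only [abs, e]
  simp only [loc, this.1]

lemma pos_range (u : Q × Fin (lam + 2)) : -1 ≤ pos u ∧ pos u ≤ lam := by
  have := u.2.2
  unfold pos
  omega

lemma div_near (hl : 0 < lam) (i : ℤ) (v : Q × Fin (lam + 2)) :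
    |(i * lam + pos v) / lam - i| ≤ 1 := by
  have := pos_range v
  have hl' : (0 : ℤ) < lam := by omega
  have h1 : i - 1 ≤ (i * lam + pos v) / lam := Int.le_ediv_of_mul_le hl' (by nlinarith)
  have h2 : (i * lam + pos v) / lam < i + 2 := Int.ediv_lt_of_lt_mul hl' (by nlinarith)
  rw [abs_le]
  omega

variable [DecidableEq Q] (hl : 0 < lam)
  (hint : ∀ q x q' dp dc, int q x q' dp dc → |dp| ≤ 1 ∧ |dc| ≤ 1)
include hl hint

lemma Tour.br {b : ℤ → Bool} {P : ℤ × ℤ} {n u v w Y}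
    (h : Tour (LE int lam (s (b P.1))) n u v w Y) : ∀ c, |c - P.2| + n ≤ 2 * L + 1 →
    BR int lam s L b P (loc P.1 u c) (loc P.1 v (c + w.2)) := by
  have hb : ∀ (u : Q × Fin (lam + 2)) c, |c - P.2| ≤ 2 * L + 1 → Box lam L P (loc P.1 u c) := by
    intro u c hc
    have := pos_range u
    have hl' : (0 : ℤ) < lam := by omega
    exact ⟨by simp only [loc]; nlinarith, by simp only [loc]; nlinarith, hc⟩
  induction h with
  | nil => exact fun c _ => by simpa [BR] using ReflTransGen.refl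
  | @cons n x x1 y d w Y e _ ih =>
    intro c hc
    have h1 := abs_le.1 (hint _ _ _ _ _ e.2.2.2).2
    have h2 : |c + d.2 - P.2| + n ≤ 2 * L + 1 := by
      have := abs_add_le (c - P.2) d.2
      have := abs_le.2 h1
      rw [show c + d.2 - P.2 = c - P.2 + d.2 by ring]
      push_cast at hc
      linarith
    have h3 := ih _ h2
    rw [Prod.snd_add, ← add_assoc]
    refine ReflTransGen.head ⟨?_, hb _ _ (by omega), hb _ _ (by omega)⟩ h3
    have := div_loc (i := P.1) e.1 e.2.1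
    simpa [IS, loc, this.1, this.2] using e.2.2.2

omit hint [DecidableEq Q] in
lemma rep_exit {b : ℤ → Bool} (i j c c' : ℤ) (v : Q × Fin (lam + 2)) :
    Rep b ((abs lam L (loc i v c)).1, j + ((abs lam L (loc i v c)).2.1 - i), c') (loc j v c') := by
  rw [abs, rep_cv]
  refine Prod.ext rfl (Prod.ext ?_ rfl)
  simp only [loc, pos_lv hl]
  have := Int.ediv_mul_add_emod (i * lam + pos v) lam
  linarith

lemma free_visit {hi : ℤ × ℤ} {K : ℤ} {u v : Q × Fin (lam + 2)} {a g : ℤ} (ha : |a| ≤ L)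
    (hg : |g| ≤ L) (h : ∀ β, PS (LE int lam (s β)) L u v a g) (i c c' : ℤ) (k : ℕ)
    (h1 : In hi K (i, c)) (h2 : In hi K ((abs lam L (loc i v c')).2.1, c + a + k * g)) :
    FR (Ed int lam s L none) hi (K - 5 * (2 * L + 1)) (cv L u, i, c)
      ((abs lam L (loc i v c')).1, (abs lam L (loc i v c')).2.1, c + a + k * g) := by
  classical
  choose z n1 n2 n3 Y1 Y2 Y3 w1 w2 w3 k1 k2 k3 k4 k5 k6 k7 using h
  have hw : ∀ β, |(w1 β).2| ≤ n1 β := fun β => by
    simpa using ((k3 β).bd (LE.bd hint lam _)).2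
  set pv : Vx Q lam L := fun β => some (z β, ⟨((w1 β).2 + L).toNat, by
    have := abs_le.1 (hw β); have := k1 β; omega⟩) with hpv
  have hrep : ∀ (b : ℤ → Bool) P a, Rep b (pv, P) a ↔
      a = loc P.1 (z (b P.1)) (P.2 + (w1 (b P.1)).2) := by
    intro b P a
    have := abs_le.1 (hw (b P.1))
    have := k1 (b P.1)
    have e : ((((w1 (b P.1)).2 + L).toNat : ℕ) : ℤ) = (w1 (b P.1)).2 + L := by omega
    simp [Rep, hpv, e, add_sub_assoc]
  have e1 : Ed int lam s L none (cv L u) pv 0 := by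
    refine ⟨bd_zero (by positivity), fun b P a _ ha => ⟨_, (hrep _ _ _).2 rfl, ?_⟩⟩
    rw [rep_cv.1 ha, add_zero]
    exact (k3 _).br hl hint _ (by have := k1 (b P.1); simp; omega)
  have e2 : Ed int lam s L none pv pv (0, g) := by
    refine ⟨⟨by simp; positivity, hg.trans (by push_cast; omega)⟩,
      fun b P a _ ha => ⟨_, (hrep _ _ _).2 rfl, ?_⟩⟩
    rw [(hrep _ _ _).1 ha]
    have := (k4 (b P.1)).br (L := L) hl hint (P.2 + (w1 (b P.1)).2) (by
      have := hw (b P.1); have := k1 (b P.1); have := k2 (b P.1); simp; omega)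
    rw [k7] at this
    simpa [add_right_comm] using this
  have e3 : Ed int lam s L none pv (abs lam L (loc i v c')).1
      ((abs lam L (loc i v c')).2.1 - i, a) := by
    refine ⟨⟨(div_near hl i v).trans (by push_cast; omega), ha.trans (by push_cast; omega)⟩,
      fun b P a' _ ha => ⟨_, rep_exit hl i P.1 c' _ v, ?_⟩⟩
    rw [(hrep _ _ _).1 ha]
    have := (k5 (b P.1)).br (L := L) hl hint (P.2 + (w1 (b P.1)).2) (by
      have := hw (b P.1); have := k1 (b P.1); simp; omega)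
    rwa [add_assoc, k6] at this
  have t1 := Tour.cons e1 (Tour.cons e3 (Tour.nil _))
  have e : ((i, c) : ℤ × ℤ) + (0 + (((abs lam L (loc i v c')).2.1 - i, a) + 0)) +
      (k : ℤ) • ((0, g) + 0) = ((abs lam L (loc i v c')).2.1, c + a + k * g) := by
    ext <;> simp
  have := t1.oneleg (Ω := 2 * L + 1) (N := 1) (fun _ _ _ h => h.1) (p := (0, g) + 0)
    ⟨pv, by simp, 1, le_rfl, _, Tour.cons e2 (Tour.nil _)⟩ k h1 (e ▸ h2)
  rw [e] at this
  convert this using 2
  push_cast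
  ring

end Pool.Agent.P.MP_d0a708_lc.BH
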