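import Pool.Agent.P.MP_d0a708_lc.Defs

/-!
Two-head automata whose second head cannot tell letters apart.
-/

namespace Pool.Agent.P.MP_d0a708_lc

/-- The second head is blind: the table may depend on whether it scans the left endmarker, the
right endmarker or a letter, but not on which letter it scans. -/
def HeadsFA.Blind {α : Type} (M : HeadsFA α 2) : Prop :=
  ∀ (q : M.Q) (s : Tape α) (x y : α), M.δ q ![s, Tape.letter x] = M.δ q ![s, Tape.letter y]

end Pool.Agent.P.MP_d0a708_lc
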