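import Pool.Agent.P.MP_d0a708_lc.BH.Nech

/-!
The abstract lower bound.
-/

namespace Pool.Agent.P.MP_d0a708_lc.BH

open Relation Finset Function

lemma params (lam m N c7 c8 c9 : ℕ) (hl : 0 < lam) : ∃ h1 h κ μ : ℕ, h = h1 + (m + 1) ∧
    κ = 2 ^ m * ((m + 1) * (h * lam + h + 3) + 2 * m + 2) ∧ Ks h κ m < μ ∧
    8 * (2 * m * ((2 * Ks h κ m) ^ 2 ^ m * (c8 * (4 * (2 ^ (h * lam) * h * lam) / μ + 1)) + 1) +
      2 * (c7 * μ + 6 * (c9 * μ) + 1)) ≤ 2 ^ (h * lam) ∧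
    4 * (h * lam + (2 + N * ((h + 12 * (c9 * μ)) * (c7 * μ * 2))) ^ 2 + (h + 12 * (c9 * μ)) + 1) ≤
      2 ^ h1 := by
  obtain ⟨h, hh⟩ : ∃ h : ℕ → ℕ, h = fun n => n + (m + 1) := ⟨_, rfl⟩
  obtain ⟨κ, hκ⟩ : ∃ κ : ℕ → ℕ,
    κ = fun n => 2 ^ m * ((m + 1) * (h n * lam + h n + 3) + 2 * m + 2) := ⟨_, rfl⟩
  obtain ⟨k, hk⟩ : ∃ k : ℕ → ℕ, k = fun n => Ks (h n) (κ n) m := ⟨_, rfl⟩
  obtain ⟨μ, hμ⟩ : ∃ μ : ℕ → ℕ,
    μ = fun n => 128 * m * (2 * k n) ^ 2 ^ m * c8 * h n * lam + k n + 1 := ⟨_, rfl⟩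
  have c := PB.const
  have ph : PB h := hh ▸ PB.id.add (c _)
  have pκ : PB κ := hκ ▸ (c _).mul ((((c _).mul (((ph.mul (c _)).add ph).add (c _))).add
    (c _)).add (c _))
  have pk : PB k := hk ▸ (pκ.mul ((((pκ.mul pκ).mul (c _)).mul ((c _).mul ph)).add (c _))).add
    ((pκ.mul (c _)).mul ((c _).mul ph))
  have pK := ((c 2).mul pk).pow (2 ^ m)
  have pμ : PB μ := hμ ▸ ((((((c _).mul pK).mul (c _)).mul ph).mul (c _)).add pk).add (c _)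
  have pW := ph.add ((c 12).mul ((c c9).mul pμ))
  obtain ⟨n, -, hn⟩ := (((c 2).mul (((c (16 * m)).mul ((pK.mul (c c8)).add (c 1))).add
    ((c 16).mul ((((c c7).mul pμ).add ((c 6).mul ((c c9).mul pμ))).add (c 1))))).add
    ((c 4).mul ((((ph.mul (c lam)).add (((c 2).add ((c N).mul (pW.mul
      (((c c7).mul pμ).mul (c 2))))).pow 2)).add pW).add (c 1)))).lt_two_pow
  refine ⟨n, h n, κ n, μ n, by rw [hh], by rw [hκ], by rw [hμ, hk]; simp only; omega, ?_, by omega⟩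
  have e : Ks (h n) (κ n) m = k n := by rw [hk]
  rw [e]
  have h1 : 2 ^ n ≤ 2 ^ (h n * lam) := Nat.pow_le_pow_right (by norm_num)
    (le_trans (by rw [hh]; simp) (Nat.le_mul_of_pos_right _ hl))
  have h2 : 0 < h n * lam := Nat.mul_pos (by rw [hh]; simp) hl
  have h3 := Nat.div_mul_le_self (4 * (2 ^ (h n * lam) * h n * lam)) (μ n)
  have h4 : 128 * m * (2 * k n) ^ 2 ^ m * c8 * h n * lam ≤ μ n := by rw [hμ]; simp only; omega
  generalize 4 * (2 ^ (h n * lam) * h n * lam) / μ n = z at h3 ⊢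
  generalize (2 * k n) ^ 2 ^ m = K' at *
  have h5 : 32 * m * K' * c8 * z ≤ 2 ^ (h n * lam) := by
    refine Nat.le_of_mul_le_mul_right ?_ (show 0 < 4 * (h n * lam) by omega)
    calc 32 * m * K' * c8 * z * (4 * (h n * lam)) = z * (128 * m * K' * c8 * h n * lam) := by ring
      _ ≤ z * μ n := Nat.mul_le_mul_left _ h4
      _ ≤ _ := h3.trans (le_of_eq (by ring))
  have h6 : 8 * (2 * m * (K' * (c8 * (z + 1)) + 1) + 2 * (c7 * μ n + 6 * (c9 * μ n) + 1)) * 2 =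
      32 * m * K' * c8 * z +
        2 * (16 * m * (K' * c8 + 1) + 16 * (c7 * μ n + 6 * (c9 * μ n) + 1)) := by ring
  omega

lemma card_data (X : Type) [Fintype X] (H Wn Kn : ℕ) {M : ℕ} (hM : M = 2 ^ H) :
    Nat.card (Fin M × (IFace X Wn Kn → IFace X Wn Kn → Prop) × (Fin Wn → Bool)) =
      2 ^ (H + ((2 + Fintype.card X * (Wn * (Kn * 2))) ^ 2 + Wn)) := by
  have : Nat.card (IFace X Wn Kn) = 2 + Fintype.card X * (Wn * (Kn * 2)) := by simp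
  rw [Nat.card_prod, Nat.card_prod, Nat.card_fun, Nat.card_fun, Nat.card_fun, this]
  simp only [Nat.card_eq_fintype_card, Fintype.card_fin, Fintype.card_prop, Fintype.card_bool]
  rw [hM, ← pow_mul, ← pow_add, ← pow_add, ← sq]

theorem core {Q : Type} [Fintype Q] {int : Q → Bool → Q → ℤ → ℤ → Prop}
    (hint : ∀ q x q' dp dc, int q x q' dp dc → |dp| ≤ 1 ∧ |dc| ≤ 1) :
    ∃ (lam : ℕ) (s : Bool → ℤ → Bool) (h : ℕ), 0 < lam ∧ 0 < h ∧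
      (∃ r, 0 ≤ r ∧ r < (lam : ℤ) ∧ s false r ≠ s true r) ∧ ∀ (M : ℕ), M = 2 ^ (h * lam) →
      ∀ (St : Finset (Fin h → Bool) → (Fin M → Fin h → Bool) → Q × ℤ × ℤ → Q × ℤ × ℤ → Prop)
        (a0 : Q × ℤ × ℤ) (Fi : Set Q) (B : ℤ), B ≤ (4 * (M * h * lam) : ℕ) → a0.2.1 < 0 →
      (∀ U V a a', St U V a a' → |a'.2.1 - a.2.1| ≤ 1 ∧ |a'.2.2 - a.2.2| ≤ 1 ∧
        0 ≤ a.2.2 ∧ a.2.2 ≤ B ∧ 0 ≤ a'.2.2 ∧ a'.2.2 ≤ B) →
      (∀ U V U' V' (a a' : Q × ℤ × ℤ), 0 ≤ a.2.1 → a.2.1 < (M * h : ℕ) * lam →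
        bitf V' (a.2.1 / lam) = bitf V (a.2.1 / lam) → St U V a a' → St U' V' a a') →
      (∀ U V V' (a a' : Q × ℤ × ℤ), ¬ (0 ≤ a.2.1 ∧ a.2.1 < (M * h : ℕ) * lam) →
        St U V a a' → St U V' a a') →
      (∀ U V a a', Reg lam ((M * h : ℕ), B) a → Reg lam ((M * h : ℕ), B) a' →
        (St U V a a' ↔ IS int lam s (bitf V) a a')) →
      ¬ ∀ U V, (∃ a, ReflTransGen (St U V) a0 a ∧ a.1 ∈ Fi) ↔ ∀ k, V k ∈ U := by
  classical
  obtain ⟨lam, s, L, hl, hs, hUn⟩ := units hint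
  obtain ⟨C, W2, hC⟩ := pump (E := Ed int lam s L none) (Ω := 2 * L + 1) (fun _ _ _ h => h.1)
    (by omega)
  obtain ⟨m, hm⟩ : ∃ m, m = 4 * L + 2 := ⟨_, rfl⟩
  obtain ⟨c9, hc9⟩ : ∃ c9, c9 = (m + 1) * ((C + 1) * (4 * W2 + 1)) := ⟨_, rfl⟩
  obtain ⟨c7, hc7⟩ : ∃ c7, c7 = 18 * L + 8 + (C + 1) * (4 * W2 + 1) + (4 * W2 + 1) * W2 + c9 :=
    ⟨_, rfl⟩
  obtain ⟨h1, h, κ, μ, hh, hκ, hμ, p1, p2⟩ := params lam m (Fintype.card (Vx Q lam L)) c7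
    (Fintype.card (Vx Q lam L) * ((2 * W2 + 1) ^ 4 * ((2 * (W2 * W2)) ^ 2 *
      (4 * (c7 + 1) * ((m + 1) * 2 ^ m))))) c9 hl
  refine ⟨lam, s, h, hl, by omega, hs, ?_⟩
  intro M hM St a0 Fi B hB S0 S1 S2 S2' S3 hspec
  rw [← hM] at p1
  obtain ⟨Θ, hΘ⟩ : ∃ Θ, Θ = (4 * W2 + 1) * μ := ⟨_, rfl⟩
  obtain ⟨g, hg⟩ : ∃ g, g = (C + 1) * Θ := ⟨_, rfl⟩
  obtain ⟨Kn, hKn⟩ : ∃ Kn, Kn = 18 * L + 8 + g + Θ * W2 + c9 * μ := ⟨_, rfl⟩
  have hΘ1 : 1 ≤ Θ := hΘ ▸ Nat.mul_pos (by omega) (by omega)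
  have hKn' : Kn ≤ c7 * μ := by
    have : 18 * L + 8 ≤ (18 * L + 8) * μ := Nat.le_mul_of_pos_right _ (by omega)
    rw [hKn, hg, hΘ, hc7]
    nlinarith
  have hS : ∀ K a a', FR (Ed int lam s L none) ((M * h : ℕ), B) K a a' → Bd g (a'.2 - a.2) ∨
      ∃ v, v ≠ 0 ∧ PV (Ed int lam s L none) ((M * h : ℕ), B) (K - g) Θ W2 v a a' ∧
        (v.1 = 0 → |a'.2.1 - a.2.1| ≤ g) := by
    intro K a a' k
    have hg' : (C : ℤ) * Θ ≤ g := by rw [hg]; push_cast; nlinarith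
    by_cases k1 : |a'.2.1 - a.2.1| ≤ g
    · by_cases k2 : |a'.2.2 - a.2.2| ≤ g
      · exact Or.inl ⟨k1, k2⟩
      · obtain ⟨v, v1, v2, v3⟩ := hC (AddMonoidHom.snd ℤ ℤ) (fun _ _ h => h.2) Θ hΘ1 _ _ _ _ k
          (hg'.trans (not_le.1 k2).le)
        exact Or.inr ⟨v, by rintro rfl; exact v2 rfl,
          ⟨v1, fun δ hδ => (v3 δ hδ).mono (by linarith)⟩, fun _ => k1⟩
    · obtain ⟨v, v1, v2, v3⟩ := hC (AddMonoidHom.fst ℤ ℤ) (fun _ _ h => h.1) Θ hΘ1 _ _ _ _ k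
        (hg'.trans (not_le.1 k1).le)
      exact Or.inr ⟨v, by rintro rfl; exact v2 rfl,
        ⟨v1, fun δ hδ => (v3 δ hδ).mono (by linarith)⟩, fun h0 => absurd h0 v2⟩
  have hw : 4 * (M * h) + 1 ≤ 2 ^ (h * lam + h + 3) := by
    have := Nat.mul_le_mul_left M (Nat.lt_two_pow_self (n := h)).le
    have h0 : 0 < M * 2 ^ h := by rw [hM]; positivity
    rw [pow_add, pow_add, ← hM]
    omega
  have hM0 : 0 < M := by rw [hM]; positivity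
  have key : ∀ U, Flip m U → ∃ f V, U.card ≤ 2 * cnt U
      (Acc St a0 Fi B (c9 * μ) Kn (dat lam L St a0 Fi B (c9 * μ) Kn U V f)) := by
    intro U hF
    refine avg hM0 _ (card_pos.1 (by have := hF.card; have := Nat.one_le_two_pow (n := h); omega))
      (fun V => TS (M * h) h κ m (bitf V)) (tstar hF hw hκ) _
      (fun f V t => by rw [dat_update]) fun V hV hT => le_trans (Nat.mul_le_mul_left _ ?_) p1
    refine (nech hl hint hUn (Θ := Θ) (W2 := W2) (μ := μ) (c7 := c7) (Z := 4 * (M * h * lam))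
      (g := g) (G := c9 * μ) (Kn := Kn) hm (by omega) (hg ▸ Nat.mul_pos (by omega) hΘ1) hT
      (hκ ▸ Nat.mul_pos (by positivity) (by omega)) (by rw [hc9, hg, hΘ]; ring)
      (by rw [hΘ]; nlinarith) rfl (by omega) (by rw [hΘ]; nlinarith)
      (by rw [hKn]; push_cast; ring) hKn'
      (by have := Nat.le_mul_of_pos_right (M * h) hl; omega) hB (hS _) S0 S1 S2 S2' S3
      ((hspec _ _).2 (Fintype.mem_piFinset.1 hV))).trans (Nat.add_le_add (le_of_eq ?_) (by omega))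
    ring
  have h3 := Nat.pow_le_pow_left (Nat.add_le_add_left (Nat.mul_le_mul_left
    (Fintype.card (Vx Q lam L)) (Nat.mul_le_mul_left (h + 12 * (c9 * μ))
      (Nat.mul_le_mul_right 2 hKn'))) 2) 2
  have h4 := card_data (Vx Q lam L) (h * lam) (h + 12 * (c9 * μ)) Kn hM
  subst hh
  choose f V hfV using fun φ => key _ (flip_uset h1 m φ)
  have h2 := count_phi (Acc St a0 Fi B (c9 * μ) Kn)
    (fun φ => dat lam L St a0 Fi B (c9 * μ) Kn (Uset h1 (m + 1) φ) (V φ) (f φ))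
    (fun φ t ht => by simpa using (hspec _ _).1 (acc_sound ht) (f φ))
    (fun φ => by
      have a1 := (flip_uset h1 m φ).card
      have a2 := hfV φ
      have a3 : cnt (Uset h1 (m + 1) φ) (Acc St a0 Fi B (c9 * μ) Kn (dat lam L St a0 Fi B (c9 * μ)
          Kn (Uset h1 (m + 1) φ) (V φ) (f φ))) ≤ cnt univ (Acc St a0 Fi B (c9 * μ) Kn
          (dat lam L St a0 Fi B (c9 * μ) Kn (Uset h1 (m + 1) φ) (V φ) (f φ))) := by
        rw [cnt_eq, cnt_eq]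
        exact card_le_card (filter_subset_filter _ (subset_univ _))
      omega) p2
  rw [h4, Nat.pow_le_pow_iff_right (by norm_num)] at h2
  omega

end Pool.Agent.P.MP_d0a708_lc.BH
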