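import Pool.Agent.P.MP_d0a708_lc.BH.TStar

/-!
Greedy routes, averaging and the final count of subfunctions.
-/

namespace Pool.Agent.P.MP_d0a708_lc.BH

open Finset

lemma route {F : Type} [DecidableEq F] (T m : ℕ) (P : F → ℕ → Prop) (Pacc : F → Prop)
    (Out Ind : ℕ → Prop) (e : ℕ → ℕ) (Short : ℕ → ℕ → Prop)
    (hstep : ∀ a ≤ T, Out a → (∃ a', a < a' ∧ a' ≤ T ∧ Out a' ∧ ∀ f, P f a → P f a') ∨
      (∃ Bad : Finset F, Bad.card ≤ m ∧ ∀ f ∉ Bad, P f a → Pacc f) ∨ Ind a)
    (hInd : ∀ a, Ind a → a < e a ∧ e a ≤ T ∧ Out (e a) ∧ Short a a)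
    (hShort : ∀ a a', Ind a → Ind a' → Short a a' →
      ∃ Bad : Finset F, Bad.card ≤ m ∧ ∀ f ∉ Bad, P f a → P f (e a')) (k : ℕ) :
    ∀ a ≤ T, T - a ≤ k → Out a → ∃ Vis : Finset ℕ, (∀ i ∈ Vis, Ind i ∧ a ≤ i) ∧
      (∀ i ∈ Vis, ∀ j ∈ Vis, i < j → ¬ Short i j) ∧
      ∃ Bad : Finset F, Bad.card ≤ m * (Vis.card + 1) ∧ ∀ f ∉ Bad, P f a → Pacc f := by
  classical
  induction k with
  | zero =>
    intro a ha hk ho
    rcases hstep a ha ho with ⟨a', h1, h2, -⟩ | ⟨Bad, h1, h2⟩ | h
    · omega
    · exact ⟨∅, by simp, by simp, Bad, by simpa using h1, h2⟩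
    · have := hInd a h
      omega
  | succ k ih =>
    intro a ha hk ho
    rcases hstep a ha ho with ⟨a', h1, h2, h3, h4⟩ | ⟨Bad, h1, h2⟩ | h
    · obtain ⟨Vis, k1, k2, Bad, k3, k4⟩ := ih a' h2 (by omega) h3
      exact ⟨Vis, fun i hi => ⟨(k1 i hi).1, h1.le.trans (k1 i hi).2⟩, k2, Bad, k3,
        fun f hf hp => k4 f hf (h4 f hp)⟩
    · exact ⟨∅, by simp, by simp, Bad, by simpa using h1, h2⟩
    · obtain ⟨j, hj, hj'⟩ := exists_max_image ((range T).filter fun j => Ind j ∧ Short a j) id
        ⟨a, mem_filter.2 ⟨mem_range.2 (by have := hInd a h; omega), h, (hInd a h).2.2.2⟩⟩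
      obtain ⟨-, j1, j2⟩ := mem_filter.1 hj
      have j3 : a ≤ j := hj' a
        (mem_filter.2 ⟨mem_range.2 (by have := hInd a h; omega), h, (hInd a h).2.2.2⟩)
      obtain ⟨j4, j5, j6, -⟩ := hInd j j1
      obtain ⟨Vis, k1, k2, Bad, k3, k4⟩ := ih (e j) j5 (by omega) j6
      obtain ⟨Bad', k5, k6⟩ := hShort a j h j1 j2
      have hn : a ∉ Vis := fun hh => by have := (k1 a hh).2; omega
      refine ⟨insert a Vis, ?_, ?_, Bad ∪ Bad', ?_, fun f hf hp => ?_⟩
      · intro i hi
        rcases mem_insert.1 hi with rfl | hi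
        · exact ⟨h, le_rfl⟩
        · exact ⟨(k1 i hi).1, by have := (k1 i hi).2; omega⟩
      · intro i hi i' hi' hlt hs
        rcases mem_insert.1 hi' with e2 | h2 <;> rcases mem_insert.1 hi with e1 | h1
        · omega
        · have := (k1 i h1).2
          omega
        · have := hj' i' (mem_filter.2 ⟨mem_range.2
            (by have := hInd i' (k1 i' h2).1; omega), (k1 i' h2).1, e1 ▸ hs⟩)
          have := (k1 i' h2).2
          simp only [id] at *
          omega
        · exact k2 i h1 i' h2 hlt hs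
      · rw [card_insert_of_notMem hn, mul_add _ _ 1]
        exact (card_union_le _ _).trans (by omega)
      · rw [mem_union, not_or] at hf
        exact k4 f hf.1 (k6 f hf.2 hp)

lemma cnt_sum {α : Type} (s : Finset α) (P : α → Prop) [DecidablePred P] :
    cnt s P = ∑ a ∈ s, if P a then 1 else 0 := by
  rw [cnt_eq, card_filter]

lemma avg {M : ℕ} {τ : Type} [DecidableEq τ] (hM : 0 < M) (U : Finset τ) (hU : U.Nonempty)
    (Gd : (Fin M → τ) → Prop)
    (hGd : 4 * cnt (Fintype.piFinset fun _ : Fin M => U) (fun V => ¬ Gd V) ≤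
      (Fintype.piFinset fun _ : Fin M => U).card)
    (A : Fin M → (Fin M → τ) → τ → Prop)
    (hA : ∀ f V t, A f (Function.update V f t) = A f V)
    (h : ∀ V ∈ Fintype.piFinset fun _ : Fin M => U, Gd V →
      8 * cnt univ (fun f => ¬ A f V (V f)) ≤ M) :
    ∃ f V, U.card ≤ 2 * cnt U (A f V) := by
  classical
  by_contra hn
  push Not at hn
  set Ω := Fintype.piFinset fun _ : Fin M => U with hΩ
  have hΩ0 : 0 < Ω.card := card_pos.2 (Fintype.piFinset_nonempty.2 fun _ => hU)
  have hU0 : 0 < U.card := card_pos.2 hU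
  have h1 : ∀ f, 2 * cnt Ω (fun V => A f V (V f)) ≤ Ω.card := by
    intro f
    have e : ((Ω.filter fun V => A f V (V f)) ×ˢ U).card ≤
        ((Ω ×ˢ U).filter fun p => A f p.1 p.2).card := by
      refine card_le_card_of_injOn (fun p => (Function.update p.1 f p.2, p.1 f)) ?_ ?_
      · rintro ⟨V, t⟩ hp
        simp only [coe_product, coe_filter, Set.mem_prod, Set.mem_ofPred_eq, mem_coe, mem_product,
          hΩ, Fintype.mem_piFinset, hA] at hp ⊢
        refine ⟨⟨fun k => ?_, hp.1.1 f⟩, hp.1.2⟩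
        by_cases hk : k = f
        · subst hk
          simpa using hp.2
        · simpa [hk] using hp.1.1 k
      · rintro ⟨V, t⟩ - ⟨V', t'⟩ - e
        simp only [Prod.mk.injEq] at e ⊢
        refine ⟨funext fun k => ?_, by simpa using congrFun e.1 f⟩
        by_cases hk : k = f
        · exact hk ▸ e.2
        · simpa [hk] using congrFun e.1 k
    have e2 : ((Ω ×ˢ U).filter fun p => A f p.1 p.2).card = ∑ V ∈ Ω, cnt U (A f V) := by
      rw [card_filter, sum_product]
      exact sum_congr rfl fun V _ => (cnt_sum _ _).symm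
    rw [card_product, ← cnt_eq, e2] at e
    have e3 : 2 * ∑ V ∈ Ω, cnt U (A f V) ≤ Ω.card * U.card := by
      rw [mul_sum, ← smul_eq_mul, ← sum_const]
      exact sum_le_sum fun V _ => (hn f V).le
    exact Nat.le_of_mul_le_mul_right (by nlinarith) hU0
  have h2 : ∑ f, cnt Ω (fun V => A f V (V f)) = ∑ V ∈ Ω, cnt univ (fun f => A f V (V f)) := by
    simp only [cnt_sum]
    exact sum_comm
  have h3 : 2 * ∑ f, cnt Ω (fun V => A f V (V f)) ≤ M * Ω.card := by
    rw [mul_sum]
    exact (sum_le_sum fun f _ => h1 f).trans (by simp)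
  have h4 : cnt Ω Gd * (7 * M) ≤ 8 * ∑ V ∈ Ω, cnt univ (fun f => A f V (V f)) := by
    rw [mul_sum, cnt_eq, ← smul_eq_mul, ← sum_const]
    refine le_trans (sum_le_sum fun V hV => ?_) (sum_le_sum_of_subset (filter_subset Gd Ω))
    have := h V (mem_filter.1 hV).1 (mem_filter.1 hV).2
    have := cnt_add_not univ fun f => A f V (V f)
    simp only [card_univ, Fintype.card_fin] at this
    omega
  have h5 := cnt_add_not Ω Gd
  rw [← h2] at h4
  have h6 : 3 * Ω.card ≤ 4 * cnt Ω Gd := by omega
  have h7 := Nat.mul_le_mul_right M h6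
  have h8 := Nat.mul_pos hM hΩ0
  nlinarith

lemma Flip.card {h m : ℕ} {U : Finset (Fin h → Bool)} (hU : Flip m U) : 2 ^ h ≤ 2 * U.card := by
  obtain ⟨Z, hZ, hZ'⟩ := hU
  obtain ⟨j, hj⟩ := card_pos.1 (show 0 < Z.card by omega)
  have h1 : Uᶜ.card ≤ U.card := by
    refine card_le_card_of_injOn (fun t => Function.update t j (!t j)) ?_ ?_
    · intro t ht
      by_contra h2
      exact (mem_compl.1 ht) ((hZ' j hj t).2 h2)
    · intro t _ t' _ e
      funext i
      by_cases hi : i = j
      · subst hi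
        simpa using congrFun e i
      · simpa [hi] using congrFun e i
  have h2 := card_add_card_compl U
  simp only [Fintype.card_pi, Fintype.card_bool, prod_const, card_univ, Fintype.card_fin] at h2
  omega

/-- The first part of a block. -/
def xp (h1 k : ℕ) (t : Fin (h1 + k) → Bool) : Fin h1 → Bool := fun j => t (Fin.castAdd k j)

/-- The parity of the second part of a block. -/
def par (h1 k : ℕ) (t : Fin (h1 + k) → Bool) : ZMod 2 :=
  ∑ j : Fin k, if t (Fin.natAdd h1 j) then 1 else 0

/-- The blocks whose parity is prescribed by `φ`. -/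
def Uset (h1 k : ℕ) (φ : (Fin h1 → Bool) → ZMod 2) : Finset (Fin (h1 + k) → Bool) :=
  univ.filter fun t => par h1 k t = φ (xp h1 k t)

lemma flip_uset (h1 m : ℕ) (φ : (Fin h1 → Bool) → ZMod 2) : Flip m (Uset h1 (m + 1) φ) := by
  refine ⟨univ.map (Fin.natAddEmb h1), by simp, ?_⟩
  intro j hj t
  obtain ⟨i, -, rfl⟩ := mem_map.1 hj
  have e1 : xp h1 (m + 1) (Function.update t (Fin.natAddEmb h1 i) (!t (Fin.natAddEmb h1 i))) =
      xp h1 (m + 1) t := by
    funext j
    refine Function.update_of_ne (fun e => ?_) _ _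
    have := congrArg Fin.val e
    simp at this
    omega
  have e2 : par h1 (m + 1) (Function.update t (Fin.natAddEmb h1 i) (!t (Fin.natAddEmb h1 i))) =
      par h1 (m + 1) t + 1 := by
    unfold par
    rw [← add_sum_erase _ _ (mem_univ i), ← add_sum_erase _ _ (mem_univ i), add_right_comm]
    congr 1
    · simp only [Fin.natAddEmb_apply, Function.update_self]
      cases t (Fin.natAdd h1 i) <;> decide
    · refine sum_congr rfl fun j hj => ?_
      rw [Function.update_of_ne]
      exact fun e => (mem_erase.1 hj).1 ((Fin.natAddEmb h1).injective e)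
  simp only [Uset, mem_filter, mem_univ, true_and, e1, e2]
  generalize par h1 (m + 1) t = a
  generalize φ _ = c
  revert a c
  decide

lemma count_phi {h1 k r : ℕ} {D : Type} [Finite D] (Acc : D → (Fin (h1 + k) → Bool) → Prop)
    (data : ((Fin h1 → Bool) → ZMod 2) → D)
    (hsub : ∀ φ t, Acc (data φ) t → t ∈ Uset h1 k φ)
    (hbig : ∀ φ, 2 ^ (h1 + k) ≤ 4 * cnt univ (Acc (data φ))) (hr : 4 * r ≤ 2 ^ h1) :
    2 ^ r ≤ Nat.card D := by
  classical
  haveI := Fintype.ofFinite D
  rw [Nat.card_eq_fintype_card]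
  have h2 := card_le_mul_card_image_of_maps_to (s := univ) (t := univ) (f := data)
    (fun _ _ => mem_univ _) (2 ^ (2 ^ h1 - r)) (by
      intro d _
      by_cases hd : (univ.filter fun φ => data φ = d).Nonempty
      swap
      · simp [not_nonempty_iff_eq_empty.1 hd]
      obtain ⟨φ0, h0⟩ := hd
      set S := (univ.filter (Acc d)).image (xp h1 k) with hS
      have h3 := card_le_mul_card_image (f := xp h1 k) (univ.filter (Acc d)) (2 ^ k) (by
        intro y _
        refine (card_le_card_of_injOn (t := univ) (fun t (j : Fin k) => t (Fin.natAdd h1 j))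
          (fun _ _ => mem_coe.2 (mem_univ _)) ?_).trans (by simp)
        intro t ht t' ht' e
        have e' := (mem_filter.1 ht).2.trans (mem_filter.1 ht').2.symm
        funext j
        exact Fin.addCases (fun j => congrFun e' j) (fun j => congrFun e j) j)
      have h4 := hbig φ0
      rw [(mem_filter.1 h0).2, cnt_eq, pow_add] at h4
      have h5 : 2 ^ h1 ≤ 4 * S.card :=
        Nat.le_of_mul_le_mul_right (by nlinarith) (show 0 < 2 ^ k by positivity)
      refine (card_le_card_of_injOn (t := univ)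
        (fun (φ : (Fin h1 → Bool) → ZMod 2) (y : (Sᶜ : Finset _)) => φ y)
        (fun _ _ => mem_coe.2 (mem_univ _)) ?_).trans ?_
      · intro φ hφ φ' hφ' e
        funext y
        by_cases hy : y ∈ S
        · obtain ⟨t, ht, rfl⟩ := mem_image.1 hy
          have a1 := hsub φ t ((mem_filter.1 hφ).2 ▸ (mem_filter.1 ht).2)
          have a2 := hsub φ' t ((mem_filter.1 hφ').2 ▸ (mem_filter.1 ht).2)
          exact (mem_filter.1 a1).2.symm.trans (mem_filter.1 a2).2
        · exact congrFun e ⟨y, mem_compl.2 hy⟩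
      · simp only [card_univ, Fintype.card_pi, ZMod.card, prod_const, Fintype.card_coe, card_compl,
          Fintype.card_bool, Fintype.card_fin]
        exact Nat.pow_le_pow_right (by norm_num) (by omega))
  simp only [card_univ, Fintype.card_pi, ZMod.card, prod_const, Fintype.card_bool,
    Fintype.card_fin] at h2
  refine Nat.le_of_mul_le_mul_left ?_ (show 0 < 2 ^ (2 ^ h1 - r) by positivity)
  rwa [← pow_add, Nat.sub_add_cancel (by omega)]

end Pool.Agent.P.MP_d0a708_lc.BH
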