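import Pool.Agent.P.MP_d0a708_lc.BH.Abs

/-!
Every interior computation is an abstract path with a bounded number of tests.
-/

namespace Pool.Agent.P.MP_d0a708_lc.BH

open Relation

variable {Q : Type} [DecidableEq Q] (int : Q → Bool → Q → ℤ → ℤ → Prop) (lam : ℕ)
  (s : Bool → ℤ → Bool) (L : ℕ)

/-- A visit of one unit that ends at a local vertex with property `p`. -/
def Vis (b : ℤ → Bool) (hi : ℤ × ℤ) (K : ℤ) (p : ℤ → Prop) (a a1 : Q × ℤ × ℤ) : Prop :=
  ∃ (i : ℤ) (u v : Q × Fin (lam + 2)) (n : ℕ) (w : ℤ × ℤ) (Y : Finset _), a = loc i u a.2.2 ∧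
    a1 = loc i v a1.2.2 ∧ 0 ≤ pos u ∧ pos u < lam ∧ p (pos v) ∧
    Tour (LE int lam (s (b i))) n u v w Y ∧ a1.2.2 = a.2.2 + w.2 ∧
    FR (Ed int lam s L none) hi K (tg L (b i) u, i, a.2.2) (tg L (b i) v, i, a1.2.2) ∧
    In hi K (abs lam L a1).2

variable {int lam s L} (hl : 0 < lam)
  (hint : ∀ q x q' dp dc, int q x q' dp dc → |dp| ≤ 1 ∧ |dc| ≤ 1)
  {b : ℤ → Bool} {hi : ℤ × ℤ} {K : ℤ}
include hl

lemma vis_refl {a : Q × ℤ × ℤ} (h : In hi K (abs lam L a).2) :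
    Vis int lam s L b hi K (fun r => 0 ≤ r ∧ r < lam) a a := by
  have h1 := Int.emod_nonneg a.2.1 (show (lam : ℤ) ≠ 0 by omega)
  have h2 := Int.emod_lt_of_pos a.2.1 (show (0 : ℤ) < lam by omega)
  rw [← pos_lv hl] at h1 h2
  exact ⟨_, lv lam a, lv lam a, 0, 0, _, (loc_lv hl a).symm, (loc_lv hl a).symm, h1, h2, ⟨h1, h2⟩,
    .nil _, by simp, FR.refl h, h⟩

include hint

lemma Vis.tail {a a1 a2 : Q × ℤ × ℤ} (h : Vis int lam s L b hi K (fun r => 0 ≤ r ∧ r < lam) a a1)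
    (h1 : IS int lam s b a1 a2) (h2 : In hi K (abs lam L a2).2) :
    Vis int lam s L b hi K (fun _ => True) a a2 := by
  obtain ⟨i, u, v, n, w, Y, k1, k2, k3, k4, k5, k6, k7, k8, k9⟩ := h
  have hd := div_loc (i := i) k5.1 k5.2
  have hp : a1.2.1 = i * lam + pos v := congrArg (fun x => x.2.1) k2
  have hq : a1.1 = v.1 := congrArg (fun x => x.1) k2
  have hb := hint _ _ _ _ _ h1
  have hb1 := abs_le.1 hb.1
  set v' : Q × Fin (lam + 2) := (a2.1, ⟨(a2.2.1 - i * lam + 1).toNat, by omega⟩) with hv'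
  have hpos : pos v' = a2.2.1 - i * lam := by
    simp only [pos, hv']
    omega
  have e : LE int lam (s (b i)) v v' (0, a2.2.2 - a1.2.2) := by
    refine ⟨k5.1, k5.2, rfl, ?_⟩
    unfold IS at h1
    rw [hp, hd.1, hd.2, hq] at h1
    rw [hpos]
    convert h1 using 1
    ring
  have t1 := Tour.cons e (Tour.nil _)
  refine ⟨i, u, v', _, _, _, k1, Prod.ext rfl (Prod.ext (by simp [loc, hpos]) rfl), k3, k4, trivial,
    k6.append t1, by simp only [Prod.snd_add, Prod.snd_zero]; linarith,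
    k8.trans (FR.single k8.end_in ?_ ?_), h2⟩
  · obtain ⟨j1, j2, -⟩ := k8.end_in
    exact ⟨j1, j2, h2.2.2⟩
  · refine ⟨⟨by simp; positivity, hb.2.trans (by push_cast; omega)⟩, fun b' P a' _ ha => ?_⟩
    obtain ⟨j1, rfl⟩ := rep_tg.1 ha
    refine ⟨_, rep_tg.2 ⟨by simpa using j1, rfl⟩, ?_⟩
    rw [← j1] at t1
    simpa using t1.br (L := L) hl hint P.2 (by simp)

lemma visits {a a' : Q × ℤ × ℤ} (ha : In hi K (abs lam L a).2)
    (h : ReflTransGen (fun u v => IS int lam s b u v ∧ In hi K (abs lam L v).2) a a') :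
    ∃ a2, ReflTransGen (Vis int lam s L b hi K fun r => r = -1 ∨ r = lam) a a2 ∧
      Vis int lam s L b hi K (fun r => 0 ≤ r ∧ r < lam) a2 a' := by
  induction h with
  | refl => exact ⟨a, .refl, vis_refl hl ha⟩
  | @tail a1 a' _ h ih =>
    obtain ⟨a2, h1, h2⟩ := ih
    obtain ⟨i, u, v, n, w, Y, k1, k2, k3, k4, -, k6⟩ := h2.tail hl hint h.1 h.2
    have := pos_range v
    by_cases hv : 0 ≤ pos v ∧ pos v < lam
    · exact ⟨a2, h1, i, u, v, n, w, Y, k1, k2, k3, k4, hv, k6⟩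
    · exact ⟨a', h1.tail ⟨i, u, v, n, w, Y, k1, k2, k3, k4, by omega, k6⟩, vis_refl hl h.2⟩

omit hint in
lemma Vis.ap {p} {a a1 : Q × ℤ × ℤ} (h : Vis int lam s L b hi K p a a1) :
    ∃ i, AP (Ed int lam s L none) (Tt int lam s L) hi K (abs lam L a) [(i, b i)]
      (abs lam L a1) := by
  obtain ⟨i, u, v, n, w, Y, k1, k2, k3, k4, -, -, -, k8, k9⟩ := h
  refine ⟨i, ?_⟩
  rw [k1, abs_loc k3 k4]
  refine AP.test (P := (i, a.2.2)) (x' := tg L (b i) u) (FR.refl k8.1)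
    ⟨bd_zero (by positivity), fun b' P a' h1 h2 => ⟨a', ?_, .refl⟩⟩
    (.free (k8.trans (FR.single k8.end_in k9 ?_)))
  · rw [add_zero]
    exact rep_tg.2 ⟨h1 _ rfl, rep_cv.1 h2⟩
  · have e : (abs lam L a1).2 - (i, a1.2.2) = ((abs lam L (loc i v a1.2.2)).2.1 - i, 0) := by
      rw [← k2]
      ext <;> simp [abs]
    simp only [e]
    refine ⟨⟨(div_near hl i v).trans (by push_cast; omega), by simp; positivity⟩,
      fun b' P a' _ ha => ⟨a', ?_, .refl⟩⟩
    rw [(rep_tg.1 ha).2]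
    have := rep_exit (L := L) (b := b') hl i P.1 a1.2.2 P.2 v
    rw [← k2] at this ⊢
    simpa [Prod.add_def] using this

omit hint in
lemma Vis.port {a a1 : Q × ℤ × ℤ} (h : Vis int lam s L b hi K (fun r => r = -1 ∨ r = lam) a a1) :
    a1.2.1 % lam = 0 ∨ a1.2.1 % lam = lam - 1 := by
  obtain ⟨i, u, v, n, w, Y, -, k2, -, -, k5, -⟩ := h
  have hp : a1.2.1 = i * lam + pos v := congrArg (fun x => x.2.1) k2
  rcases k5 with k5 | k5
  · right
    rw [hp, k5, show i * lam + -1 = lam - 1 + (i - 1) * lam by ring, Int.add_mul_emod_self_right]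
    exact Int.emod_eq_of_lt (by omega) (by omega)
  · left
    rw [hp, k5, show i * lam + lam = (i + 1) * lam by ring]
    exact Int.mul_emod_left _ _

variable (hU : ∀ u v : Q × Fin (lam + 2), (pos u = 0 ∨ pos u = lam - 1) →
  (pos v = -1 ∨ pos v = lam) → ∀ β n w Y, Tour (LE int lam (s β)) n u v w Y → ∀ ε : ℤ,
  (ε = 1 ∨ ε = -1) → ∃ a g : ℤ, |a| ≤ L ∧ 0 ≤ g ∧ g ≤ L ∧
    (∀ β', PS (LE int lam (s β')) L u v a (ε * g)) ∧ (g = 0 → ε * w.2 ≤ ε * a))
include hU

lemma Vis.bracket {a a1 : Q × ℤ × ℤ}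
    (h : Vis int lam s L b hi K (fun r => r = -1 ∨ r = lam) a a1)
    (hp : a.2.1 % lam = 0 ∨ a.2.1 % lam = lam - 1) :
    ∃ lo up : ℤ, -(2 * L) ≤ lo ∧ lo ≤ 0 ∧ 0 ≤ up ∧ up ≤ 2 * L ∧ ∀ e, (e = lo ∨ e = up) →
      FR (Ed int lam s L none) hi (K - 2 * L - 5 * (2 * L + 1)) (abs lam L a)
        ((abs lam L a1).1, (abs lam L a1).2 + (0, e)) := by
  obtain ⟨i, u, v, n, w, Y, k1, k2, k3, k4, k5, k6, k7, k8, k9⟩ := h
  have hd := (div_loc (i := i) k3 k4).2
  have hp' : a.2.1 = i * lam + pos u := congrArg (fun x => x.2.1) k1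
  rw [hp', hd] at hp
  obtain ⟨a0, g, h1, h2, h3, h4, h5⟩ := hU u v hp k5 _ _ _ _ k6 1 (Or.inl rfl)
  obtain ⟨a0', g', h1', h2', h3', h4', h5'⟩ := hU u v hp k5 _ _ _ _ k6 (-1) (Or.inr rfl)
  have key : ∀ (x y e : ℤ) (k : ℕ), |x| ≤ L → |y| ≤ L → (∀ β', PS (LE int lam (s β')) L u v x y) →
      x + k * y = w.2 + e → |e| ≤ 2 * L →
      FR (Ed int lam s L none) hi (K - 2 * L - 5 * (2 * L + 1)) (abs lam L a)
        ((abs lam L a1).1, (abs lam L a1).2 + (0, e)) := by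
    intro x y e k j1 j2 j3 j4 j5
    have e1 : (abs lam L a1).2 + (0, e) =
        ((abs lam L (loc i v a1.2.2)).2.1, a.2.2 + x + k * y) := by
      rw [← k2]
      ext
      · simp
      · simp only [abs, Prod.snd_add]
        linarith
    have := free_visit hl hint j1 j2 j3 i a.2.2 a1.2.2 k (hi := hi) (K := K - 2 * L)
      (k8.1.mono (by omega)) (e1 ▸ k9.add ⟨by simp, j5⟩)
    rw [← e1, ← k2, ← abs_loc k3 k4, ← k1] at this
    exact this
  rw [abs_le] at h1 h1'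
  by_cases c1 : 0 < g ∧ a0 ≤ w.2
  · have i1 := Int.ediv_mul_add_emod (w.2 - a0) g
    have i2 := Int.emod_nonneg (w.2 - a0) c1.1.ne'
    have i3 := Int.emod_lt_of_pos (w.2 - a0) c1.1
    obtain ⟨k, hk⟩ := Int.eq_ofNat_of_zero_le (Int.ediv_nonneg (show 0 ≤ w.2 - a0 by omega) h2)
    rw [hk] at i1
    refine ⟨-((w.2 - a0) % g), g - (w.2 - a0) % g, by omega, by omega, by omega, by omega, ?_⟩
    rintro e (rfl | rfl)
    · exact key a0 _ _ k (abs_le.2 h1) (abs_le.2 (by omega)) h4 (by linarith) (abs_le.2 (by omega))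
    · exact key a0 _ _ (k + 1) (abs_le.2 h1) (abs_le.2 (by omega)) h4 (by push_cast; linarith)
        (abs_le.2 (by omega))
  by_cases c2 : 0 < g' ∧ w.2 ≤ a0'
  · have i1 := Int.ediv_mul_add_emod (a0' - w.2) g'
    have i2 := Int.emod_nonneg (a0' - w.2) c2.1.ne'
    have i3 := Int.emod_lt_of_pos (a0' - w.2) c2.1
    obtain ⟨k, hk⟩ := Int.eq_ofNat_of_zero_le (Int.ediv_nonneg (show 0 ≤ a0' - w.2 by omega) h2')
    rw [hk] at i1
    refine ⟨(a0' - w.2) % g' - g', (a0' - w.2) % g', by omega, by omega, by omega, by omega, ?_⟩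
    rintro e (rfl | rfl)
    · exact key a0' _ _ (k + 1) (abs_le.2 h1') (abs_le.2 (by omega)) h4' (by push_cast; linarith)
        (abs_le.2 (by omega))
    · exact key a0' _ _ k (abs_le.2 h1') (abs_le.2 (by omega)) h4' (by linarith)
        (abs_le.2 (by omega))
  have c3 : w.2 ≤ a0 := by omega
  have c4 : a0' ≤ w.2 := by omega
  refine ⟨a0' - w.2, a0 - w.2, by omega, by omega, by omega, by omega, ?_⟩
  rintro e (rfl | rfl)
  · exact key a0' _ _ 0 (abs_le.2 h1') (abs_le.2 (by omega)) h4' (by simp) (abs_le.2 (by omega))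
  · exact key a0 _ _ 0 (abs_le.2 h1) (abs_le.2 (by omega)) h4 (by simp) (abs_le.2 (by omega))

lemma chain {a a2 : Q × ℤ × ℤ}
    (h : ReflTransGen (Vis int lam s L b hi K fun r => r = -1 ∨ r = lam) a a2) :
    In hi K (abs lam L a).2 → (a.2.1 % lam = 0 ∨ a.2.1 % lam = lam - 1) →
    ∀ d ∈ Finset.Icc (-(2 * L : ℤ)) (2 * L), ∃ S ⊆ Finset.Icc (-(2 * L : ℤ)) (2 * L), d ∈ S ∧
      ∀ o ∈ S, ∃ ts : List (ℤ × Bool), ts.length + 1 ≤ S.card ∧ (∀ u ∈ ts, b u.1 = u.2) ∧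
        AP (Ed int lam s L none) (Tt int lam s L) hi (K - (16 * L + 5))
          ((abs lam L a).1, (abs lam L a).2 + (0, d - o)) ts (abs lam L a2) := by
  induction h using ReflTransGen.head_induction_on with
  | refl =>
    intro h _ d hd
    refine ⟨{d}, by simpa using hd, by simp, fun o ho => ⟨[], by simp, by simp, ?_⟩⟩
    obtain rfl : o = d := by simpa using ho
    simpa [← Prod.zero_eq_mk] using AP.free (FR.refl (h.mono (by omega)))
  | @head a a1 h1 _ ih =>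
    intro h hp d hd
    obtain ⟨lo, up, j1, j2, j3, j4, j5⟩ := h1.bracket hl hint hU hp
    have hin : In hi K (abs lam L a1).2 := by
      obtain ⟨_, _, _, _, _, _, _, _, _, _, _, _, _, _, h⟩ := h1
      exact h
    rw [Finset.mem_Icc] at hd
    obtain ⟨e, he, he'⟩ : ∃ e, (e = lo ∨ e = up) ∧ d + e ∈ Finset.Icc (-(2 * L : ℤ)) (2 * L) := by
      by_cases hd0 : d ≤ 0
      · exact ⟨up, Or.inr rfl, Finset.mem_Icc.2 (by omega)⟩
      · exact ⟨lo, Or.inl rfl, Finset.mem_Icc.2 (by omega)⟩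
    obtain ⟨S, k1, k2, k3⟩ := ih hin (h1.port hl) _ he'
    refine ⟨insert d S, Finset.insert_subset (Finset.mem_Icc.2 hd) k1, by simp, fun o ho => ?_⟩
    by_cases hoS : o ∈ S
    · obtain ⟨ts, k4, k5, k6⟩ := k3 o hoS
      refine ⟨ts, k4.trans (Finset.card_le_card (Finset.subset_insert _ _)), k5, FR.ap ?_ k6⟩
      have ho' := Finset.mem_Icc.1 (k1 hoS)
      have := (j5 e he).shift (k := 4 * L) (t := (0, d - o)) ⟨by simp, abs_le.2 (by simp; omega)⟩
      simp only [add_assoc, Prod.mk_add_mk, add_zero] at this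
      rw [show e + (d - o) = d + e - o by ring] at this
      exact this.mono (by omega)
    · obtain rfl : o = d := by simpa [hoS] using ho
      obtain ⟨ts, k4, k5, k6⟩ := k3 _ k2
      obtain ⟨i, k7⟩ := h1.ap hl
      simp only [sub_self, ← Prod.zero_eq_mk, add_zero] at k6 ⊢
      refine ⟨_, ?_, ?_, (k7.mono (by omega)).trans k6⟩
      · rw [Finset.card_insert_of_notMem hoS]
        simpa using k4
      · simpa using k5

theorem davenport {a a' : Q × ℤ × ℤ} (ha : In hi K (abs lam L a).2)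
    (h : ReflTransGen (fun u v => IS int lam s b u v ∧ In hi K (abs lam L v).2) a a') :
    ∃ ts : List (ℤ × Bool), ts.length ≤ 4 * L + 2 ∧ (∀ u ∈ ts, b u.1 = u.2) ∧
      AP (Ed int lam s L none) (Tt int lam s L) hi (K - (16 * L + 5)) (abs lam L a) ts
        (abs lam L a') := by
  obtain ⟨a2, h1, h2⟩ := visits hl hint ha h
  obtain ⟨i, h3⟩ := h2.ap hl
  rcases h1.cases_head with rfl | ⟨a1, h4, h5⟩
  · exact ⟨_, by simp, by simp, h3.mono (by omega)⟩
  · obtain ⟨j, h6⟩ := h4.ap hl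
    obtain ⟨S, k1, k2, k3⟩ := chain hl hint hU h5 h6.end_in (h4.port hl) 0
      (Finset.mem_Icc.2 (by omega))
    obtain ⟨ts, k4, k5, k6⟩ := k3 _ k2
    simp only [sub_self, ← Prod.zero_eq_mk, add_zero] at k6
    have hc := Finset.card_le_card k1
    rw [Int.card_Icc] at hc
    refine ⟨_, ?_, ?_, ((h6.mono (by omega)).trans k6).trans (h3.mono (by omega))⟩
    · simp only [List.length_append, List.length_singleton]
      omega
    · intro u hu
      simp only [List.mem_append, List.mem_singleton] at hu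
      rcases hu with (rfl | hu) | rfl
      · rfl
      · exact k5 u hu
      · rfl

end Pool.Agent.P.MP_d0a708_lc.BH
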