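import Pool.Agent.P.MP_d0a708_lc.BH.PerV

/-!
The contents of one block that are accepted through a small interface.
-/

namespace Pool.Agent.P.MP_d0a708_lc.BH

open Relation Finset Function

/-- Interface nodes. -/
abbrev IFace (X : Type) (Wn Kn : ℕ) : Type := Bool ⊕ (X × Fin Wn × Fin Kn × Bool)

variable {Q : Type} {lam L h M : ℕ}
  (St : Finset (Fin h → Bool) → (Fin M → Fin h → Bool) → Q × ℤ × ℤ → Q × ℤ × ℤ → Prop)
  (a0 : Q × ℤ × ℤ) (Fi : Set Q) (B : ℤ) (G Kn : ℕ)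

/-- The abstract configuration is reachable. -/
def RR (U : Finset (Fin h → Bool)) (A : Vx Q lam L × ℤ × ℤ) (V : Fin M → Fin h → Bool) : Prop :=
  ∃ a, Rep (bitf V) A a ∧ ReflTransGen (St U V) a0 a

/-- The meaning of an interface node. -/
def nd (f : Fin M) : IFace (Vx Q lam L) (h + 12 * G) Kn → Finset (Fin h → Bool) →
    (Fin M → Fin h → Bool) → Prop
  | .inl true, _, _ => True
  | .inl false, U, V => ∃ a, ReflTransGen (St U V) a0 a ∧ a.1 ∈ Fi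
  | .inr x, U, V => RR St a0 U
      (x.1, f * h - 6 * G + x.2.1, if x.2.2.2 then B - x.2.2.1 else x.2.2.1) V

/-- The bits around a block. -/
def wb (V : Fin M → Fin h → Bool) (f : Fin M) : Fin (h + 12 * G) → Bool :=
  fun k => bitf (update V f fun _ => false) (f * h - 6 * G + k)

/-- Closed sets of interface nodes. -/
def Cl (d : Fin M × (IFace (Vx Q lam L) (h + 12 * G) Kn → IFace (Vx Q lam L) (h + 12 * G) Kn → Prop)
    × (Fin (h + 12 * G) → Bool)) (t : Fin h → Bool)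
    (S : Set (IFace (Vx Q lam L) (h + 12 * G) Kn)) : Prop :=
  .inl true ∈ S ∧ (∀ u v, d.2.1 u v → u ∈ S → v ∈ S) ∧
    ∀ u v, (∀ U' V', V' d.1 = t → wb G V' d.1 = d.2.2 → nd St a0 Fi B G Kn d.1 u U' V' →
      nd St a0 Fi B G Kn d.1 v U' V') → u ∈ S → v ∈ S

/-- The contents accepted through the interface. -/
def Acc (d : Fin M × (IFace (Vx Q lam L) (h + 12 * G) Kn → IFace (Vx Q lam L) (h + 12 * G) Kn →
    Prop) × (Fin (h + 12 * G) → Bool)) (t : Fin h → Bool) : Prop :=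
  ∀ S, Cl St a0 Fi B G Kn d t S → .inl false ∈ S

variable (lam L) in
/-- The description of an input outside one block. -/
def dat (U : Finset (Fin h → Bool)) (V : Fin M → Fin h → Bool) (f : Fin M) :
    Fin M × (IFace (Vx Q lam L) (h + 12 * G) Kn → IFace (Vx Q lam L) (h + 12 * G) Kn → Prop) ×
      (Fin (h + 12 * G) → Bool) :=
  (f, fun u v => ∀ t', nd St a0 Fi B G Kn f u U (update V f t') →
    nd St a0 Fi B G Kn f v U (update V f t'), wb G V f)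

variable (lam L) in
/-- The property `w` is linked to the start through the interface. -/
def Lk (U : Finset (Fin h → Bool)) (V : Fin M → Fin h → Bool) (f : Fin M)
    (w : (Fin M → Fin h → Bool) → Prop) : Prop :=
  ∀ S, Cl St a0 Fi B G Kn (dat lam L St a0 Fi B G Kn U V f) (V f) S →
    ∃ u ∈ S, ∀ t', nd St a0 Fi B G Kn f u U (update V f t') → w (update V f t')

variable {St a0 Fi B G Kn} {U : Finset (Fin h → Bool)} {V : Fin M → Fin h → Bool} {f : Fin M}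

lemma dat_update (t : Fin h → Bool) :
    dat lam L St a0 Fi B G Kn U (update V f t) f = dat lam L St a0 Fi B G Kn U V f := by
  simp only [dat, update_idem]
  unfold wb
  simp only [update_idem]

lemma acc_sound {t : Fin h → Bool} (hA : Acc St a0 Fi B G Kn (dat lam L St a0 Fi B G Kn U V f) t) :
    ∃ a, ReflTransGen (St U (update V f t)) a0 a ∧ a.1 ∈ Fi :=
  hA {u | nd St a0 Fi B G Kn f u U (update V f t)} ⟨trivial, fun _ _ h => h t, fun _ _ h =>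
    h U (update V f t) (update_self _ _ _) (by unfold wb; simp only [dat, update_idem]; rfl)⟩

lemma bitf_update {i : ℤ} (hi : i / h ≠ f) (t : Fin h → Bool) :
    bitf (update V f t) i = bitf V i :=
  bitf_congr fun g hg => update_of_ne (by rintro rfl; exact hi hg) _ _

lemma wb_agree {V' : Fin M → Fin h → Bool} (h1 : V' f = V f) (h2 : wb G V' f = wb G V f) {i : ℤ}
    (h3 : f * h - 6 * G ≤ i ∧ i < f * h + h + 6 * G) : bitf V' i = bitf V i := by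
  by_cases hi : i / h = f
  · refine bitf_congr fun g hg => ?_
    obtain rfl : g = f := Fin.ext (by omega)
    exact h1
  · have := congrFun h2 ⟨(i - (f * h - 6 * G)).toNat, by omega⟩
    have e : (f : ℤ) * h - 6 * G + ((i - (f * h - 6 * G)).toNat : ℕ) = i := by omega
    simp only [wb, e] at this
    rwa [bitf_update hi, bitf_update hi] at this

lemma Lk.univ {w w'} (h1 : ∀ t', w (update V f t') → w' (update V f t'))
    (h2 : Lk lam L St a0 Fi B G Kn U V f w) : Lk lam L St a0 Fi B G Kn U V f w' := by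
  intro S hS
  obtain ⟨u, h3, h4⟩ := h2 S hS
  exact ⟨u, h3, fun t' h5 => h1 t' (h4 t' h5)⟩

lemma Lk.top {w} (h1 : ∀ V', w V') : Lk lam L St a0 Fi B G Kn U V f w :=
  fun _ hS => ⟨_, hS.1, fun _ _ => h1 _⟩

lemma Lk.acc (h1 : Lk lam L St a0 Fi B G Kn U V f
    fun V' => ∃ a, ReflTransGen (St U V') a0 a ∧ a.1 ∈ Fi) :
    Acc St a0 Fi B G Kn (dat lam L St a0 Fi B G Kn U V f) (V f) := by
  intro S hS
  obtain ⟨u, h3, h4⟩ := h1 S hS
  exact hS.2.1 u _ h4 h3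

lemma nd_zone {A : Vx Q lam L × ℤ × ℤ} (h1 : f * h - 6 * G ≤ A.2.1 ∧ A.2.1 < f * h + h + 6 * G)
    (h2 : (0 ≤ A.2.2 ∧ A.2.2 < Kn) ∨ (B - Kn < A.2.2 ∧ A.2.2 ≤ B)) :
    ∃ u : IFace (Vx Q lam L) (h + 12 * G) Kn,
      nd St a0 Fi B G Kn f u = fun U V => RR St a0 U A V := by
  have e : (f : ℤ) * h - 6 * G + ((A.2.1 - (f * h - 6 * G)).toNat : ℕ) = A.2.1 := by omega
  rcases h2 with h2 | h2
  · refine ⟨.inr (A.1, ⟨(A.2.1 - (f * h - 6 * G)).toNat, by omega⟩, ⟨A.2.2.toNat, by omega⟩,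
      false), ?_⟩
    funext U V
    simp only [nd, e, Int.toNat_of_nonneg h2.1]
    rfl
  · refine ⟨.inr (A.1, ⟨(A.2.1 - (f * h - 6 * G)).toNat, by omega⟩,
      ⟨(B - A.2.2).toNat, by omega⟩, true), ?_⟩
    funext U V
    simp only [nd, e, Int.toNat_of_nonneg (sub_nonneg.2 h2.2), if_true, sub_sub_cancel]

lemma Lk.ins {A A' : Vx Q lam L × ℤ × ℤ}
    (h1 : f * h - 6 * G ≤ A.2.1 ∧ A.2.1 < f * h + h + 6 * G)
    (h2 : (0 ≤ A.2.2 ∧ A.2.2 < Kn) ∨ (B - Kn < A.2.2 ∧ A.2.2 ≤ B))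
    (h1' : f * h - 6 * G ≤ A'.2.1 ∧ A'.2.1 < f * h + h + 6 * G)
    (h2' : (0 ≤ A'.2.2 ∧ A'.2.2 < Kn) ∨ (B - Kn < A'.2.2 ∧ A'.2.2 ≤ B))
    (h3 : ∀ U' V', (∀ i : ℤ, f * h - 6 * G ≤ i ∧ i < f * h + h + 6 * G → bitf V' i = bitf V i) →
      RR St a0 U' A V' → RR St a0 U' A' V')
    (h4 : Lk lam L St a0 Fi B G Kn U V f (RR St a0 U A)) :
    Lk lam L St a0 Fi B G Kn U V f (RR St a0 U A') := by
  obtain ⟨u, hu⟩ := nd_zone (St := St) (a0 := a0) (Fi := Fi) h1 h2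
  obtain ⟨v, hv⟩ := nd_zone (St := St) (a0 := a0) (Fi := Fi) h1' h2'
  intro S hS
  obtain ⟨u0, h5, h6⟩ := h4 S hS
  refine ⟨v, hS.2.2 u v ?_ (hS.2.1 u0 u (fun t' h7 => ?_) h5), fun t' h7 => by rwa [hv] at h7⟩
  · intro U' V' k1 k2
    simp only [dat, hu, hv] at k1 k2 ⊢
    exact h3 U' V' fun i hi => wb_agree k1 k2 hi
  · rw [hu]
    exact h6 t' h7

lemma rr_abs (hl : 0 < lam) {a : Q × ℤ × ℤ} :
    RR St a0 U (abs lam L a) V ↔ ReflTransGen (St U V) a0 a := by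
  simp [RR, rep_abs hl]

theorem nech [DecidableEq Q] [Fintype Q] {int : Q → Bool → Q → ℤ → ℤ → Prop} {s : Bool → ℤ → Bool}
    (hl : 0 < lam) (hint : ∀ q x q' dp dc, int q x q' dp dc → |dp| ≤ 1 ∧ |dc| ≤ 1)
    (hUn : ∀ u v : Q × Fin (lam + 2), (pos u = 0 ∨ pos u = lam - 1) →
      (pos v = -1 ∨ pos v = lam) → ∀ β n w Y, Tour (LE int lam (s β)) n u v w Y → ∀ ε : ℤ,
      (ε = 1 ∨ ε = -1) → ∃ a g : ℤ, |a| ≤ L ∧ 0 ≤ g ∧ g ≤ L ∧
        (∀ β', PS (LE int lam (s β')) L u v a (ε * g)) ∧ (g = 0 → ε * w.2 ≤ ε * a))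
    {κ m Θ W2 μ c7 Z g : ℕ} {K : ℤ} (hm : m = 4 * L + 2) (hh : 0 < h) (hg : 0 < g)
    (hT : TS (M * h) h κ m (bitf V)) (hκ : 0 < κ) (hG : G = (m + 1) * g)
    (hΘ : 2 * Ks h κ m * W2 ≤ Θ) (hK : K = 2 * L + 2 + g + Θ * W2)
    (hμ : 0 < μ) (hΘ' : 4 * (μ * W2) ≤ Θ) (hKn : Kn = K + (16 * L + 5) + 1 + G)
    (hK1 : Kn ≤ c7 * μ) (hZ1 : M * h ≤ Z) (hZ2 : B ≤ Z)
    (hS : ∀ a a', FR (Ed int lam s L none) ((M * h : ℕ), B) K a a' → Bd g (a'.2 - a.2) ∨
      ∃ v, v ≠ 0 ∧ PV (Ed int lam s L none) ((M * h : ℕ), B) (K - g) Θ W2 v a a' ∧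
        (v.1 = 0 → |a'.2.1 - a.2.1| ≤ g))
    (S0 : a0.2.1 < 0)
    (S1 : ∀ U V a a', St U V a a' → |a'.2.1 - a.2.1| ≤ 1 ∧ |a'.2.2 - a.2.2| ≤ 1 ∧
      0 ≤ a.2.2 ∧ a.2.2 ≤ B ∧ 0 ≤ a'.2.2 ∧ a'.2.2 ≤ B)
    (S2 : ∀ U V U' V' (a a' : Q × ℤ × ℤ), 0 ≤ a.2.1 → a.2.1 < (M * h : ℕ) * lam →
      bitf V' (a.2.1 / lam) = bitf V (a.2.1 / lam) → St U V a a' → St U' V' a a')
    (S2' : ∀ U V V' (a a' : Q × ℤ × ℤ), ¬ (0 ≤ a.2.1 ∧ a.2.1 < (M * h : ℕ) * lam) →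
      St U V a a' → St U V' a a')
    (S3 : ∀ U V a a', Reg lam ((M * h : ℕ), B) a → Reg lam ((M * h : ℕ), B) a' →
      (St U V a a' ↔ IS int lam s (bitf V) a a'))
    (hrun : ∃ a, ReflTransGen (St U V) a0 a ∧ a.1 ∈ Fi) :
    cnt univ (fun f => ¬ Acc St a0 Fi B G Kn (dat lam L St a0 Fi B G Kn U V f) (V f)) ≤
      2 * m * ((2 * Ks h κ m) ^ 2 ^ m *
      (Fintype.card (Vx Q lam L) * ((2 * W2 + 1) ^ 4 * ((2 * (W2 * W2)) ^ 2 *
        (4 * (c7 + 1) * (Z / μ + 1) * ((m + 1) * 2 ^ m))))) + 1) + 2 * (Kn + 6 * G + 1) := by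
  classical
  obtain ⟨aT, hrun, hF⟩ := hrun
  have hG1 : 1 ≤ G := hG ▸ Nat.mul_pos (by omega) hg
  have hl' : (0 : ℤ) < lam := by omega
  have hh' : (0 : ℤ) < h := by omega
  have hsound : ∀ U' V' A ts A', AP (Ed int lam s L none) (Tt int lam s L) ((M * h : ℕ), B)
      (K - g - Θ * W2) A ts A' → (∀ u ∈ ts, bitf V' u.1 = u.2) → RR St a0 U' A V' →
      RR St a0 U' A' V' := fun U' V' A ts A' h1 h2 =>
    h1.sound (by omega) (fun a a' k1 k2 k3 k4 => k1.tail ((S3 U' V' a a' k3 k4).2 k2)) h2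
  set ok : Fin M → Prop := fun f => (Kn : ℤ) + 6 * G ≤ f * h ∧
    (f : ℤ) * h + h + Kn + 6 * G ≤ (M * h : ℕ) with hok
  have hzone : ∀ (f : Fin M) (y : ℤ × ℤ), ok f → f * h - 6 * G ≤ y.1 ∧ y.1 < f * h + h + 6 * G →
      0 ≤ y.2 → y.2 ≤ B → ¬ In ((M * h : ℕ), B) Kn y →
      (0 ≤ y.2 ∧ y.2 < Kn) ∨ (B - Kn < y.2 ∧ y.2 ≤ B) := by
    intro f y h1 h2 h3 h4 h5
    simp only [In, hok] at h1 h5
    omega
  obtain ⟨Bad, b1, b2⟩ := perV hl hint hUn (M := M) (hi := ((M * h : ℕ), B)) (K := K) (g := g)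
    (G := G) (c7 := c7) (Z := Z) hm hh rfl (by positivity) hT hκ (by exact_mod_cast hG) hΘ
    (by omega) hμ hΘ' (by rw [← hKn]; exact_mod_cast hK1) (Int.ofNat_le.2 hZ1) hZ2 hS
    (P := fun f A => ok f → Lk lam L St a0 Fi B G Kn U V f (RR St a0 U A))
    (Pacc := fun f => ok f → Acc St a0 Fi B G Kn (dat lam L St a0 Fi B G Kn U V f) (V f))
    (fun f A ts A' h1 h2 h3 h4 h5 => (h4 h5).univ fun t' => hsound _ _ _ _ _ h1
      fun u hu => (bitf_update (h3 u hu) t').trans (h2 u hu))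
    (fun f A ts A' h1 h2 h3 h4 h5 h6 h7 h8 h9 => by
      rw [← hKn] at h6 h7
      obtain ⟨-, -, i1, i2⟩ := h1.start_in
      obtain ⟨-, -, i3, i4⟩ := h1.end_in
      exact Lk.ins h4 (hzone f _ h9 h4 (by omega) (by omega) h6) h5
        (hzone f _ h9 h5 (by omega) (by omega) h7) (fun U' V' k => hsound _ _ _ _ _ h1
          fun u hu => (k _ (h3 u hu)).trans (h2 u hu)) (h8 h9))
    (St := St U V) (a0 := a0) (aT := aT)
    (fun a a' h1 => ⟨(S1 _ _ _ _ h1).1, (S1 _ _ _ _ h1).2.1⟩)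
    (fun a a' h1 h2 => (S3 _ _ _ _ h1 h2).1)
    (fun f a a' _ h2 h3 h4 h5 h6 => by
      by_cases hr : 0 ≤ a.2.1 ∧ a.2.1 < (M * h : ℕ) * lam
      swap
      · exact (h5 h6).univ fun t' k => (rr_abs hl).2 (((rr_abs hl).1 k).tail (S2' _ _ _ _ _ hr h2))
      by_cases hf : a.2.1 / lam / h = f
      swap
      · exact (h5 h6).univ fun t' k => (rr_abs hl).2 (((rr_abs hl).1 k).tail
          (S2 _ _ _ _ _ _ hr.1 hr.2 (bitf_update hf t') h2))
      obtain ⟨s1, s2, s3, s4, s5, s6⟩ := S1 _ _ _ _ h2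
      have a1 := Int.ediv_mul_add_emod (a.2.1 / lam) h
      have a2 := Int.emod_nonneg (a.2.1 / lam) hh'.ne'
      have a3 := Int.emod_lt_of_pos (a.2.1 / lam) hh'
      have a4 := abs_le.1 (div_step hl s1)
      rw [hf] at a1
      have w1 : f * h - 6 * G ≤ (abs lam L a).2.1 ∧ (abs lam L a).2.1 < f * h + h + 6 * G := by
        simp only [abs]; omega
      have w2 : f * h - 6 * G ≤ (abs lam L a').2.1 ∧ (abs lam L a').2.1 < f * h + h + 6 * G := by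
        simp only [abs]; omega
      exact Lk.ins w1 (hzone f _ h6 w1 s3 s4 fun k => h3 (k.mono (by omega))) w2
        (hzone f _ h6 w2 s5 s6 fun k => h4 (k.mono (by omega)))
        (fun U' V' k k' => (rr_abs hl).2 (((rr_abs hl).1 k').tail
          (S2 _ _ _ _ _ _ hr.1 hr.2 (k _ w1) h2))) (h5 h6))
    S0 (fun f h1 h2 => Lk.acc ((h1 h2).univ fun t' k => ⟨aT, (rr_abs hl).1 k, hF⟩)) hrun
  have hE : cnt univ (fun f => ¬ ok f) ≤ 2 * (Kn + 6 * G + 1) := by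
    rw [cnt_eq]
    refine (card_le_card_of_injOn (t := range (Kn + 6 * G + 1) ∪ Ico (M - (Kn + 6 * G + 1)) M)
      Fin.val ?_ Fin.val_injective.injOn).trans ((card_union_le _ _).trans ?_)
    · intro f hf
      have h1 := (mem_filter.1 hf).2
      have h2 := f.2
      simp only [hok, not_and_or, not_le] at h1
      simp only [coe_union, coe_range, coe_Ico, Set.mem_union, Set.mem_Iio, Set.mem_Ico]
      rcases h1 with h1 | h1
      · have : (f : ℤ) ≤ f * h := le_mul_of_one_le_right (by positivity) hh'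
        omega
      · have : (M : ℤ) - f - 1 ≤ (M - f - 1) * h := le_mul_of_one_le_right (by omega) hh'
        push_cast at h1
        have : (M : ℤ) - f - 1 < Kn + 6 * G := by linarith
        omega
    · simp only [card_range, Nat.card_Ico]
      omega
  refine le_trans ?_ (Nat.add_le_add b1 hE)
  rw [cnt_eq, cnt_eq]
  refine le_trans (card_le_card fun f hf => ?_) (card_union_le _ _)
  by_contra h1
  simp only [mem_union, mem_filter, mem_univ, true_and, not_or, not_not] at h1 hf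
  exact hf (b2 f h1.1 (fun _ => Lk.top fun V' => (rr_abs hl).2 .refl) h1.2)

end Pool.Agent.P.MP_d0a708_lc.BH
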