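import Pool.Agent.P.MP_d0a708_lc.BH.Pump

/-!
Paths with tests and their classification.
-/

namespace Pool.Agent.P.MP_d0a708_lc.BH

variable {X : Type}

/-- A path inside the rectangle made of free runs and test edges; the list records the first
coordinate and the bit of every test. -/
inductive AP (E : X → X → ℤ × ℤ → Prop) (T : Bool → X → X → Prop) (hi : ℤ × ℤ) (K : ℤ) :
    X × ℤ × ℤ → List (ℤ × Bool) → X × ℤ × ℤ → Prop
  | free {a a'} : FR E hi K a a' → AP E T hi K a [] a'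
  | test {a x x' P β ts a'} : FR E hi K a (x, P) → T β x x' → AP E T hi K (x', P) ts a' →
      AP E T hi K a ((P.1, β) :: ts) a'

variable {E : X → X → ℤ × ℤ → Prop} {T : Bool → X → X → Prop} {hi : ℤ × ℤ} {K : ℤ}

lemma AP.start_in {a ts a'} (h : AP E T hi K a ts a') : In hi K a.2 := by
  cases h with
  | free h => exact h.1
  | test h _ _ => exact h.1

lemma AP.end_in {a ts a'} (h : AP E T hi K a ts a') : In hi K a'.2 := by
  induction h with
  | free h => exact h.end_in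
  | test _ _ _ ih => exact ih

lemma FR.ap {a b ts c} (h : FR E hi K a b) (h' : AP E T hi K b ts c) : AP E T hi K a ts c := by
  cases h' with
  | free h' => exact .free (h.trans h')
  | test h1 h2 h3 => exact .test (h.trans h1) h2 h3

lemma AP.trans {a ts b ts' c} (h : AP E T hi K a ts b) (h' : AP E T hi K b ts' c) :
    AP E T hi K a (ts ++ ts') c := by
  induction h with
  | free h => exact h.ap h'
  | test h1 h2 _ ih => exact .test h1 h2 (ih h')

lemma AP.fr {a ts b c} (h : AP E T hi K a ts b) (h' : FR E hi K b c) : AP E T hi K a ts c := by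
  simpa using h.trans (.free h')

lemma AP.mono {K' a ts a'} (h : AP E T hi K a ts a') (h' : K' ≤ K) : AP E T hi K' a ts a' := by
  induction h with
  | free h => exact .free (h.mono h')
  | test h1 h2 _ ih => exact .test (h1.mono h') h2 ih

lemma AP.shift {k a ts a'} (h : AP E T hi K a ts a') {t} (ht : Bd k t) :
    AP E T hi (K - k) (a.1, a.2 + t) (ts.map fun u => (u.1 + t.1, u.2)) (a'.1, a'.2 + t) := by
  induction h with
  | free h => exact .free (h.shift ht)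
  | test h1 h2 _ ih => exact .test (h1.shift ht) h2 ih

lemma AP.tests_in {a ts a'} (h : AP E T hi K a ts a') : ∀ u ∈ ts, K ≤ u.1 ∧ u.1 + K ≤ hi.1 := by
  induction h with
  | free h => simp
  | test h1 h2 _ ih =>
    intro u hu
    rcases List.mem_cons.1 hu with rfl | hu
    · exact ⟨h1.end_in.1, h1.end_in.2.1⟩
    · exact ih u hu

/-- The end point and all tests are horizontally close to the start. -/
def Narrow (G : ℤ) (a : X × ℤ × ℤ) (ts : List (ℤ × Bool)) (a' : X × ℤ × ℤ) : Prop :=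
  |a'.2.1 - a.2.1| ≤ G ∧ ∀ u ∈ ts, |u.1 - a.2.1| ≤ G

/-- The end point and all tests are close to the start. -/
def Small (G : ℤ) (a : X × ℤ × ℤ) (ts : List (ℤ × Bool)) (a' : X × ℤ × ℤ) : Prop :=
  Narrow G a ts a' ∧ |a'.2.2 - a.2.2| ≤ G

lemma Narrow.mono {G G'} {a a' : X × ℤ × ℤ} {ts} (h : Narrow G a ts a') (h' : G ≤ G') :
    Narrow G' a ts a' := ⟨h.1.trans h', fun u hu => (h.2 u hu).trans h'⟩

lemma Small.mono {G G'} {a a' : X × ℤ × ℤ} {ts} (h : Small G a ts a') (h' : G ≤ G') :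
    Small G' a ts a' := ⟨h.1.mono h', h.2.trans h'⟩

lemma Narrow.trans {G G'} {a b c : X × ℤ × ℤ} {ts ts'} (h : Narrow G a ts b)
    (h' : Narrow G' b ts' c) : Narrow (G + G') a (ts ++ ts') c := by
  obtain ⟨h1, h2⟩ := h
  obtain ⟨h3, h4⟩ := h'
  rw [abs_le] at h1 h3
  refine ⟨abs_le.2 ⟨by omega, by omega⟩, fun u hu => ?_⟩
  rcases List.mem_append.1 hu with hu | hu
  · have := abs_le.1 (h2 u hu)
    exact abs_le.2 ⟨by omega, by omega⟩
  · have := abs_le.1 (h4 u hu)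
    exact abs_le.2 ⟨by omega, by omega⟩

lemma Narrow.cons {g G} {a a' : X × ℤ × ℤ} {x' P β ts} (h : |P.1 - a.2.1| ≤ g)
    (h' : Narrow G (x', P) ts a') : Narrow (G + g) a ((P.1, β) :: ts) a' := by
  obtain ⟨h3, h4⟩ := h'
  rw [abs_le] at h h3
  simp only at h3 h4
  refine ⟨abs_le.2 ⟨by omega, by omega⟩, fun u hu => ?_⟩
  rcases List.mem_cons.1 hu with rfl | hu
  · exact abs_le.2 ⟨by simp only; omega, by simp only; omega⟩
  · have := abs_le.1 (h4 u hu)
    exact abs_le.2 ⟨by omega, by omega⟩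

lemma Small.cons {g G} {a a' : X × ℤ × ℤ} {x' P β ts} (h : Bd g (P - a.2))
    (h' : Small G (x', P) ts a') : Small (G + g) a ((P.1, β) :: ts) a' := by
  refine ⟨h'.1.cons h.1, ?_⟩
  have h1 := abs_le.1 h.2
  have h2 := abs_le.1 h'.2
  simp only [Prod.snd_sub] at h1 h2
  exact abs_le.2 ⟨by omega, by omega⟩

lemma small_nil {G} (hG : 0 ≤ G) (a : X × ℤ × ℤ) : Small G a [] a :=
  ⟨⟨by simpa, by simp⟩, by simpa⟩

section

variable {g : ℤ} {PV : ℤ × ℤ → X × ℤ × ℤ → X × ℤ × ℤ → Prop} (hg : 0 ≤ g)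
  (hS : ∀ a a', FR E hi K a a' → Bd g (a'.2 - a.2) ∨
    ∃ v, v ≠ 0 ∧ PV v a a' ∧ (v.1 = 0 → |a'.2.1 - a.2.1| ≤ g))
include hg hS

lemma AP.first {a ts a'} (h : AP E T hi K a ts a') :
    Small ((ts.length + 1) * g) a ts a' ∨ ∃ a1 a2 ts1 ts2 v, ts = ts1 ++ ts2 ∧
      AP E T hi K a ts1 a1 ∧ Small ((ts.length + 1) * g) a ts1 a1 ∧ v ≠ 0 ∧ PV v a1 a2 ∧
      AP E T hi K a2 ts2 a' := by
  induction h with
  | @free a a' h =>
    rcases hS _ _ h with h1 | ⟨v, h1, h2, -⟩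
    · exact Or.inl ⟨⟨by simpa using h1.1, by simp⟩, by simpa using h1.2⟩
    · exact Or.inr ⟨a, a', [], [], v, rfl, .free (.refl h.1), small_nil (by simpa) _, h1, h2,
        .free (.refl h.end_in)⟩
  | @test a x x' P β ts a' h ht h' ih =>
    have e : (((((P.1, β) :: ts).length : ℕ) : ℤ) + 1) * g = (ts.length + 1) * g + g := by
      simp; ring
    rw [e]
    rcases hS _ _ h with h1 | ⟨v, h1, h2, -⟩
    · rcases ih with ih | ⟨a1, a2, ts1, ts2, v, rfl, k1, k2, k3⟩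
      · exact Or.inl (ih.cons h1)
      · exact Or.inr ⟨a1, a2, _ :: ts1, ts2, v, rfl, .test h ht k1, k2.cons h1, k3⟩
    · exact Or.inr ⟨a, (x, P), [], _, v, rfl, .free (.refl h.1), small_nil (by positivity) _,
        h1, h2, .test (.refl h.end_in) ht h'⟩

lemma AP.last {a ts a'} (h : AP E T hi K a ts a') :
    Small ((ts.length + 1) * g) a ts a' ∨ ∃ a3 a4 ts1 ts3 v, ts = ts1 ++ ts3 ∧
      AP E T hi K a ts1 a3 ∧ v ≠ 0 ∧ PV v a3 a4 ∧ (v.1 = 0 → |a4.2.1 - a3.2.1| ≤ g) ∧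
      AP E T hi K a4 ts3 a' ∧ Small ((ts.length + 1) * g) a4 ts3 a' := by
  induction h with
  | @free a a' h =>
    rcases hS _ _ h with h1 | ⟨v, h1, h2, h3⟩
    · exact Or.inl ⟨⟨by simpa using h1.1, by simp⟩, by simpa using h1.2⟩
    · exact Or.inr ⟨a, a', [], [], v, rfl, .free (.refl h.1), h1, h2, h3,
        .free (.refl h.end_in), small_nil (by simpa) _⟩
  | @test a x x' P β ts a' h ht h' ih =>
    have e : (((((P.1, β) :: ts).length : ℕ) : ℤ) + 1) * g = (ts.length + 1) * g + g := by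
      simp; ring
    rw [e]
    rcases ih with ih | ⟨a3, a4, ts1, ts3, v, rfl, k1, k2, k3, k4, k5, k6⟩
    · rcases hS _ _ h with h1 | ⟨v, h1, h2, h3⟩
      · exact Or.inl (ih.cons h1)
      · exact Or.inr ⟨a, (x, P), [], _, v, rfl, .free (.refl h.1), h1, h2, h3,
          .test (.refl h.end_in) ht h', ih.cons (by simpa using bd_zero hg)⟩
    · exact Or.inr ⟨a3, a4, _ :: ts1, ts3, v, rfl, .test h ht k1, k2, k3, k4, k5,
        k6.mono (by linarith)⟩

omit hg in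
lemma AP.narrow {a ts a'} (h : AP E T hi K a ts a') :
    Narrow ((ts.length + 1) * g) a ts a' ∨ ∃ a1 a2 ts1 ts2 v, ts = ts1 ++ ts2 ∧
      AP E T hi K a ts1 a1 ∧ v.1 ≠ 0 ∧ PV v a1 a2 ∧ AP E T hi K a2 ts2 a' := by
  have hN : ∀ a a', FR E hi K a a' → |a'.2.1 - a.2.1| ≤ g ∨ ∃ v, v.1 ≠ 0 ∧ PV v a a' := by
    intro a a' h
    rcases hS _ _ h with h1 | ⟨v, -, h2, h3⟩
    · exact Or.inl h1.1
    · by_cases hv : v.1 = 0
      · exact Or.inl (h3 hv)
      · exact Or.inr ⟨v, hv, h2⟩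
  induction h with
  | @free a a' h =>
    rcases hN _ _ h with h1 | ⟨v, h1, h2⟩
    · exact Or.inl ⟨by simpa using h1, by simp⟩
    · exact Or.inr ⟨a, a', [], [], v, rfl, .free (.refl h.1), h1, h2, .free (.refl h.end_in)⟩
  | @test a x x' P β ts a' h ht h' ih =>
    have e : (((((P.1, β) :: ts).length : ℕ) : ℤ) + 1) * g = (ts.length + 1) * g + g := by
      simp; ring
    rw [e]
    rcases hN _ _ h with h1 | ⟨v, h1, h2⟩
    · rcases ih with ih | ⟨a1, a2, ts1, ts2, v, rfl, k1, k2⟩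
      · exact Or.inl (ih.cons h1)
      · exact Or.inr ⟨a1, a2, _ :: ts1, ts2, v, rfl, .test h ht k1, k2⟩
    · exact Or.inr ⟨a, (x, P), [], _, v, rfl, .free (.refl h.1), h1, h2,
        .test (.refl h.end_in) ht h'⟩

/-- Every path is local, or has relocatable tests, or has two independent pumps. -/
theorem AP.tri {a ts a'} (h : AP E T hi K a ts a') {m : ℕ} (hm : ts.length ≤ m) :
    Narrow (3 * ((m + 1) * g)) a ts a' ∨
    (∃ a1 a4 ts1 ts2 ts3, ts = ts1 ++ ts2 ++ ts3 ∧ AP E T hi K a ts1 a1 ∧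
      Small ((m + 1) * g) a ts1 a1 ∧ AP E T hi K a4 ts3 a' ∧ Small ((m + 1) * g) a4 ts3 a' ∧
      ((∃ v, PV v a1 a4) ∨ ∃ a2 a3 vA vB, PV vA a1 a2 ∧ AP E T hi K a2 ts2 a3 ∧ PV vB a3 a4 ∧
        det vA vB = 0 ∧ vA.1 ≠ 0 ∧ vB.1 ≠ 0)) ∨
    (∃ a1 a2 a3 a4 ts1 ts2 ts3 vA vB, ts = ts1 ++ ts2 ++ ts3 ∧ AP E T hi K a ts1 a1 ∧
      PV vA a1 a2 ∧ AP E T hi K a2 ts2 a3 ∧ PV vB a3 a4 ∧ AP E T hi K a4 ts3 a' ∧
      Small ((m + 1) * g) a4 ts3 a' ∧ det vA vB ≠ 0) := by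
  have hle : ∀ k : ℕ, k ≤ m → ((k : ℤ) + 1) * g ≤ (m + 1) * g := fun k hk =>
    mul_le_mul_of_nonneg_right (by exact_mod_cast Nat.succ_le_succ hk) hg
  have hg' : g ≤ (m + 1) * g := by simpa using hle 0 (Nat.zero_le _)
  rcases h.last hg hS with h1 | ⟨a3, a4, ts', ts3, vB, rfl, k1, k2, k3, k4, k5, k6⟩
  · exact Or.inl (h1.1.mono (by linarith [hle _ hm]))
  have hm' : ts'.length ≤ m := by rw [List.length_append] at hm; omega
  replace k6 := k6.mono (hle _ hm)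
  by_cases hv : vB.1 = 0
  · rcases k1.narrow hS with j1 | ⟨a1, a2, ts1, ts2, vA, rfl, j1, j2, j3, j4⟩
    · have j2 : Narrow g a3 [] a4 := ⟨k4 hv, by simp⟩
      have := (j1.trans j2).trans k6.1
      rw [List.append_nil] at this
      exact Or.inl (this.mono (by linarith [hle _ hm']))
    · refine Or.inr (Or.inr ⟨a1, a2, a3, a4, ts1, ts2, ts3, vA, vB, rfl, j1, j3, j4, k3, k5, k6,
        ?_⟩)
      have : vB.2 ≠ 0 := fun h0 => k2 (Prod.ext hv h0)
      simp [det, hv, j2, this]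
  · rcases k1.first hg hS with j1 | ⟨a1, a2, ts1, ts2, vA, rfl, j1, j2, j3, j4, j5⟩
    · exact Or.inr (Or.inl ⟨a3, a4, ts', [], ts3, by simp, k1, j1.mono (hle _ hm'), k5, k6,
        Or.inl ⟨vB, k3⟩⟩)
    · by_cases hd : det vA vB = 0
      · refine Or.inr (Or.inl ⟨a1, a4, ts1, ts2, ts3, rfl, j1, j2.mono (hle _ hm'), k5, k6,
          Or.inr ⟨a2, a3, vA, vB, j4, j5, k3, hd, fun h0 => j3 (Prod.ext h0 ?_), hv⟩⟩)
        simpa [det, h0, hv] using hd
      · exact Or.inr (Or.inr ⟨a1, a2, a3, a4, ts1, ts2, ts3, vA, vB, rfl, j1, j4, j5, k3, k5, k6,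
          hd⟩)

end

end Pool.Agent.P.MP_d0a708_lc.BH
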