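import Pool.Agent.P.MP_d0a708_lc.Defs

/-!
A deterministic two-way pushdown automaton that parses the last part of the input into
root-to-leaf words of a binary tree written in heap order.
-/

namespace Pool.Agent.P.MP_d0a708_lc.BH

lemma cell_left {α : Type} {w : List α} {p : ℕ} : cell w p = Tape.left ↔ p = 0 := by
  cases p with
  | zero => simp [cell]
  | succ p =>
    simp only [cell]
    cases w[p]? <;> simp

lemma cell_right {α : Type} {w : List α} {p : ℕ} : cell w p = Tape.right ↔ w.length + 1 ≤ p := by
  cases p with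
  | zero => simp [cell]
  | succ p =>
    simp only [cell]
    cases h : w[p]? with
    | none => simpa using h
    | some x =>
      have := (List.getElem?_eq_some_iff.1 h).1
      simp
      omega

/-- States. -/
inductive St : Type
  | I | P | S | G | R | L (b : Bool) | U (b : Bool) | U' (b : Bool) | Fin
  deriving DecidableEq, Fintype

/-- Pushdown symbols. -/
inductive Sk : Type
  | Z | B (b : Bool) | X
  deriving DecidableEq, Fintype

/-- The table. -/
def δf : St → Tape (Fin 3) → Sk → Option (St × SignType × List Sk)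
  | .I, .right, g => some (.P, -1, [g])
  | .I, _, g => some (.I, 1, [g])
  | .P, .letter x, g => if x = 2 then some (.S, 0, [g]) else some (.P, -1, [.B (x = 1), g])
  | .P, _, _ => none
  | .S, _, g => if g = .Z then some (.Fin, 0, [g]) else some (.G, 0, [g])
  | .G, .left, g => some (.R, 1, [g])
  | .G, _, g => some (.G, -1, [g])
  | .R, .letter x, .B b => if x = 2 then some (.L b, 0, []) else
      if x = 1 then some (.S, 0, [.B b]) else none
  | .R, .letter x, g => if x = 1 then some (.S, 0, [g]) else none
  | .R, _, _ => none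
  | .L b, .left, g => some (.U b, 0, [g])
  | .L b, _, g => some (.L b, -1, [.X, g])
  | .U b, _, g => if g = .X then some (.U' b, 1, []) else some (.R, if b then 1 else 0, [g])
  | .U' b, _, g => some (.U b, 1, [g])
  | .Fin, _, _ => none

lemma table_subsingleton (q : St) (s : Fin 1 → Tape (Fin 3)) (g : Sk) :
    {r : St × (Fin 1 → SignType) × List Sk |
      δf q (s 0) g = some (r.1, r.2.1 0, r.2.2)}.Subsingleton := by
  rintro ⟨a, b, c⟩ h ⟨a', b', c'⟩ h'
  simp only [Set.mem_ofPred_eq] at h h'
  rw [h] at h'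
  simp only [Option.some.injEq, Prod.mk.injEq] at h' ⊢
  exact ⟨h'.1, funext fun i => by rw [Subsingleton.elim i 0]; exact h'.2.1, h'.2.2⟩

/-- The automaton. -/
def pda : HeadsPDA (Fin 3) 1 where
  Q := St
  Γ := Sk
  finQ := inferInstance
  finΓ := inferInstance
  start := .I
  bottom := .Z
  accept := {.Fin}
  δ q s g := {r | δf q (s 0) g = some (r.1, r.2.1 0, r.2.2)}
  finδ q s g := (table_subsingleton q s g).finite

lemma pda_unique (w : List (Fin 3)) : Relator.RightUnique (pda.Step w) := by
  rintro ⟨q, p, st⟩ ⟨q₁, p₁, st₁⟩ ⟨q₂, p₂, st₂⟩ ⟨g, r, m, v, h1, h2, h3, h4⟩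
    ⟨g', r', m', v', h1', h2', h3', h4'⟩
  simp only at h1 h2 h3 h4 h1' h2' h3' h4'
  rw [h1] at h1'
  obtain ⟨rfl, rfl⟩ := List.cons.inj h1'
  have h := table_subsingleton q (fun i => cell w (p i)) g h3 h3'
  simp only [Prod.mk.injEq] at h ⊢
  obtain ⟨rfl, rfl, rfl⟩ := h
  refine ⟨rfl, funext fun i => ?_, h2.trans h2'.symm⟩
  have := (h4 i).1
  have := (h4' i).1
  omega

lemma pda_det : pda.Det := fun w _ _ _ _ h1 h2 => pda_unique w h1 h2

/-- Reachability between configurations. -/
def Re (w : List (Fin 3)) (q : St) (p : ℕ) (st : List Sk) (q' : St) (p' : ℕ) (st' : List Sk) :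
    Prop :=
  Relation.ReflTransGen (pda.Step w) (q, fun _ => p, st) (q', fun _ => p', st')

variable {w : List (Fin 3)}

lemma Re.refl {q p st} : Re w q p st q p st := Relation.ReflTransGen.refl

lemma Re.trans {q p st q' p' st' q'' p'' st''} (h : Re w q p st q' p' st')
    (h' : Re w q' p' st' q'' p'' st'') : Re w q p st q'' p'' st'' :=
  Relation.ReflTransGen.trans h h'

lemma Re.step {q p g rest q' q'' p'' st''} (m : SignType) (v : List Sk) (p' : ℕ)
    (h : δf q (cell w p) g = some (q', m, v)) (h1 : (p' : ℤ) = p + (m : ℤ))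
    (h2 : p' ≤ w.length + 1) (h' : Re w q' p' (v ++ rest) q'' p'' st'') :
    Re w q p (g :: rest) q'' p'' st'' :=
  Relation.ReflTransGen.head (b := (q', fun _ => p', v ++ rest))
    ⟨g, rest, fun _ => m, v, rfl, rfl, h, fun _ => ⟨h1, h2⟩⟩ h'

/-- Binary value, most significant bit first. -/
def val : ℕ → List Bool → ℕ
  | c, [] => c
  | c, b :: cs => val (2 * c + b.toNat) cs

lemma val_inj (cs : List Bool) : ∀ (cs' : List Bool) (c c' : ℕ), cs.length = cs'.length →
    val c cs = val c' cs' → c = c' ∧ cs = cs' := by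
  induction cs with
  | nil =>
    intro cs' c c' h1 h2
    obtain rfl : cs' = [] := List.length_eq_zero_iff.1 h1.symm
    exact ⟨h2, rfl⟩
  | cons b cs ih =>
    intro cs' c c' h1 h2
    cases cs' with
    | nil => simp at h1
    | cons b' cs' =>
      obtain ⟨h3, rfl⟩ := ih cs' _ _ (by simpa using h1) h2
      cases b <;> cases b' <;> simp at h3 ⊢ <;> omega

lemma val_range (cs : List Bool) : ∀ c j, 2 ^ j ≤ c → c < 2 ^ (j + 1) →
    2 ^ (j + cs.length) ≤ val c cs ∧ val c cs < 2 ^ (j + cs.length + 1) := by
  induction cs with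
  | nil => exact fun c j h1 h2 => ⟨h1, h2⟩
  | cons b cs ih =>
    intro c j h1 h2
    have := ih (2 * c + b.toNat) (j + 1) (by rw [pow_succ]; omega)
      (by rw [pow_succ]; have := b.toNat_le; omega)
    rwa [show j + 1 + cs.length = j + (b :: cs).length by simp; omega] at this

lemma re_I (g : Sk) (rest : List Sk) (k : ℕ) : ∀ p, p + k = w.length + 1 →
    Re w .I p (g :: rest) .P w.length (g :: rest) := by
  induction k with
  | zero =>
    intro p hp
    have : cell w p = .right := cell_right.2 (by omega)
    exact .step (-1) [g] _ (by simp [δf, this]) (by simp; omega) (by omega) .refl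
  | succ k ih =>
    intro p hp
    have : cell w p ≠ .right := by
      rw [Ne, cell_right]
      omega
    refine .step 1 [g] (p + 1) ?_ (by simp) (by omega) (ih _ (by omega))
    cases h : cell w p with
    | right => exact absurd h this
    | left => rfl
    | letter x => rfl

lemma re_G (g : Sk) (rest : List Sk) (p : ℕ) (hp : p ≤ w.length + 1) :
    Re w .G p (g :: rest) .R 1 (g :: rest) := by
  induction p with
  | zero => exact .step 1 [g] 1 rfl (by simp) (by omega) .refl
  | succ p ih =>
    refine .step (-1) [g] p ?_ (by simp) (by omega) (ih (by omega))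
    cases h : cell w (p + 1) with
    | left => simp [cell_left] at h
    | right => rfl
    | letter x => rfl

lemma re_L (b : Bool) (c : ℕ) (hc : c ≤ w.length + 1) : ∀ g rest,
    Re w (.L b) c (g :: rest) (.U b) 0 (List.replicate c .X ++ g :: rest) := by
  induction c with
  | zero => exact fun g rest => .step 0 [g] 0 rfl (by simp) (by omega) .refl
  | succ c ih =>
    intro g rest
    refine .step (q' := .L b) (-1) [.X, g] c ?_ (by simp) (by omega) ?_
    · cases h : cell w (c + 1) with
      | left => simp [cell_left] at h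
      | right => rfl
      | letter x => rfl
    · rw [List.replicate_succ', List.append_assoc]
      exact ih (by omega) _ _

lemma re_U (b : Bool) {g : Sk} (hg : g ≠ .X) (rest : List Sk) (k : ℕ) : ∀ p,
    p + (2 * k + b.toNat) ≤ w.length + 1 →
    Re w (.U b) p (List.replicate k .X ++ g :: rest) .R (p + (2 * k + b.toNat)) (g :: rest) := by
  induction k with
  | zero =>
    intro p hp
    refine .step (if b then 1 else 0) [g] _ (by simp [δf, hg]) ?_ hp .refl
    cases b <;> simp
  | succ k ih =>
    intro p hp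
    refine .step 1 [] (p + 1) (by simp [δf]; rfl) (by simp) (by omega) ?_
    obtain ⟨g', r', e⟩ : ∃ g' r', List.replicate k Sk.X ++ g :: rest = g' :: r' := by
      cases k <;> exact ⟨_, _, rfl⟩
    have h := ih (p + 2) (by omega)
    rw [show p + 2 + (2 * k + b.toNat) = p + (2 * (k + 1) + b.toNat) by ring, e] at h
    change Re w _ _ (List.replicate k Sk.X ++ g :: rest) _ _ _
    rw [e]
    exact .step 1 [g'] (p + 2) (by simp [δf]) (by simp; ring) (by omega) h

/-- Letter of a bit. -/
def enc (b : Bool) : Fin 3 := if b then 1 else 0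

lemma re_P (y : List (Fin 3)) (pre : List Bool) : ∀ (suf : List Bool) g rest,
    Re (y ++ [2] ++ (pre ++ suf).map enc) .P (y.length + 1 + pre.length) (g :: rest) .S
      (y.length + 1) (pre.map .B ++ g :: rest) := by
  induction pre using List.reverseRecOn with
  | nil =>
    intro suf g rest
    exact .step 0 [g] _ (by simp [cell, δf]) (by simp) (by simp) .refl
  | append_singleton pre b ih =>
    intro suf g rest
    have h := ih (b :: suf) (.B b) (g :: rest)
    simp only [List.append_assoc, List.singleton_append, List.length_append, List.length_singleton,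
      List.map_append, List.map_cons, List.map_nil] at h ⊢
    refine .step (-1) [.B b, g] (y.length + 1 + pre.length) ?_ (by simp; ring) (by simp; omega) h
    rw [← add_assoc, cell, List.getElem?_append_right (by omega),
      show y.length + 1 + pre.length - y.length = pre.length + 1 by omega]
    cases b <;> simp [δf, enc]

section

variable {H : ℕ} {leaf : ℕ → Bool} (hy : ∀ p, 1 ≤ p → p < 2 ^ H → cell w p = .letter 2)
  (hleaf : ∀ p, 2 ^ H ≤ p → p < 2 ^ (H + 1) → cell w p = .letter (enc (leaf p)))
  (hlen : 2 ^ (H + 1) ≤ w.length)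
include hy hlen

lemma re_R (vs : List Bool) (cs : List Bool) : ∀ c j, 1 ≤ c → c < 2 ^ (j + 1) → j + cs.length = H →
    Re w .R c ((cs ++ vs).map .B ++ [.Z]) .R (val c cs) (vs.map .B ++ [.Z]) := by
  induction cs with
  | nil => exact fun c j _ _ _ => .refl
  | cons b cs ih =>
    intro c j h1 h2 h3
    simp only [List.length_cons] at h3
    have h4 : 2 ^ (j + 1) ≤ 2 ^ H := Nat.pow_le_pow_right (by norm_num) (by omega)
    have h5 := b.toNat_le
    rw [pow_succ] at hlen
    obtain ⟨g, r, e, hg⟩ : ∃ g r, (cs ++ vs).map Sk.B ++ [.Z] = g :: r ∧ g ≠ .X := by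
      cases cs ++ vs <;> exact ⟨_, _, rfl, by simp⟩
    have h6 := ih (2 * c + b.toNat) (j + 1) (by omega) (by rw [pow_succ]; omega) (by omega)
    refine .step (q' := .L b) 0 [] c (by simp [hy c h1 (by omega), δf]) (by simp) (by omega) ?_
    change Re w _ _ ((cs ++ vs).map Sk.B ++ [.Z]) _ _ _
    rw [e] at h6 ⊢
    refine (re_L b c (by omega) g r).trans (Re.trans ?_ h6)
    simpa using re_U b hg r c 0 (by omega)

include hleaf

lemma re_S (hH : 0 < H) (Ts : List (List Bool)) (hT : ∀ T ∈ Ts, T.length = H) :
    ∀ p ≤ w.length + 1, ((∀ T ∈ Ts, leaf (val 1 T) = true) →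
      ∃ p', Re w .S p (Ts.flatten.map .B ++ [.Z]) .Fin p' [.Z]) ∧
    (¬ (∀ T ∈ Ts, leaf (val 1 T) = true) →
      ∃ p' st, Re w .S p (Ts.flatten.map .B ++ [.Z]) .R p' st ∧ cell w p' = .letter 0) := by
  induction Ts with
  | nil => exact fun p hp => ⟨fun _ => ⟨p, .step 0 [.Z] p rfl (by simp) hp .refl⟩, by simp⟩
  | cons T Ts ih =>
    intro p hp
    have h1 := hT T (by simp)
    have h2 := val_range T 1 0 (by simp) (by simp)
    rw [zero_add, h1] at h2
    have h3 : Re w .S p ((T :: Ts).flatten.map .B ++ [.Z]) .R (val 1 T)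
        (Ts.flatten.map .B ++ [.Z]) := by
      have h4 := re_R hy hlen Ts.flatten T 1 0 le_rfl (by simp) (by omega)
      obtain ⟨b, T', rfl⟩ := List.exists_cons_of_length_pos (h1 ▸ hH)
      exact .step (q' := .G) 0 [.B b] p (by simp [δf]) (by simp) hp ((re_G _ _ p hp).trans h4)
    have h5 := hleaf _ h2.1 h2.2
    have h6 : leaf (val 1 T) = true → Re w .S p ((T :: Ts).flatten.map .B ++ [.Z]) .S (val 1 T)
        (Ts.flatten.map .B ++ [.Z]) := by
      intro h7
      refine h3.trans ?_
      cases Ts.flatten with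
      | nil => exact .step 0 [.Z] _ (by simp [h5, h7, enc, δf]) (by simp) (by omega) .refl
      | cons b l => exact .step 0 [.B b] _ (by simp [h5, h7, enc, δf]) (by simp) (by omega) .refl
    obtain ⟨i1, i2⟩ := ih (fun T' h => hT T' (by simp [h])) (val 1 T) (by omega)
    refine ⟨fun h => ?_, fun h => ?_⟩
    · obtain ⟨p', h7⟩ := i1 fun T' h' => h T' (by simp [h'])
      exact ⟨p', (h6 (h T (by simp))).trans h7⟩
    · cases h7 : leaf (val 1 T)
      · exact ⟨_, _, h3, by simp [h5, h7, enc]⟩
      · obtain ⟨p', st, h8, h9⟩ := i2 fun h' => h (by simpa [h7] using h')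
        exact ⟨p', st, (h6 h7).trans h8, h9⟩

end

/-- The tree part of the input. -/
def tree (H : ℕ) (leaf : ℕ → Bool) : List (Fin 3) :=
  (List.range (2 ^ (H + 1) - 1)).map fun j => if j + 1 < 2 ^ H then 2 else enc (leaf (j + 1))

/-- The input with tree `leaf` and bits `v`. -/
def word (H : ℕ) (leaf : ℕ → Bool) (v : List Bool) : List (Fin 3) := tree H leaf ++ [2] ++ v.map enc

lemma tree_length (H : ℕ) (leaf : ℕ → Bool) : (tree H leaf).length + 1 = 2 ^ (H + 1) := by
  have := Nat.one_le_two_pow (n := H + 1)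
  simp [tree]
  omega

theorem pda_spec {H : ℕ} (hH : 0 < H) (leaf : ℕ → Bool) (Ts : List (List Bool))
    (hT : ∀ T ∈ Ts, T.length = H) :
    word H leaf Ts.flatten ∈ pda.lang ↔ ∀ T ∈ Ts, leaf (val 1 T) = true := by
  set w := word H leaf Ts.flatten with hw
  have hl := tree_length H leaf
  have hlen : w.length = (tree H leaf).length + 1 + Ts.flatten.length := by
    simp only [hw, word, List.length_append, List.length_map, List.length_singleton]
  have hc : ∀ p, 1 ≤ p → p < 2 ^ (H + 1) →
      cell w p = .letter (if p < 2 ^ H then 2 else enc (leaf p)) := by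
    intro p h1 h2
    obtain ⟨j, rfl⟩ : ∃ j, p = j + 1 := ⟨p - 1, by omega⟩
    rw [cell, hw, word, List.append_assoc, List.getElem?_append_left (by omega), tree,
      List.getElem?_map, List.getElem?_range (by omega)]
    rfl
  have h0 := Nat.one_le_two_pow (n := H)
  have h1 : Re w .I 0 [.Z] .S ((tree H leaf).length + 1) (Ts.flatten.map .B ++ [.Z]) := by
    refine (re_I _ _ _ 0 (zero_add _)).trans ?_
    have := re_P (tree H leaf) Ts.flatten [] .Z []
    rwa [List.append_nil, ← hlen] at this
  obtain ⟨i1, i2⟩ := re_S (w := w) (leaf := leaf)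
    (fun p k1 k2 => by rw [hc p k1 (by rw [pow_succ]; omega), if_pos k2])
    (fun p k1 k2 => by rw [hc p (by omega) k2, if_neg (by omega)]) (by omega) hH Ts hT
    ((tree H leaf).length + 1) (by omega)
  constructor
  · rintro ⟨⟨q, p, st⟩, h2, h3⟩
    obtain rfl : q = St.Fin := h3
    by_contra h4
    obtain ⟨p', st', h5, h6⟩ := i2 h4
    rcases Relation.ReflTransGen.total_of_right_unique (pda_unique w) (h1.trans h5) h2 with h | h
    · rcases h.cases_head with h | ⟨c, ⟨g, r, m, v, -, -, h7, -⟩, -⟩
      · cases (Prod.mk.inj h).1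
      · cases g <;> simp [pda, δf, h6] at h7 <;> exact h7
    · rcases h.cases_head with h | ⟨c, ⟨g, r, m, v, -, -, h7, -⟩, -⟩
      · cases (Prod.mk.inj h).1
      · simp [pda, δf] at h7
        exact h7
  · intro h
    obtain ⟨p', h2⟩ := i1 h
    exact ⟨_, h1.trans h2, rfl⟩

end Pool.Agent.P.MP_d0a708_lc.BH
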