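import Pool.Agent.P.MP_d0a708_lc.BH.Seg
import Pool.Agent.P.MP_d0a708_lc.BH.Dav
import Pool.Agent.P.MP_d0a708_lc.BH.Count

/-!
An accepting computation on a typical input uses all but a few blocks only locally.
-/

namespace Pool.Agent.P.MP_d0a708_lc.BH

open Relation Finset

lemma rtg_seq {α : Type} {r : α → α → Prop} {a b : α} (h : ReflTransGen r a b) :
    ∃ (T : ℕ) (u : ℕ → α), u 0 = a ∧ u T = b ∧ ∀ k < T, r (u k) (u (k + 1)) := by
  induction h using ReflTransGen.head_induction_on with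
  | refl => exact ⟨0, fun _ => b, rfl, rfl, by simp⟩
  | @head a c h _ ih =>
    obtain ⟨T, u, h1, h2, h3⟩ := ih
    refine ⟨T + 1, fun k => Nat.casesOn k a u, rfl, h2, fun k hk => ?_⟩
    cases k with
    | zero => simpa [h1] using h
    | succ k => exact h3 k (by omega)

lemma bad_set {M h : ℕ} (ts : List (ℤ × Bool)) : ∃ Bad : Finset (Fin M), Bad.card ≤ ts.length ∧
    ∀ f ∉ Bad, ∀ u ∈ ts, u.1 / h ≠ (f : ℤ) := by
  refine ⟨univ.filter fun f => ∃ u ∈ ts, u.1 / h = (f : ℤ), ?_, fun f hf u hu e => hf ?_⟩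
  · refine (card_le_card_of_injOn (t := (ts.map fun u => u.1 / (h : ℤ)).toFinset)
      (fun f : Fin M => ((f : ℕ) : ℤ))
      ?_ ?_).trans ((List.toFinset_card_le _).trans (by simp))
    · intro f hf
      obtain ⟨u, hu, e⟩ := (mem_filter.1 hf).2
      exact mem_coe.2 (List.mem_toFinset.2 (List.mem_map.2 ⟨u, hu, e⟩))
    · intro f _ f' _ e
      exact Fin.ext (by simpa using e)
  · exact mem_filter.2 ⟨mem_univ _, u, hu, e⟩

variable {Q : Type} {lam L : ℕ}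

lemma div_step (hl : 0 < lam) {p p' : ℤ} (h : |p' - p| ≤ 1) : |p' / lam - p / lam| ≤ 1 := by
  have hl' : (0 : ℤ) < lam := by omega
  rw [abs_le] at h ⊢
  have h1 := Int.ediv_le_ediv hl' (show p' ≤ p + 1 * lam by omega)
  have h2 := Int.ediv_le_ediv hl' (show p ≤ p' + 1 * lam by omega)
  rw [Int.add_mul_ediv_right _ _ hl'.ne'] at h1 h2
  omega

lemma abs_step (hl : 0 < lam) {a a' : Q × ℤ × ℤ} (h1 : |a'.2.1 - a.2.1| ≤ 1)
    (h2 : |a'.2.2 - a.2.2| ≤ 1) : Bd 1 ((abs lam L a').2 - (abs lam L a).2) :=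
  ⟨div_step hl h1, h2⟩

lemma reg_of_in (hl : 0 < lam) {hi : ℤ × ℤ} {K : ℤ} (hK : 1 ≤ K) {a : Q × ℤ × ℤ}
    (h : In hi K (abs lam L a).2) : Reg lam hi a := by
  have hl' : (0 : ℤ) < lam := by omega
  obtain ⟨h1, h2, h3, h4⟩ := h
  simp only [abs] at h1 h2 h3 h4
  refine ⟨?_, ?_, by omega, by omega⟩
  · by_contra h5
    have := Int.ediv_neg_of_neg_of_pos (not_le.1 h5) hl'
    omega
  · exact (Int.ediv_lt_iff_lt_mul hl').1 (by omega)

theorem perV [DecidableEq Q] [Fintype Q] {int : Q → Bool → Q → ℤ → ℤ → Prop} {s : Bool → ℤ → Bool}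
    (hl : 0 < lam) (hint : ∀ q x q' dp dc, int q x q' dp dc → |dp| ≤ 1 ∧ |dc| ≤ 1)
    (hUn : ∀ u v : Q × Fin (lam + 2), (pos u = 0 ∨ pos u = lam - 1) →
      (pos v = -1 ∨ pos v = lam) → ∀ β n w Y, Tour (LE int lam (s β)) n u v w Y → ∀ ε : ℤ,
      (ε = 1 ∨ ε = -1) → ∃ a g : ℤ, |a| ≤ L ∧ 0 ≤ g ∧ g ≤ L ∧
        (∀ β', PS (LE int lam (s β')) L u v a (ε * g)) ∧ (g = 0 → ε * w.2 ≤ ε * a))
    {M W h κ m Θ W2 μ c7 Z : ℕ} {hi : ℤ × ℤ} {K g G : ℤ} {b : ℤ → Bool} (hm : m = 4 * L + 2)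
    (hh : 0 < h) (hW : hi.1 = W) (hg : 0 ≤ g) (hT : TS W h κ m b) (hκ : 0 < κ)
    (hG : G = (m + 1) * g) (hΘ : 2 * Ks h κ m * W2 ≤ Θ) (hK : (Θ * W2 : ℤ) < K - g)
    (hμ : 0 < μ) (hΘ' : 4 * (μ * W2) ≤ Θ) (hK1 : K + (16 * L + 5) + 1 + G ≤ c7 * μ)
    (hZ1 : hi.1 ≤ Z) (hZ2 : hi.2 ≤ Z)
    (hS : ∀ a a', FR (Ed int lam s L none) hi K a a' → Bd g (a'.2 - a.2) ∨
      ∃ v, v ≠ 0 ∧ PV (Ed int lam s L none) hi (K - g) Θ W2 v a a' ∧
        (v.1 = 0 → |a'.2.1 - a.2.1| ≤ g))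
    {P : Fin M → Vx Q lam L × ℤ × ℤ → Prop} {Pacc : Fin M → Prop}
    (hU : ∀ (f : Fin M) A ts A', AP (Ed int lam s L none) (Tt int lam s L) hi (K - g - Θ * W2) A ts A' →
      (∀ u ∈ ts, b u.1 = u.2) → (∀ u ∈ ts, u.1 / h ≠ (f : ℤ)) → P f A → P f A')
    (hI : ∀ (f : Fin M) A ts A', AP (Ed int lam s L none) (Tt int lam s L) hi (K - g - Θ * W2) A ts A' →
      (∀ u ∈ ts, b u.1 = u.2) →
      (∀ u ∈ ts, (f : ℤ) * h - 6 * G ≤ u.1 ∧ u.1 < (f : ℤ) * h + h + 6 * G) →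
      ((f : ℤ) * h - 6 * G ≤ A.2.1 ∧ A.2.1 < (f : ℤ) * h + h + 6 * G) →
      ((f : ℤ) * h - 6 * G ≤ A'.2.1 ∧ A'.2.1 < (f : ℤ) * h + h + 6 * G) →
      ¬ In hi (K + (16 * L + 5) + 1 + G) A.2 → ¬ In hi (K + (16 * L + 5) + 1 + G) A'.2 →
      P f A → P f A')
    {St : Q × ℤ × ℤ → Q × ℤ × ℤ → Prop} {a0 aT : Q × ℤ × ℤ}
    (S1 : ∀ a a', St a a' → |a'.2.1 - a.2.1| ≤ 1 ∧ |a'.2.2 - a.2.2| ≤ 1)
    (S3 : ∀ a a', Reg lam hi a → Reg lam hi a' → St a a' → IS int lam s b a a')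
    (hstep : ∀ f a a', ReflTransGen St a0 a → St a a' →
      ¬ In hi (K + (16 * L + 5) + 1) (abs lam L a).2 →
      ¬ In hi (K + (16 * L + 5) + 1) (abs lam L a').2 → P f (abs lam L a) → P f (abs lam L a'))
    (h0 : a0.2.1 < 0) (hacc : ∀ f, P f (abs lam L aT) → Pacc f) (hrun : ReflTransGen St a0 aT) :
    ∃ Bad : Finset (Fin M), Bad.card ≤ 2 * m * ((2 * Ks h κ m) ^ 2 ^ m *
      (Fintype.card (Vx Q lam L) * ((2 * W2 + 1) ^ 4 * ((2 * (W2 * W2)) ^ 2 *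
        (4 * (c7 + 1) * (Z / μ + 1) * ((m + 1) * 2 ^ m))))) + 1) ∧
      ∀ f ∉ Bad, P f (abs lam L a0) → Pacc f := by
  classical
  obtain ⟨T, u, u0, uT, hu⟩ := rtg_seq hrun
  set K0 := K + (16 * L + 5) with hK0
  have hΘ0 : (0 : ℤ) ≤ Θ * W2 := by positivity
  have hre : ∀ k ≤ T, ReflTransGen St a0 (u k) := by
    intro k hk
    induction k with
    | zero => rw [u0]
    | succ k ih => exact (ih (by omega)).tail (hu k hk)
  set Out : ℕ → Prop := fun k => ¬ In hi K0 (abs lam L (u k)).2 with hOut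
  have hnear : ∀ k < T, Out k ∨ Out (k + 1) →
      ¬ In hi (K0 + 1) (abs lam L (u k)).2 ∧ ¬ In hi (K0 + 1) (abs lam L (u (k + 1))).2 := by
    intro k hk ho
    have hb := abs_step (L := L) hl (S1 _ _ (hu k hk)).1 (S1 _ _ (hu k hk)).2
    rcases ho with ho | ho
    · exact ⟨fun h => ho (h.mono (by omega)), fun h => ho (by simpa using h.add hb.neg)⟩
    · exact ⟨fun h => ho (by simpa using h.add hb), fun h => ho (h.mono (by omega))⟩
  have hsingle : ∀ k < T, Out k ∨ Out (k + 1) → ∀ f, P f (abs lam L (u k)) →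
      P f (abs lam L (u (k + 1))) := fun k hk ho f =>
    hstep f _ _ (hre k hk.le) (hu k hk) (hnear k hk ho).1 (hnear k hk ho).2
  set Ind : ℕ → Prop := fun a => ∃ e d, a < e ∧ e < T ∧ Out a ∧ Out (e + 1) ∧
    IsInd (Ed int lam s L none) (Tt int lam s L) hi K g (K0 + 1 + G) Θ W2 m b
      (abs lam L (u (a + 1))) (abs lam L (u e)) d with hInd
  haveI : Nonempty (ID (Vx Q lam L)) :=
    ⟨⟨abs lam L a0, abs lam L a0, abs lam L a0, abs lam L a0, [], [], [], 0, 0⟩⟩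
  have hch : ∀ a, Ind a → ∃ e d, a < e ∧ e < T ∧ Out a ∧ Out (e + 1) ∧
    IsInd (Ed int lam s L none) (Tt int lam s L) hi K g (K0 + 1 + G) Θ W2 m b
      (abs lam L (u (a + 1))) (abs lam L (u e)) d := fun _ h => h
  choose! e d k1 k2 k3 k4 k5 using hch
  obtain ⟨Vis, v1, v2, Bad, v3, v4⟩ := route T (2 * m) (fun f k => P f (abs lam L (u k))) Pacc
    Out Ind (fun a => e a + 1) (fun a a' => Short μ m Θ b (d a) (d a')) (by
      intro a ha ho
      rcases ha.eq_or_lt with rfl | ha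
      · exact Or.inr (Or.inl ⟨∅, by simp, fun f _ => uT ▸ hacc f⟩)
      by_cases ho' : Out (a + 1)
      · exact Or.inl ⟨a + 1, by omega, ha, ho', hsingle a ha (Or.inl ho)⟩
      have hex : ∃ k, a + 1 ≤ k ∧ (k = T ∨ Out (k + 1)) := ⟨T, ha, Or.inl rfl⟩
      have j1 := Nat.find_spec hex
      have j2 : Nat.find hex ≤ T := Nat.find_min' hex ⟨ha, Or.inl rfl⟩
      have j3 : ∀ k, a + 1 ≤ k → k ≤ Nat.find hex → In hi K0 (abs lam L (u k)).2 ∧ ReflTransGen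
          (fun u v => IS int lam s b u v ∧ In hi K0 (abs lam L v).2) (u (a + 1)) (u k) := by
        intro k hk
        induction k, hk using Nat.le_induction with
        | base => exact fun _ => ⟨not_not.1 ho', .refl⟩
        | succ k hk ih =>
          intro hk'
          obtain ⟨i1, i2⟩ := ih (by omega)
          have i3 : In hi K0 (abs lam L (u (k + 1))).2 := by
            by_contra i4
            exact Nat.find_min hex (show k < Nat.find hex by omega) ⟨hk, Or.inr i4⟩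
          exact ⟨i3, i2.tail ⟨S3 _ _ (reg_of_in hl (by omega) i1) (reg_of_in hl (by omega) i3)
            (hu k (by omega)), i3⟩⟩
      obtain ⟨ts, t1, t2, t3⟩ := davenport hl hint hUn (not_not.1 ho') (j3 _ j1.1 le_rfl).2
      replace t3 := t3.mono (K' := K) (by omega)
      rcases j2.eq_or_lt with j4 | j4
      · obtain ⟨Bad, b1, b2⟩ := bad_set (M := M) (h := h) ts
        refine Or.inr (Or.inl ⟨Bad, by omega, fun f hf hp => hacc f ?_⟩)
        rw [← uT, ← j4]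
        exact hU f _ _ _ (t3.mono (by linarith)) t2 (b2 f hf) (hsingle a ha (Or.inl ho) f hp)
      · have j5 := j1.2.resolve_left j4.ne
        rcases seg hh hW hg hU hI hT hκ hG hΘ (by linarith) hS t3 t2 (by omega)
          (hnear a ha (Or.inl ho)).2 (hnear _ j4 (Or.inr j5)).1 with j6 | ⟨d, j6⟩
        · exact Or.inl ⟨_ + 1, by have := j1.1; omega, j4, j5, fun f hp =>
            hsingle _ j4 (Or.inr j5) f (j6 f (hsingle a ha (Or.inl ho) f hp))⟩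
        · exact Or.inr (Or.inr ⟨_, d, j1.1, j4, ho, j5, j6⟩))
    (fun a ha => ⟨by have := k1 a ha; omega, k2 a ha, k4 a ha, (k5 a ha).short⟩)
    (by
      intro a a' ha ha' hs
      obtain ⟨ts, t1, t2, t3⟩ := hs.path hg (k5 a ha) (k5 a' ha')
      obtain ⟨Bad, b1, b2⟩ := bad_set (M := M) (h := h) ts
      exact ⟨Bad, by omega, fun f hf hp => hsingle _ (k2 a' ha') (Or.inr (k4 a' ha')) f
        (hU f _ _ _ t3 t2 (b2 f hf)
          (hsingle a ((k1 a ha).trans (k2 a ha)) (Or.inl (k3 a ha)) f hp))⟩)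
    T 0 (Nat.zero_le _) (by omega) (by
      intro h1
      have := (reg_of_in hl (by omega) h1).1
      rw [u0] at this
      omega)
  refine ⟨Bad, v3.trans (Nat.mul_le_mul_left _ (Nat.succ_le_succ ?_)), by simpa [u0] using v4⟩
  exact vis_card hT hh hκ hW hμ hΘ' (by linarith) hK1 hZ1 hZ2 Vis d
    (fun i hi => ⟨_, _, k5 i (v1 i hi).1⟩) v2

end Pool.Agent.P.MP_d0a708_lc.BH
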