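import Pool.Agent.P.MP_d0a708_lc.BH.Tour

/-!
A two-sided pumping lemma for walks that stay inside a rectangle.
-/

namespace Pool.Agent.P.MP_d0a708_lc.BH

open Relation

/-- `P` lies in the rectangle with corners `0` and `hi`, at depth at least `K`. -/
def In (hi : ℤ × ℤ) (K : ℤ) (P : ℤ × ℤ) : Prop :=
  K ≤ P.1 ∧ P.1 + K ≤ hi.1 ∧ K ≤ P.2 ∧ P.2 + K ≤ hi.2

lemma In.mono {hi K K' P} (h : In hi K P) (h' : K' ≤ K) : In hi K' P := by
  unfold In at *; omega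

lemma In.add {hi K P k t} (h : In hi K P) (ht : Bd k t) : In hi (K - k) (P + t) := by
  obtain ⟨h1, h2⟩ := ht
  rw [abs_le] at h1 h2
  unfold In at *
  simp only [Prod.fst_add, Prod.snd_add]
  omega

lemma In.between {hi K P v} {A : ℕ} (h : In hi K P) (h' : In hi K (P + ((A + 1 : ℕ) : ℤ) • v)) :
    In hi K (P + v) := by
  unfold In at *
  simp only [Prod.fst_add, Prod.snd_add, Prod.smul_fst, Prod.smul_snd, smul_eq_mul] at *
  push_cast at h'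
  have hA : (0 : ℤ) ≤ A := by positivity
  refine ⟨?_, ?_, ?_, ?_⟩
  · rcases le_total 0 v.1 with h2 | h2 <;> nlinarith
  · rcases le_total 0 v.1 with h2 | h2 <;> nlinarith
  · rcases le_total 0 v.2 with h2 | h2 <;> nlinarith
  · rcases le_total 0 v.2 with h2 | h2 <;> nlinarith

lemma rtg_lift {α β : Type} {r : α → α → Prop} {p : β → β → Prop} (f : α → β) {a b : α}
    (h : ReflTransGen r a b) (hf : ∀ u v, r u v → p (f u) (f v)) : ReflTransGen p (f a) (f b) := by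
  induction h with
  | refl => exact .refl
  | tail _ h ih => exact ih.tail (hf _ _ h)

lemma rtg_mono {α : Type} {r p : α → α → Prop} {a b : α}
    (h : ReflTransGen r a b) (hf : ∀ u v, r u v → p u v) : ReflTransGen p a b :=
  rtg_lift id h hf

lemma crossing {α : Type} {r : α → α → Prop} {p : α → Prop} {a b : α} (h : ReflTransGen r a b)
    (ha : p a) (hb : ¬ p b) :
    ∃ a1 a2, ReflTransGen r a a1 ∧ r a1 a2 ∧ ReflTransGen r a2 b ∧ p a1 ∧ ¬ p a2 := by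
  induction h with
  | refl => exact absurd ha hb
  | @tail b c h1 h2 ih =>
    by_cases hb' : p b
    · exact ⟨b, c, h1, h2, .refl, hb', hb⟩
    · obtain ⟨a1, a2, k1, k2, k3, k4⟩ := ih hb'
      exact ⟨a1, a2, k1, k2, k3.tail h2, k4⟩

variable {X : Type}

/-- A free run inside the rectangle. -/
def FR (E : X → X → ℤ × ℤ → Prop) (hi : ℤ × ℤ) (K : ℤ) (a a' : X × ℤ × ℤ) : Prop :=
  In hi K a.2 ∧ ReflTransGen (fun u v : X × ℤ × ℤ => E u.1 v.1 (v.2 - u.2) ∧ In hi K v.2) a a'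

variable {E : X → X → ℤ × ℤ → Prop} {hi : ℤ × ℤ}

lemma FR.refl {K} {a : X × ℤ × ℤ} (h : In hi K a.2) : FR E hi K a a := ⟨h, .refl⟩

lemma FR.trans {K} {a b c : X × ℤ × ℤ} (h : FR E hi K a b) (h' : FR E hi K b c) :
    FR E hi K a c := ⟨h.1, h.2.trans h'.2⟩

lemma FR.single {K} {a b : X × ℤ × ℤ} (ha : In hi K a.2) (hb : In hi K b.2)
    (h : E a.1 b.1 (b.2 - a.2)) : FR E hi K a b := ⟨ha, .single ⟨h, hb⟩⟩

lemma FR.end_in {K} {a b : X × ℤ × ℤ} (h : FR E hi K a b) : In hi K b.2 := by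
  obtain ⟨h1, h2⟩ := h
  induction h2 with
  | refl => exact h1
  | tail _ h _ => exact h.2

lemma FR.mono {K K'} {a b : X × ℤ × ℤ} (h : FR E hi K a b) (h' : K' ≤ K) : FR E hi K' a b :=
  ⟨h.1.mono h', rtg_mono h.2 fun _ _ k => ⟨k.1, k.2.mono h'⟩⟩

lemma FR.shift {K k} {a b : X × ℤ × ℤ} (h : FR E hi K a b) {t} (ht : Bd k t) :
    FR E hi (K - k) (a.1, a.2 + t) (b.1, b.2 + t) := by
  refine ⟨h.1.add ht, ?_⟩
  refine rtg_lift (fun u : X × ℤ × ℤ => (u.1, u.2 + t)) h.2 (fun u v k => ⟨?_, ?_⟩)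
  · simpa using k.1
  · exact k.2.add ht

lemma FR.cross {K} {a b : X × ℤ × ℤ} (h : FR E hi K a b) {p : X × ℤ × ℤ → Prop} (ha : p a)
    (hb : ¬ p b) : ∃ a1 a2, FR E hi K a a1 ∧ E a1.1 a2.1 (a2.2 - a1.2) ∧ FR E hi K a1 a2 ∧
      FR E hi K a2 b ∧ p a1 ∧ ¬ p a2 := by
  obtain ⟨a1, a2, k1, k2, k3, k4⟩ := crossing h.2 ha hb
  have h1 : FR E hi K a a1 := ⟨h.1, k1⟩
  exact ⟨a1, a2, h1, k2.1, FR.single h1.end_in k2.2 k2.1, ⟨k2.2, k3⟩, k4⟩

variable [DecidableEq X]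

lemma FR.tour {K} {a b : X × ℤ × ℤ} (h : FR E hi K a b) :
    ∃ n Y, Tour E n a.1 b.1 (b.2 - a.2) Y := by
  obtain ⟨-, h⟩ := h
  induction h using ReflTransGen.head_induction_on with
  | refl => exact ⟨0, _, by simpa using Tour.nil b.1⟩
  | head h1 _ ih =>
    obtain ⟨n, Y, ih⟩ := ih
    have := Tour.cons h1.1 ih
    rw [sub_add_sub_cancel'] at this
    exact ⟨_, _, this⟩

variable {Ω : ℕ} (hE : ∀ x y d, E x y d → Bd Ω d)
include hE

lemma Tour.fr {n x y s Y} (h : Tour E n x y s Y) : ∀ {K P}, In hi K P →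
    FR E hi (K - n * Ω) (x, P) (y, P + s) := by
  induction h with
  | nil x => exact fun h => by simpa using FR.refl h
  | @cons n x x1 y d s Y e _ ih =>
    intro K P h
    have h1 := h.add (hE _ _ _ e)
    have h2 := ih h1
    have hn : (0 : ℤ) ≤ n * Ω := by positivity
    rw [show K - ↑Ω - ↑n * ↑Ω = K - ↑(n + 1) * ↑Ω by push_cast; ring, add_assoc] at h2
    refine FR.trans (FR.single (h.mono ?_) h2.1 (by simpa using e)) h2
    push_cast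
    have : (0 : ℤ) ≤ Ω := by positivity
    linarith

lemma Tour.loop {k z v Y} (h : Tour E k z z v Y) {K} (A : ℕ) : ∀ {P}, In hi K P →
    In hi K (P + (A : ℤ) • v) → FR E hi (K - k * Ω) (z, P) (z, P + (A : ℤ) • v) := by
  have hn : (0 : ℤ) ≤ k * Ω := by positivity
  induction A with
  | zero => exact fun h _ => by simpa using FR.refl (h.mono (by linarith))
  | succ A ih =>
    intro P h1 h2
    have e : P + ((A + 1 : ℕ) : ℤ) • v = P + v + (A : ℤ) • v := by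
      push_cast; rw [add_smul, one_smul]; abel
    have h3 := h1.between h2
    rw [e] at h2 ⊢
    exact (h.fr hE h1).trans (ih h3 h2)

lemma Tour.oneleg {N n x y b Y} (h : Tour E n x y b Y) {p} (hp : Avail E N Y p) {K P} (A : ℕ)
    (h1 : In hi K P) (h2 : In hi K (P + b + (A : ℤ) • p)) :
    FR E hi (K - (2 * n + N) * Ω) (x, P) (y, P + b + (A : ℤ) • p) := by
  obtain ⟨z, hz, k, hk, Y', hc⟩ := hp
  obtain ⟨n1, n2, s1, s2, Y1, Y2, k1, k2, rfl, rfl, rfl⟩ := h.split hz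
  have hΩ : (0 : ℤ) ≤ Ω := by positivity
  have hk' : (k : ℤ) * Ω ≤ N * Ω := mul_le_mul_of_nonneg_right (by exact_mod_cast hk) hΩ
  have hn1 : (0 : ℤ) ≤ n1 * Ω := by positivity
  have hn2 : (0 : ℤ) ≤ n2 * Ω := by positivity
  have hk0 : (0 : ℤ) ≤ k * Ω := by positivity
  have j1 := k1.fr hE h1
  have j2 : In hi (K - n2 * Ω) (P + s1 + (A : ℤ) • p) := by
    have := h2.add (k2.bd hE).neg
    rwa [show P + (s1 + s2) + (A : ℤ) • p + -s2 = P + s1 + (A : ℤ) • p by abel] at this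
  have j3 := hc.loop hE (K := K - (n1 * Ω + n2 * Ω)) A (j1.end_in.mono (by linarith))
    (j2.mono (by linarith))
  have j4 := k2.fr hE j2
  rw [show P + s1 + (A : ℤ) • p + s2 = P + (s1 + s2) + (A : ℤ) • p by abel] at j4
  refine ((j1.mono ?_).trans (j3.mono ?_)).trans (j4.mono ?_) <;> push_cast <;> nlinarith

lemma Tour.twoleg {N n x y b Y} (h : Tour E n x y b Y) {p q} (hp : Avail E N Y p)
    (hq : Avail E N Y q) {K P} (A B T : ℕ) (hT : A ≤ T ∨ B ≤ T)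
    (h1 : In hi K P) (h2 : In hi K (P + (b + (A : ℤ) • p + (B : ℤ) • q))) :
    FR E hi (K - (2 * (n + N * T) + N) * Ω) (x, P) (y, P + (b + (A : ℤ) • p + (B : ℤ) • q)) := by
  have hΩ : (0 : ℤ) ≤ Ω := by positivity
  rcases hT with hT | hT
  · obtain ⟨n', Y', k1, k2, k3⟩ := h.insert_mul hp A
    rw [← add_assoc] at h2 ⊢
    refine (k1.oneleg hE (hq.mono k3) B h1 h2).mono ?_
    have : n' ≤ n + N * T := k2.trans (by have := Nat.mul_le_mul_left N hT; omega)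
    have : (n' : ℤ) ≤ n + N * T := by exact_mod_cast this
    nlinarith
  · obtain ⟨n', Y', k1, k2, k3⟩ := h.insert_mul hq B
    rw [show P + (b + (A : ℤ) • p + (B : ℤ) • q) = P + (b + (B : ℤ) • q) + (A : ℤ) • p by abel]
      at h2 ⊢
    refine (k1.oneleg hE (hp.mono k3) A h1 h2).mono ?_
    have : n' ≤ n + N * T := k2.trans (by have := Nat.mul_le_mul_left N hT; omega)
    have : (n' : ℤ) ≤ n + N * T := by exact_mod_cast this
    nlinarith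

omit hE in
lemma Tour.pow {n x b Y} (h : Tour E n x x b Y) (k : ℕ) :
    Tour E ((k + 1) * n) x x (((k + 1 : ℕ) : ℤ) • b) Y := by
  induction k with
  | zero => simpa using h
  | succ k ih =>
    have := ih.append h
    rw [Finset.union_self] at this
    convert this using 1
    · ring
    · push_cast; simp only [add_smul, one_smul]

lemma closed_sub [Fintype X] (l : ℤ × ℤ →+ ℤ) (hl : ∀ K v, Bd K v → |l v| ≤ K) {T : ℤ} (hT : 0 < T)
    {K} {a a' : X × ℤ × ℤ} (k : ℕ) : ∀ (Y : Finset X) (a1 : X × ℤ × ℤ), FR E hi K a a1 →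
    FR E hi K a1 a' →
    (∀ z ∈ Y, ∃ Q, FR E hi K a (z, Q) ∧ FR E hi K (z, Q) a1 ∧ T ≤ l (a1.2 - Q)) →
    Fintype.card X ≤ Y.card + k → k * (T + Ω) ≤ l (a'.2 - a1.2) →
    ∃ z Q Q', FR E hi K a (z, Q) ∧ FR E hi K (z, Q) (z, Q') ∧ FR E hi K (z, Q') a' ∧
      T ≤ l (Q' - Q) := by
  induction k with
  | zero =>
    intro Y a1 h1 h2 hY hc _
    have : Y = Finset.univ := Finset.eq_univ_of_card _ (le_antisymm (Finset.card_le_univ _) hc)
    obtain ⟨Q, k1, k2, k3⟩ := hY a1.1 (this ▸ Finset.mem_univ _)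
    exact ⟨a1.1, Q, a1.2, k1, k2, h2, k3⟩
  | succ k ih =>
    intro Y a1 h1 h2 hY hc hk
    by_cases hx : a1.1 ∈ Y
    · obtain ⟨Q, k1, k2, k3⟩ := hY a1.1 hx
      exact ⟨a1.1, Q, a1.2, k1, k2, h2, k3⟩
    · have hΩ : (0 : ℤ) ≤ Ω := by positivity
      have hk0 : (0 : ℤ) ≤ k * (T + Ω) := by positivity
      push_cast at hk
      obtain ⟨u1, u2, k1, k2, k3, k4, k5, k6⟩ := h2.cross (p := fun u => l (u.2 - a1.2) < T)
        (by simpa using hT) (by simp only [not_lt]; linarith)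
      simp only [not_lt] at k6
      have k7 := (abs_le.1 (hl _ _ (hE _ _ _ k2))).2
      simp only [map_sub] at *
      refine ih (insert a1.1 Y) u2 (h1.trans (k1.trans k3)) k4 ?_ ?_ (by linarith)
      · intro z hz
        rcases Finset.mem_insert.1 hz with rfl | hz
        · exact ⟨a1.2, h1, k1.trans k3, k6⟩
        · obtain ⟨Q, j1, j2, j3⟩ := hY z hz
          exact ⟨Q, j1, j2.trans (k1.trans k3), by linarith⟩
      · rw [Finset.card_insert_of_notMem hx]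
        omega

omit hE in
lemma cramer (p q w : ℤ × ℤ) : (det p q * det p q) • w =
    (det p q * det w q) • p + (det p q * det p w) • q := by
  ext <;> simp [det] <;> ring

lemma mid [Fintype X] (hΩ : 1 ≤ Ω) : ∃ L1 c : ℕ, ∀ (l : ℤ × ℤ →+ ℤ), (∀ K v, Bd K v → |l v| ≤ K) →
    ∀ (Θ : ℕ), 1 ≤ Θ → ∀ hi K x Q Q', FR E hi K (x, Q) (x, Q') → c * Θ ≤ l (Q' - Q) →
    ∃ a1 n1 b1 Y1 p q, ∃ m1 m2 : ℕ, FR E hi K (x, Q) a1 ∧ Tour E n1 a1.1 x b1 Y1 ∧ n1 ≤ L1 ∧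
      Avail E (Fintype.card X) Y1 p ∧ Avail E (Fintype.card X) Y1 q ∧
      Q' = a1.2 + (b1 + (m1 : ℤ) • p + (m2 : ℤ) • q) ∧ (m1 ≤ c * Θ ∨ m2 ≤ c * Θ) ∧
      ((l p ≠ 0 ∧ Θ ≤ m1) ∨ (l q ≠ 0 ∧ Θ ≤ m2)) := by
  obtain ⟨L, hL⟩ := nf hΩ hE
  set N := Fintype.card X with hN
  obtain ⟨K2, hK2⟩ : ∃ K2 : ℕ, K2 = N * Ω := ⟨_, rfl⟩
  obtain ⟨Dm, hDm⟩ : ∃ Dm : ℕ, Dm = 2 * (K2 * K2) := ⟨_, rfl⟩
  obtain ⟨L1, hL1⟩ : ∃ L1 : ℕ, L1 = L + 2 * (N * (Dm * Dm)) + Dm * Dm * L + 1 := ⟨_, rfl⟩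
  obtain ⟨c2, hc2⟩ : ∃ c2 : ℕ, c2 = Dm * (2 * (L1 * Ω * K2)) := ⟨_, rfl⟩
  obtain ⟨c1, hc1⟩ : ∃ c1 : ℕ, c1 = Dm * Dm + 3 * c2 := ⟨_, rfl⟩
  refine ⟨L1, L * Ω + c1 * K2 + K2 + 1 + c1, ?_⟩
  intro l hl Θ hΘ hi K x Q Q' h hs
  have hav : ∀ Y v, Avail E N Y v → Bd K2 v := fun Y v hv => by
    have := hv.bd hE (by positivity)
    simpa [hK2] using this
  have hN1 : 1 ≤ N := Fintype.card_pos_iff.2 ⟨x⟩
  have hK21 : 1 ≤ K2 := hK2 ▸ Nat.mul_pos hN1 hΩ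
  have hΩ' : (1 : ℤ) ≤ Ω := by exact_mod_cast hΩ
  have hΘ' : (1 : ℤ) ≤ Θ := by exact_mod_cast hΘ
  have hK2' : (1 : ℤ) ≤ K2 := by exact_mod_cast hK21
  obtain ⟨n, Y, ht⟩ := h.tour
  obtain ⟨n0, b, Y0, p, q, A, B, h0, hn0, hp, hq, hsum, hdet⟩ := hL _ _ _ _ _ ht
  simp only at hsum h0
  have hb : Bd (L * Ω) b := (h0.bd hE).mono
    (mul_le_mul_of_nonneg_right (by exact_mod_cast hn0) (by positivity))
  have hlb := (abs_le.1 (hl _ _ hb)).2
  have hlp := abs_le.1 (hl _ _ (hav _ _ hp))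
  have hlq := abs_le.1 (hl _ _ (hav _ _ hq))
  have hls : l (Q' - Q) = l b + A * l p + B * l q := by
    simp only [hsum, map_add, map_zsmul, smul_eq_mul]
  have hcm : c1 * Θ ≤ (L * Ω + c1 * K2 + K2 + 1 + c1) * Θ := Nat.mul_le_mul_right _ (by omega)
  have hs' : (L * Ω + c1 * Θ * K2 + Θ * K2 + 1 : ℤ) ≤ l b + A * l p + B * l q := by
    rw [← hls]
    refine le_trans ?_ hs
    push_cast
    have : (0 : ℤ) ≤ L * Ω := by positivity
    have : (0 : ℤ) ≤ c1 * Θ := by positivity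
    nlinarith
  have hQ' : Q' = Q + (b + (A : ℤ) • p + (B : ℤ) • q) := by rw [← hsum]; abel
  have small : ∀ (A B : ℕ) (u v : ℤ), u ≤ K2 → v ≤ K2 → B ≤ c1 * Θ →
      (L * Ω + c1 * Θ * K2 + Θ * K2 + 1 : ℤ) ≤ l b + A * u + B * v → u ≠ 0 ∧ Θ ≤ A := by
    intro A B u v hu hv hB hh
    have hB' : (B : ℤ) ≤ c1 * Θ := by exact_mod_cast hB
    have h1 : (B : ℤ) * v ≤ c1 * Θ * K2 := by
      have : (B : ℤ) * v ≤ B * K2 := mul_le_mul_of_nonneg_left hv (by positivity)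
      nlinarith
    have h2 : (Θ : ℤ) * K2 + 1 ≤ A * u := by linarith
    have h3 : (A : ℤ) * u ≤ A * K2 := mul_le_mul_of_nonneg_left hu (by positivity)
    refine ⟨?_, ?_⟩
    · rintro rfl
      have : (0 : ℤ) ≤ Θ * K2 := by positivity
      simp at h2
      linarith
    · have : (Θ : ℤ) ≤ A := by nlinarith
      exact_mod_cast this
  by_cases hA : A ≤ c1 * Θ
  · exact ⟨(x, Q), n0, b, Y0, p, q, A, B, FR.refl h.1, h0, by omega, hp, hq, hQ',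
      Or.inl (hA.trans hcm), Or.inr (small B A _ _ hlq.2 hlp.2 hA (by linarith))⟩
  by_cases hB : B ≤ c1 * Θ
  · exact ⟨(x, Q), n0, b, Y0, p, q, A, B, FR.refl h.1, h0, by omega, hp, hq, hQ',
      Or.inr (hB.trans hcm), Or.inl (small A B _ _ hlp.2 hlq.2 hB hs')⟩
  have hD : det p q ≠ 0 := hdet.resolve_right (by omega)
  have hDb : |det p q| ≤ Dm := by
    have := det_bd (hav _ _ hp) (hav _ _ hq)
    simpa [hDm] using this
  obtain ⟨d, hd⟩ : ∃ d : ℕ, (d : ℤ) = det p q * det p q :=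
    ⟨(det p q * det p q).toNat, Int.toNat_of_nonneg (mul_self_nonneg _)⟩
  have hd1 : (1 : ℤ) ≤ d := by rw [hd]; exact mul_self_pos.2 hD
  have hd2 : (d : ℤ) ≤ Dm * Dm := by
    rw [hd, ← abs_mul_abs_self]
    exact mul_le_mul hDb hDb (abs_nonneg _) (by positivity)
  have hd1' : 1 ≤ d := by exact_mod_cast hd1
  have hd2' : d ≤ Dm * Dm := by exact_mod_cast hd2
  obtain ⟨f1, hf1⟩ : ∃ f1 : ℤ × ℤ → ℤ, ∀ r, f1 r = det p q * det r q := ⟨_, fun _ => rfl⟩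
  obtain ⟨f2, hf2⟩ : ∃ f2 : ℤ × ℤ → ℤ, ∀ r, f2 r = det p q * det p r := ⟨_, fun _ => rfl⟩
  have hfb : ∀ v, Bd (L1 * Ω) v → |f1 v| ≤ c2 ∧ |f2 v| ≤ c2 := by
    intro v hv
    rw [hf1, hf2, abs_mul, abs_mul, hc2]
    push_cast
    refine ⟨mul_le_mul hDb (det_bd hv (hav _ _ hq)) (abs_nonneg _) (by positivity),
      mul_le_mul hDb ?_ (abs_nonneg _) (by positivity)⟩
    rw [mul_comm (_ * _ : ℤ)]
    exact det_bd (hav _ _ hp) hv
  have hL1' : (L : ℤ) * Ω ≤ L1 * Ω :=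
    mul_le_mul_of_nonneg_right (by exact_mod_cast (by omega : L ≤ L1)) (by positivity)
  have hL1'' : (Ω : ℤ) ≤ L1 * Ω :=
    le_mul_of_one_le_left (by positivity) (by exact_mod_cast (by omega : 1 ≤ L1))
  obtain ⟨hb1, hb2⟩ := hfb b (hb.mono hL1')
  rw [abs_le] at hb1 hb2
  have hA' : (c1 : ℤ) * Θ < A := by exact_mod_cast not_le.1 hA
  have hB' : (c1 : ℤ) * Θ < B := by exact_mod_cast not_le.1 hB
  have hc1' : (c1 : ℤ) = Dm * Dm + 3 * c2 := by exact_mod_cast hc1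
  have hc20 : (0 : ℤ) ≤ c2 := by positivity
  have hT : (Θ : ℤ) * (Dm * Dm) + 3 * c2 ≤ c1 * Θ := by
    have : (c2 : ℤ) ≤ c2 * Θ := le_mul_of_one_le_right hc20 hΘ'
    rw [hc1']; linarith
  have hT0 : (0 : ℤ) < Θ * (Dm * Dm) := mul_pos (by linarith) (by linarith)
  obtain ⟨a1, a2, k1, k2, k3, k4, k5, k6⟩ := h.cross
    (p := fun u => Θ * (Dm * Dm) + c2 ≤ f1 (Q' - u.2) ∧ Θ * (Dm * Dm) + c2 ≤ f2 (Q' - u.2))
    (by
      simp only [hsum]
      have e1 : f1 (b + (A : ℤ) • p + (B : ℤ) • q) = f1 b + A * d := by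
        rw [hf1, hf1, hd]; simp [det]; ring
      have e2 : f2 (b + (A : ℤ) • p + (B : ℤ) • q) = f2 b + B * d := by
        rw [hf2, hf2, hd]; simp [det]; ring
      rw [e1, e2]
      have : (A : ℤ) ≤ A * d := le_mul_of_one_le_right (by positivity) hd1
      have : (B : ℤ) ≤ B * d := le_mul_of_one_le_right (by positivity) hd1
      constructor <;> linarith)
    (by
      have e1 : f1 (Q' - Q') = 0 := by rw [hf1]; simp [det]
      simp only [e1]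
      intro hh
      linarith [hh.1])
  obtain ⟨hs1, hs2⟩ := hfb _ ((hE _ _ _ k2).mono hL1'')
  rw [abs_le] at hs1 hs2
  have e3 : f1 (Q' - a1.2) = f1 (Q' - a2.2) + f1 (a2.2 - a1.2) := by
    simp only [hf1, det, Prod.fst_sub, Prod.snd_sub]; ring
  have e4 : f2 (Q' - a1.2) = f2 (Q' - a2.2) + f2 (a2.2 - a1.2) := by
    simp only [hf2, det, Prod.fst_sub, Prod.snd_sub]; ring
  obtain ⟨n', Y', ht'⟩ := (k3.trans k4).tour
  obtain ⟨n2, b', Y2, p', q', A', B', j0, jn0, jp, jq, jsum, -⟩ := hL _ _ _ _ _ ht'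
  simp only at jsum j0
  obtain ⟨n3, Y3, j1, jn1, jY1⟩ := j0.insert_mul jp (A' % d)
  obtain ⟨n4, Y4, j2, jn2, -⟩ := j1.insert_mul (jq.mono jY1) (B' % d)
  have j3 := j2.append (h0.pow (d - 1))
  rw [Nat.sub_add_cancel hd1'] at j3
  have jn3 : n4 + d * n0 ≤ L1 := by
    have := Nat.mul_le_mul_left N ((Nat.mod_lt A' hd1').le.trans hd2')
    have := Nat.mul_le_mul_left N ((Nat.mod_lt B' hd1').le.trans hd2')
    have := Nat.mul_le_mul hd2' hn0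
    omega
  set b1 := b' + ((A' % d : ℕ) : ℤ) • p' + ((B' % d : ℕ) : ℤ) • q' + (d : ℤ) • b with hb1def
  obtain ⟨w, hw⟩ : ∃ w : ℤ × ℤ, Q' - a1.2 = b1 + (d : ℤ) • w := by
    refine ⟨((A' / d : ℕ) : ℤ) • p' + ((B' / d : ℕ) : ℤ) • q' - b, ?_⟩
    have eA : (A' : ℤ) = (A' % d : ℕ) + d * (A' / d : ℕ) := by
      exact_mod_cast (Nat.mod_add_div A' d).symm
    have eB : (B' : ℤ) = (B' % d : ℕ) + d * (B' / d : ℕ) := by
      exact_mod_cast (Nat.mod_add_div B' d).symm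
    rw [jsum, hb1def, eA, eB]
    module
  obtain ⟨hb3, hb4⟩ := hfb b1 ((j3.bd hE).mono
    (mul_le_mul_of_nonneg_right (by exact_mod_cast jn3) (by positivity)))
  rw [abs_le] at hb3 hb4
  have e5 : f1 (Q' - a1.2) = f1 b1 + d * f1 w := by
    rw [hw]; simp only [hf1, det, Prod.fst_add, Prod.snd_add, Prod.smul_fst, Prod.smul_snd,
      smul_eq_mul]; ring
  have e6 : f2 (Q' - a1.2) = f2 b1 + d * f2 w := by
    rw [hw]; simp only [hf2, det, Prod.fst_add, Prod.snd_add, Prod.smul_fst, Prod.smul_snd,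
      smul_eq_mul]; ring
  have hΘd : (Θ : ℤ) * d ≤ Θ * (Dm * Dm) := mul_le_mul_of_nonneg_left hd2 (by positivity)
  have g1 : (Θ : ℤ) ≤ f1 w :=
    le_of_mul_le_mul_left (a := (d : ℤ)) (by linarith [k5.1]) (by linarith)
  have g2 : (Θ : ℤ) ≤ f2 w :=
    le_of_mul_le_mul_left (a := (d : ℤ)) (by linarith [k5.2]) (by linarith)
  obtain ⟨m1, hm1⟩ := Int.eq_ofNat_of_zero_le (show 0 ≤ f1 w by linarith)
  obtain ⟨m2, hm2⟩ := Int.eq_ofNat_of_zero_le (show 0 ≤ f2 w by linarith)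
  refine ⟨a1, _, b1, _, p, q, m1, m2, k1, j3, jn3, hp.mono Finset.subset_union_right,
    hq.mono Finset.subset_union_right, ?_, ?_, ?_⟩
  · rw [← hm1, ← hm2, hf1, hf2, add_assoc b1, ← cramer, ← hd, ← hw]
    abel
  · rw [not_and_or, not_le, not_le] at k6
    rcases k6 with k6 | k6
    · refine Or.inl (le_trans ?_ hcm)
      have : (m1 : ℤ) ≤ d * m1 := le_mul_of_one_le_left (by positivity) hd1
      have : (m1 : ℤ) ≤ c1 * Θ := by rw [hm1] at e5; linarith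
      exact_mod_cast this
    · refine Or.inr (le_trans ?_ hcm)
      have : (m2 : ℤ) ≤ d * m2 := le_mul_of_one_le_left (by positivity) hd1
      have : (m2 : ℤ) ≤ c1 * Θ := by rw [hm2] at e6; linarith
      exact_mod_cast this
  · by_cases hlp0 : l p = 0
    · refine Or.inr ⟨fun hlq0 => ?_, by exact_mod_cast hm2 ▸ g2⟩
      rw [hlp0, hlq0] at hs'
      have : (0 : ℤ) ≤ c1 * Θ * K2 := by positivity
      have : (0 : ℤ) ≤ Θ * K2 := by positivity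
      linarith
    · exact Or.inl ⟨hlp0, by exact_mod_cast hm1 ▸ g1⟩

/-- The run from `a` to `a'` can be lengthened or shortened by up to `Θ` copies of `v`. -/
def Pump (E : X → X → ℤ × ℤ → Prop) (hi : ℤ × ℤ) (K : ℤ) (Θ : ℕ) (v : ℤ × ℤ)
    (a a' : X × ℤ × ℤ) : Prop :=
  ∀ δ : ℤ, |δ| ≤ Θ → FR E hi K a (a'.1, a'.2 + δ • v)

/-- The pumping lemma. -/
theorem pump [Fintype X] (hΩ : 1 ≤ Ω) : ∃ C W : ℕ, ∀ (l : ℤ × ℤ →+ ℤ),
    (∀ K v, Bd K v → |l v| ≤ K) → ∀ (Θ : ℕ), 1 ≤ Θ → ∀ hi K a a', FR E hi K a a' →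
    C * Θ ≤ |l (a'.2 - a.2)| → ∃ v, Bd W v ∧ l v ≠ 0 ∧ Pump E hi (K - C * Θ) Θ v a a' := by
  obtain ⟨L1, c, hc⟩ := mid hE hΩ
  set N := Fintype.card X with hN
  refine ⟨N * (c + 1 + Ω) + N * Ω + (2 * (L1 + N * (c + 1)) + N) * Ω, N * Ω, ?_⟩
  suffices hs : ∀ (l : ℤ × ℤ →+ ℤ),
      (∀ K v, Bd K v → |l v| ≤ K) → ∀ (Θ : ℕ), 1 ≤ Θ → ∀ hi K a a', FR E hi K a a' →
      ((N * (c + 1 + Ω) + N * Ω + (2 * (L1 + N * (c + 1)) + N) * Ω : ℕ) : ℤ) * Θ ≤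
        l (a'.2 - a.2) → ∃ v, Bd (N * Ω : ℕ) v ∧ l v ≠ 0 ∧ Pump E hi
        (K - (N * (c + 1 + Ω) + N * Ω + (2 * (L1 + N * (c + 1)) + N) * Ω : ℕ) * Θ) Θ v a a' by
    intro l hl Θ hΘ hi K a a' h hs'
    rcases le_abs.1 hs' with h1 | h1
    · exact hs l hl Θ hΘ hi K a a' h h1
    · obtain ⟨v, h2, h3, h4⟩ := hs (-l) (fun K v hv => by simpa using hl K v hv) Θ hΘ hi K a a' h
        (by simpa using h1)
      exact ⟨v, h2, by simpa using h3, h4⟩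
  intro l hl Θ hΘ hi K a a' h hs
  have hΘ' : (1 : ℤ) ≤ Θ := by exact_mod_cast hΘ
  have p1 : (0 : ℤ) ≤ N * Ω * Θ := by positivity
  have p2 : (0 : ℤ) ≤ (2 * (L1 + N * (c + 1)) + N) * Ω * Θ := by positivity
  have p3 : (0 : ℤ) ≤ N * (c + 1 + Ω) * Θ := by positivity
  have p4 : (N : ℤ) * Ω ≤ N * Ω * Θ := le_mul_of_one_le_right (by positivity) hΘ'
  push_cast at hs ⊢
  obtain ⟨z, Q, Q', h1, h2, h3, h4⟩ := closed_sub hE l hl (T := (c + 1) * Θ) (by positivity) N ∅ a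
    (FR.refl h.1) h (by simp) (by simp [hN]) (by linarith)
  obtain ⟨a1, n1, b1, Y1, p, q, m1, m2, k1, k2, k3, kp, kq, k4, k5, k6⟩ :=
    hc l hl Θ hΘ hi K z Q Q' h2 (by linarith)
  have key : ∀ (v : ℤ × ℤ) (δ : ℤ) (j1 j2 : ℕ), Bd (N * Ω) v → |δ| ≤ Θ →
      (j1 ≤ (c + 1) * Θ ∨ j2 ≤ (c + 1) * Θ) →
      Q' + δ • v = a1.2 + (b1 + (j1 : ℤ) • p + (j2 : ℤ) • q) → FR E hi
      (K - (N * (c + 1 + Ω) + N * Ω + (2 * (L1 + N * (c + 1)) + N) * Ω) * Θ) a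
      (a'.1, a'.2 + δ • v) := by
    intro v δ j1 j2 hv hδ hj e
    have i1 := hv.zsmul hδ
    have i2 := h2.end_in.add i1
    simp only at i2
    rw [e] at i2
    have i3 := k2.twoleg hE kp kq j1 j2 _ hj (k1.end_in.mono (by linarith)) i2
    rw [← e] at i3
    refine ((h1.trans k1).mono (by linarith)).trans ((i3.mono ?_).trans ((h3.shift i1).mono
      (by linarith)))
    have : (n1 : ℤ) ≤ L1 * Θ := le_trans (by exact_mod_cast k3)
      (le_mul_of_one_le_right (by positivity) hΘ')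
    have := mul_le_mul_of_nonneg_right this (show (0 : ℤ) ≤ Ω by positivity)
    push_cast
    linarith
  have hp := kp.bd hE (by positivity)
  have hq := kq.bd hE (by positivity)
  rcases k6 with ⟨k6, k7⟩ | ⟨k6, k7⟩
  · refine ⟨p, hp, k6, fun δ hδ => ?_⟩
    have hδ' := abs_le.1 hδ
    refine key p δ (m1 + δ).toNat m2 hp hδ ?_ ?_
    · rw [add_mul]
      omega
    · rw [Int.toNat_of_nonneg (by omega), k4]
      module
  · refine ⟨q, hq, k6, fun δ hδ => ?_⟩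
    have hδ' := abs_le.1 hδ
    refine key q δ m1 (m2 + δ).toNat hq hδ ?_ ?_
    · rw [add_mul]
      omega
    · rw [Int.toNat_of_nonneg (by omega), k4]
      module

end Pool.Agent.P.MP_d0a708_lc.BH
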