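import Pool.Agent.P.MP_d0a708_lc.BH.TStar

/-!
Selection of block-disjoint families, sunflowers and their consequences.
-/

namespace Pool.Agent.P.MP_d0a708_lc.BH

open Finset

lemma cnt_exists {α γ : Type} [Fintype γ] (s : Finset α) (P : γ → α → Prop) (r : ℕ)
    (h : ∀ c, cnt s (P c) ≤ r) : cnt s (fun a => ∃ c, P c a) ≤ Fintype.card γ * r := by
  classical
  rw [cnt_eq]
  have : (s.filter fun a => ∃ c, P c a) ⊆ univ.biUnion fun c => s.filter (P c) := by
    intro a ha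
    obtain ⟨h1, c, h2⟩ := mem_filter.1 ha
    exact mem_biUnion.2 ⟨c, mem_univ _, mem_filter.2 ⟨h1, h2⟩⟩
  refine (card_le_card this).trans (card_biUnion_le_card_mul _ _ _ fun c _ => ?_)
  rw [← cnt_eq]
  exact h c

lemma cnt_near {α : Type} (s : Finset α) (g : α → ℤ) (c : ℤ) (h : ℕ) (p : Prop)
    (hg : p → Set.InjOn g s) : cnt s (fun a => p ∧ |g a - c| < h) ≤ 2 * h := by
  classical
  rw [cnt_eq]
  by_cases hp : p
  · refine (card_le_card_of_injOn (t := Ioo (c - h) (c + h)) g ?_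
      ((hg hp).mono (coe_subset.2 (filter_subset _ _)))).trans ?_
    · intro a ha
      have := abs_lt.1 (mem_filter.1 ha).2.2
      exact mem_coe.2 (mem_Ioo.2 ⟨by omega, by omega⟩)
    · rw [Int.card_Ioo]
      omega
  · simp [hp]

lemma indep {α : Type} (s : Finset α) (conf : α → α → Prop) (hs : ∀ a b, conf a b → conf b a)
    (r : ℕ) (hr : ∀ b ∈ s, cnt s (fun a => conf a b) ≤ r) (k : ℕ) (hk : k * (r + 1) ≤ s.card) :
    ∃ g : Fin k → α, (∀ i, g i ∈ s) ∧ ∀ i i', i ≠ i' → ¬ conf (g i) (g i') := by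
  classical
  have : ∃ S ⊆ s, S.card = k ∧ ∀ a ∈ S, ∀ b ∈ S, a ≠ b → ¬ conf a b := by
    induction k with
    | zero => exact ⟨∅, by simp, rfl, by simp⟩
    | succ k ih =>
      obtain ⟨S, h1, h2, h3⟩ := ih (le_trans (Nat.mul_le_mul_right _ (Nat.le_succ k)) hk)
      have h4 : (S ∪ S.biUnion fun b => s.filter fun a => conf a b).card < s.card := by
        refine (card_union_le _ _).trans_lt ?_
        have := card_biUnion_le_card_mul S (fun b => s.filter fun a => conf a b) r fun b hb => by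
          rw [← cnt_eq]; exact hr b (h1 hb)
        rw [h2] at this ⊢
        nlinarith
      obtain ⟨a, ha, ha'⟩ := exists_mem_notMem_of_card_lt_card h4
      simp only [mem_union, mem_biUnion, mem_filter, not_or, not_exists, not_and] at ha'
      refine ⟨insert a S, insert_subset ha h1, by rw [card_insert_of_notMem ha'.1, h2], ?_⟩
      intro u hu v hv huv
      rcases mem_insert.1 hu with hu | hu <;> rcases mem_insert.1 hv with hv | hv
      · exact absurd (hu.trans hv.symm) huv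
      · exact hu ▸ ha'.2 v hv ha
      · exact fun hc => ha'.2 u hu ha (hs _ _ (hv ▸ hc))
      · exact h3 u hu v hv huv
  obtain ⟨S, h1, rfl, h3⟩ := this
  refine ⟨fun i => S.equivFin.symm i, fun i => h1 (S.equivFin.symm i).2, fun i i' hi => ?_⟩
  exact h3 _ (S.equivFin.symm i).2 _ (S.equivFin.symm i').2
    fun e => hi (S.equivFin.symm.injective (Subtype.ext e))

lemma near_of_div {u v : ℤ} {h : ℕ} (hh : 0 < h) (e : u / h = v / h) : |u - v| < h := by
  have hh' : (0 : ℤ) < h := by exact_mod_cast hh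
  have a1 := Int.ediv_mul_add_emod u h
  have a2 := Int.ediv_mul_add_emod v h
  have a3 := Int.emod_nonneg u hh'.ne'
  have a4 := Int.emod_nonneg v hh'.ne'
  have a5 := Int.emod_lt_of_pos u hh'
  have a6 := Int.emod_lt_of_pos v hh'
  rw [e] at a1
  rw [abs_lt]
  constructor <;> linarith

/-- The number of candidates needed for a selection. -/
def Ks (h κ m : ℕ) : ℕ := κ * (κ * κ * (m * m) * (2 * h) + 1) + κ * m * (2 * h)

theorem sel {W h κ m : ℕ} {b : ℤ → Bool} (hT : TS W h κ m b) (hh : 0 < h) (hκ : 0 < κ)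
    (I J : Finset ℕ) (x : ℕ → Fin m → ℤ) (ψ : ℕ → ℤ) (β : Fin m → Bool) (act : Finset (Fin m))
    (hxi : ∀ a ∈ act, Set.InjOn (fun i => x i a) I) (hψi : Set.InjOn ψ J)
    (hxb : ∀ i ∈ I, ∀ a ∈ act, |x i a| ≤ 2 * W) (hψb : ∀ j ∈ J, |ψ j| ≤ W)
    (hr : ∀ i ∈ I, ∀ j ∈ J, ∀ a ∈ act, 0 ≤ x i a + ψ j ∧ x i a + ψ j < W)
    (hc : ∀ i ∈ I, ∀ a ∈ act, ∀ a' ∈ act, x i a = x i a' → β a = β a')
    (hI : Ks h κ m ≤ I.card) (hJ : Ks h κ m ≤ J.card) (f : ℤ) :
    ∃ i ∈ I, ∃ j ∈ J, ∀ a ∈ act, b (x i a + ψ j) = β a ∧ (x i a + ψ j) / h ≠ f := by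
  classical
  obtain ⟨g, hg, hg'⟩ := indep I
    (fun i i' => ∃ p : Fin m × Fin m, (p.1 ∈ act ∧ p.2 ∈ act) ∧ |x i p.1 - x i' p.2| < h)
    (fun i i' ⟨p, h1, h2⟩ => ⟨p.swap, h1.symm, by rwa [abs_sub_comm]⟩) (m * m * (2 * h))
    (fun i' _ => by
      simpa using cnt_exists I (fun (p : Fin m × Fin m) i =>
        (p.1 ∈ act ∧ p.2 ∈ act) ∧ |x i p.1 - x i' p.2| < h) (2 * h)
        fun p => cnt_near I _ _ _ _ fun hp => hxi _ hp.1) κ (by
      refine le_trans ?_ hI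
      have : m * m * (2 * h) ≤ κ * κ * (m * m) * (2 * h) := by
        rw [mul_assoc (κ * κ)]
        exact Nat.le_mul_of_pos_left _ (Nat.mul_pos hκ hκ)
      have := Nat.mul_le_mul_left κ (Nat.add_le_add_right this 1)
      unfold Ks
      omega)
  set J' := J.filter fun j => ¬ ∃ p : Fin κ × Fin m, p.2 ∈ act ∧
    |ψ j - (f * h - x (g p.1) p.2)| < h with hJ'
  have hJ'c : κ * (κ * κ * (m * m) * (2 * h) + 1) ≤ J'.card := by
    have h1 := cnt_add_not J fun j => ∃ p : Fin κ × Fin m, p.2 ∈ act ∧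
      |ψ j - (f * h - x (g p.1) p.2)| < h
    have h2 := cnt_exists J (fun (p : Fin κ × Fin m) j => p.2 ∈ act ∧
      |ψ j - (f * h - x (g p.1) p.2)| < h) (2 * h) fun p => cnt_near J _ _ _ _ fun _ => hψi
    rw [cnt_eq J fun j => ¬ _] at h1
    simp only [Fintype.card_prod, Fintype.card_fin] at h2
    unfold Ks at hJ
    rw [hJ']
    omega
  have hsub : J' ⊆ J := filter_subset _ _
  obtain ⟨g', hj, hj'⟩ := indep J'
    (fun j j' => ∃ p : (Fin κ × Fin κ) × Fin m × Fin m, (p.2.1 ∈ act ∧ p.2.2 ∈ act) ∧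
      |ψ j - (ψ j' + x (g p.1.2) p.2.2 - x (g p.1.1) p.2.1)| < h)
    (fun j j' ⟨p, h1, h2⟩ => ⟨(p.1.swap, p.2.swap), h1.symm, by
      rw [abs_lt] at h2 ⊢
      simp only [Prod.fst_swap, Prod.snd_swap]
      omega⟩) (κ * κ * (m * m) * (2 * h))
    (fun j' _ => by
      simpa using cnt_exists J' (fun (p : (Fin κ × Fin κ) × Fin m × Fin m) j =>
        (p.2.1 ∈ act ∧ p.2.2 ∈ act) ∧
        |ψ j - (ψ j' + x (g p.1.2) p.2.2 - x (g p.1.1) p.2.1)| < h) (2 * h)
        fun p => cnt_near J' _ _ _ _ fun _ => hψi.mono (coe_subset.2 hsub)) κ hJ'c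
  obtain ⟨i, j, hij⟩ := hT (fun i a => if a ∈ act then x (g i) a else 0) (fun j => ψ (g' j)) β act
    (fun i a => by
      split_ifs with ha
      · exact hxb _ (hg i) a ha
      · simp)
    (fun j => hψb _ (hsub (hj j)))
    (fun i j a ha => by simpa [ha] using hr _ (hg i) _ (hsub (hj j)) a ha)
    (fun i a ha a' ha' => by simpa [ha, ha'] using hc _ (hg i) a ha a' ha')
    (fun p p' hp a ha a' ha' e => by
      simp only [ha, ha', if_true] at e
      have := near_of_div hh e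
      by_cases h2 : p.2 = p'.2
      · refine hg' p.1 p'.1 (fun h1 => hp (Prod.ext h1 h2)) ⟨(a, a'), ⟨ha, ha'⟩, ?_⟩
        rw [h2] at this
        simpa using this
      · refine hj' p.2 p'.2 h2 ⟨((p.1, p'.1), (a, a')), ⟨ha, ha'⟩, ?_⟩
        rw [abs_lt] at this ⊢
        simp only
        omega)
  refine ⟨g i, hg i, g' j, hsub (hj j), fun a ha => ⟨by simpa [ha] using hij a ha, fun e => ?_⟩⟩
  refine (mem_filter.1 (hj j)).2 ⟨(i, a), ha, ?_⟩
  have := near_of_div hh (v := f * h) (e.trans (Int.mul_ediv_cancel _ (by omega)).symm)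
  rw [abs_lt] at this ⊢
  simp only
  omega

lemma delta_one (H : Finset ℕ) (g : ℕ → ℤ) (K : ℕ) (hK : K ^ 2 ≤ H.card) :
    ∃ H' ⊆ H, K ≤ H'.card ∧ ((∀ i ∈ H', ∀ j ∈ H', g i = g j) ∨ Set.InjOn g H') := by
  by_cases h1 : K ≤ (H.image g).card
  · obtain ⟨u, h2, h3, h4⟩ := exists_subset_injOn_image_eq_of_surjOn (f := g) (H : Set ℕ)
      (H.image g) (by simp [Set.SurjOn])
    exact ⟨u, coe_subset.1 h2, h1.trans (h4 ▸ card_image_le), Or.inr h3⟩
  · by_contra hh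
    push Not at hh h1
    have := card_le_mul_card_image (f := g) H (K - 1) fun c _ => by
      by_contra h2
      obtain ⟨⟨i, hi, j, hj, e⟩, -⟩ := hh _ (filter_subset (fun a => g a = c) H) (by omega)
      exact e ((mem_filter.1 hi).2.trans (mem_filter.1 hj).2.symm)
    obtain ⟨k, rfl⟩ : ∃ k, K = k + 1 := ⟨K - 1, by omega⟩
    have h3 := Nat.mul_le_mul_left k (Nat.lt_succ_iff.1 h1)
    simp only [Nat.add_sub_cancel] at this
    nlinarith

lemma delta {m : ℕ} (x : ℕ → Fin m → ℤ) (K : ℕ) (S : Finset (Fin m)) : ∀ H : Finset ℕ,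
    K ^ 2 ^ S.card ≤ H.card → ∃ H' ⊆ H, K ≤ H'.card ∧ ∀ a ∈ S,
      (∀ i ∈ H', ∀ j ∈ H', x i a = x j a) ∨ Set.InjOn (fun i => x i a) H' := by
  induction S using Finset.induction_on with
  | empty => exact fun H h => ⟨H, le_rfl, by simpa using h, by simp⟩
  | insert a S ha ih =>
    intro H h
    rw [card_insert_of_notMem ha, pow_succ, pow_mul] at h
    obtain ⟨H1, h1, h2, h3⟩ := delta_one H (fun i => x i a) _ h
    obtain ⟨H2, h4, h5, h6⟩ := ih H1 h2
    refine ⟨H2, h4.trans h1, h5, fun a' ha' => ?_⟩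
    rcases mem_insert.1 ha' with rfl | ha'
    · exact h3.imp (fun h i hi j hj => h i (h4 hi) j (h4 hj)) fun h => h.mono (coe_subset.2 h4)
    · exact h6 a' ha'

lemma split_half (H : Finset ℕ) (k : ℕ) (hk : 2 * k ≤ H.card) :
    ∃ I ⊆ H, ∃ J ⊆ H, k ≤ I.card ∧ k ≤ J.card ∧ ∀ i ∈ I, ∀ j ∈ J, i < j := by
  set e := H.orderEmbOfFin rfl
  refine ⟨univ.image fun i : Fin k => e ⟨i, by omega⟩, ?_,
    univ.image fun i : Fin k => e ⟨k + i, by omega⟩, ?_, ?_, ?_, ?_⟩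
  · intro a ha
    obtain ⟨i, -, rfl⟩ := mem_image.1 ha
    exact H.orderEmbOfFin_mem rfl _
  · intro a ha
    obtain ⟨i, -, rfl⟩ := mem_image.1 ha
    exact H.orderEmbOfFin_mem rfl _
  · rw [card_image_of_injective _ fun i j hij => Fin.ext (by simpa using e.injective hij)]
    simp
  · rw [card_image_of_injective _ fun i j hij => Fin.ext (by simpa using e.injective hij)]
    simp
  · intro a ha b hb
    obtain ⟨i, -, rfl⟩ := mem_image.1 ha
    obtain ⟨j, -, rfl⟩ := mem_image.1 hb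
    exact e.strictMono (Fin.mk_lt_mk.2 (by omega))

theorem fiber {W h κ m : ℕ} {b : ℤ → Bool} (hT : TS W h κ m b) (hh : 0 < h) (hκ : 0 < κ)
    (H : Finset ℕ) (x : ℕ → Fin m → ℤ) (ψ : ℕ → ℤ) (β : Fin m → Bool) (act : Finset (Fin m))
    (hxb : ∀ i ∈ H, ∀ a ∈ act, |x i a| ≤ 2 * W) (hψb : ∀ j ∈ H, |ψ j| ≤ W)
    (hr : ∀ i ∈ H, ∀ j ∈ H, ∀ a ∈ act, 0 ≤ x i a + ψ j ∧ x i a + ψ j < W)
    (hd : ∀ j ∈ H, ∀ a ∈ act, b (x j a + ψ j) = β a)
    (hH : (2 * Ks h κ m) ^ 2 ^ m < H.card) :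
    ∃ i ∈ H, ∃ j ∈ H, i < j ∧ ∀ a ∈ act, b (x i a + ψ j) = β a := by
  classical
  by_contra hn
  have hψ : Set.InjOn ψ H := by
    intro i hi j hj e
    by_contra hij
    rcases lt_or_gt_of_ne hij with h1 | h1
    · exact hn ⟨i, hi, j, hj, h1, fun a ha => e ▸ hd i hi a ha⟩
    · exact hn ⟨j, hj, i, hi, h1, fun a ha => e.symm ▸ hd j hj a ha⟩
  obtain ⟨H', h1, h2, h3⟩ := delta x (2 * Ks h κ m) univ H (by simpa using hH.le)
  obtain ⟨I, hI, J, hJ, h4, h5, h6⟩ := split_half H' _ h2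
  obtain ⟨i, hi, j, hj, h7⟩ := sel hT hh hκ I J x ψ β
    (act.filter fun a => Set.InjOn (fun i => x i a) H')
    (fun a ha => (mem_filter.1 ha).2.mono (coe_subset.2 hI)) (hψ.mono (coe_subset.2 (hJ.trans h1)))
    (fun i hi a ha => hxb i (h1 (hI hi)) a (mem_filter.1 ha).1) (fun j hj => hψb j (h1 (hJ hj)))
    (fun i hi j hj a ha => hr i (h1 (hI hi)) j (h1 (hJ hj)) a (mem_filter.1 ha).1)
    (fun i hi a ha a' ha' e => by
      rw [← hd i (h1 (hI hi)) a (mem_filter.1 ha).1, ← hd i (h1 (hI hi)) a' (mem_filter.1 ha').1, e])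
    h4 h5 0
  refine hn ⟨i, h1 (hI hi), j, h1 (hJ hj), h6 i hi j hj, fun a ha => ?_⟩
  rcases h3 a (mem_univ _) with h8 | h8
  · rw [h8 i (hI hi) j (hJ hj)]
    exact hd j (h1 (hJ hj)) a ha
  · exact (h7 a (mem_filter.2 ⟨ha, h8⟩)).1

lemma list_act {m : ℕ} (ts : List (ℤ × Bool)) (hm : ts.length ≤ m) (P : ℤ × Bool → Prop) :
    (∀ u ∈ ts, P u) ↔
      ∀ a ∈ univ.filter fun a : Fin m => a.1 < ts.length, P (ts.getD a (0, false)) := by
  constructor
  · intro h a ha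
    rw [List.getD_eq_getElem _ _ (mem_filter.1 ha).2]
    exact h _ (List.getElem_mem _)
  · intro h u hu
    obtain ⟨n, hn, rfl⟩ := List.getElem_of_mem hu
    have := h ⟨n, by omega⟩ (mem_filter.2 ⟨mem_univ _, hn⟩)
    rwa [List.getD_eq_getElem _ _ hn] at this

theorem shift_tests {W h κ m : ℕ} {b : ℤ → Bool} (hT : TS W h κ m b) (hh : 0 < h) (hκ : 0 < κ)
    (ts : List (ℤ × Bool)) (hm : ts.length ≤ m) (hd : ∀ u ∈ ts, b u.1 = u.2) (s : ℤ) (hs : s ≠ 0)
    {K : ℤ} (hK : 2 * Ks h κ m * |s| < K) (hKW : K ≤ W) (hr : ∀ u ∈ ts, K ≤ u.1 ∧ u.1 + K ≤ W)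
    (f : ℤ) :
    ∃ j : ℕ, j ≤ 2 * Ks h κ m ∧ ∀ u ∈ ts, b (u.1 + j * s) = u.2 ∧ (u.1 + j * s) / h ≠ f := by
  have hb : ∀ i : ℕ, i ≤ 2 * Ks h κ m → |i * s| < K := by
    intro i hi
    rw [abs_mul, Nat.abs_cast]
    exact lt_of_le_of_lt (mul_le_mul_of_nonneg_right (by exact_mod_cast hi) (abs_nonneg _)) hK
  rw [list_act ts hm] at hd hr
  obtain ⟨i, hi, j, hj, h7⟩ := sel hT hh hκ (range (Ks h κ m)) (range (Ks h κ m))
    (fun i a => (ts.getD a (0, false)).1 + i * s) (fun j => j * s)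
    (fun a => (ts.getD a (0, false)).2) (univ.filter fun a : Fin m => a.1 < ts.length)
    (fun a _ i _ j _ e => by simpa [hs] using e) (fun i _ j _ e => by simpa [hs] using e)
    (fun i hi a ha => by
      have h1 := abs_lt.1 (hb i (by have := mem_range.1 hi; omega))
      have h2 := hr a ha
      rw [abs_le]
      omega)
    (fun j hj => (hb j (by have := mem_range.1 hj; omega)).le.trans hKW)
    (fun i hi j hj a ha => by
      have h1 := abs_lt.1 (hb (i + j) (by have := mem_range.1 hi; have := mem_range.1 hj; omega))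
      have h2 := hr a ha
      push_cast at h1
      rw [add_mul] at h1
      omega)
    (fun i hi a ha a' ha' e => by
      rw [← hd a ha, ← hd a' ha', add_right_cancel e])
    (by simp) (by simp) f
  refine ⟨i + j, by have := mem_range.1 hi; have := mem_range.1 hj; omega, ?_⟩
  rw [list_act ts hm]
  intro a ha
  push_cast
  rw [add_mul, ← add_assoc]
  exact h7 a ha

end Pool.Agent.P.MP_d0a708_lc.BH
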