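import Pool.Agent.P.MP_d0a708_lc.BH.Paths
import Pool.Agent.P.MP_d0a708_lc.BH.Sel

/-!
Analysis of one segment and of families of segments with independent pumps.
-/

namespace Pool.Agent.P.MP_d0a708_lc.BH

open Finset

variable {X : Type} {E : X → X → ℤ × ℤ → Prop} {T : Bool → X → X → Prop} {hi : ℤ × ℤ}

/-- A pump with a bounded vector. -/
def PV (E : X → X → ℤ × ℤ → Prop) (hi : ℤ × ℤ) (K : ℤ) (Θ W2 : ℕ) (v : ℤ × ℤ)
    (a a' : X × ℤ × ℤ) : Prop :=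
  Bd W2 v ∧ Pump E hi K Θ v a a'

lemma glue {K g : ℤ} {Θ W2 : ℕ} (hg : 0 ≤ g) {a1 a2 a3 a4 : X × ℤ × ℤ} {ts vA vB}
    (h1 : PV E hi (K - g) Θ W2 vA a1 a2) (h2 : AP E T hi K a2 ts a3)
    (h3 : PV E hi (K - g) Θ W2 vB a3 a4) {δA δB : ℤ} (hA : |δA| ≤ Θ) (hB : |δB| ≤ Θ) :
    AP E T hi (K - g - Θ * W2) a1 (ts.map fun u => (u.1 + δA * vA.1, u.2))
      (a4.1, a4.2 + δA • vA + δB • vB) := by
  have ht := h1.1.zsmul hA
  have h0 := ht.nonneg
  have := (h3.2 δB hB).shift ht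
  simp only [add_right_comm a4.2 (δB • vB)] at this
  exact ((h1.2 δA hA).mono (by linarith)).ap (((h2.shift ht).mono (by linarith)).fr this)

/-- The pieces of a path with two pumps. -/
structure ID (X : Type) where
  a1 : X × ℤ × ℤ
  a2 : X × ℤ × ℤ
  a3 : X × ℤ × ℤ
  a4 : X × ℤ × ℤ
  ts1 : List (ℤ × Bool)
  ts2 : List (ℤ × Bool)
  ts3 : List (ℤ × Bool)
  vA : ℤ × ℤ
  vB : ℤ × ℤ

/-- A valid path with two independent pumps, the second one ending near the boundary. -/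
structure IsInd (E : X → X → ℤ × ℤ → Prop) (T : Bool → X → X → Prop) (hi : ℤ × ℤ) (K g K1 : ℤ)
    (Θ W2 m : ℕ) (b : ℤ → Bool) (A A' : X × ℤ × ℤ) (d : ID X) : Prop where
  p1 : AP E T hi K A d.ts1 d.a1
  pA : PV E hi (K - g) Θ W2 d.vA d.a1 d.a2
  p2 : AP E T hi K d.a2 d.ts2 d.a3
  pB : PV E hi (K - g) Θ W2 d.vB d.a3 d.a4
  p3 : AP E T hi K d.a4 d.ts3 A'
  near : ¬ In hi K1 d.a4.2
  ind : det d.vA d.vB ≠ 0
  len : d.ts1.length + d.ts2.length + d.ts3.length ≤ m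
  t1 : ∀ u ∈ d.ts1, b u.1 = u.2
  t2 : ∀ u ∈ d.ts2, b u.1 = u.2
  t3 : ∀ u ∈ d.ts3, b u.1 = u.2

/-- The shape of a path with two pumps. -/
def shape (μ m : ℕ) (d : ID X) :
    X × ((ℤ × ℤ) × ℤ × ℤ) × (ℤ × ℤ) × (ℤ × ℤ) × ℕ × (Fin m → Bool) :=
  (d.a4.1, (d.vA, d.vB), (d.a4.2.1 % det d.vA d.vB, d.a4.2.2 % det d.vA d.vB),
    (d.a4.2.1 / μ, d.a4.2.2 / μ), d.ts2.length, fun a => (d.ts2.getD a (0, false)).2)

/-- A shortcut from the first path into the end of the second one. -/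
def Short (μ m Θ : ℕ) (b : ℤ → Bool) (d d' : ID X) : Prop :=
  shape μ m d = shape μ m d' ∧ ∃ δA δB : ℤ, |δA| ≤ Θ ∧ |δB| ≤ Θ ∧
    d.a4.2 + δA • d.vA + δB • d.vB = d'.a4.2 ∧ ∀ u ∈ d.ts2, b (u.1 + δA * d.vA.1) = u.2

variable {K g K1 : ℤ} {Θ W2 m μ : ℕ} {b : ℤ → Bool}

lemma IsInd.short {A A' d} (h : IsInd E T hi K g K1 Θ W2 m b A A' d) : Short μ m Θ b d d :=
  ⟨rfl, 0, 0, by simp, by simp, by simp, by simpa using h.t2⟩

lemma Short.path (hg : 0 ≤ g) {A A' d C C' d'} (h : IsInd E T hi K g K1 Θ W2 m b A A' d)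
    (h' : IsInd E T hi K g K1 Θ W2 m b C C' d') (hs : Short μ m Θ b d d') :
    ∃ ts : List (ℤ × Bool), ts.length ≤ 2 * m ∧ (∀ u ∈ ts, b u.1 = u.2) ∧
      AP E T hi (K - g - Θ * W2) A ts C' := by
  obtain ⟨h1, δA, δB, h2, h3, h4, h5⟩ := hs
  have h6 := glue hg h.pA h.p2 h.pB h2 h3
  have e : d.a4.1 = d'.a4.1 := (Prod.mk.inj h1).1
  rw [h4, e] at h6
  have h0 : (0 : ℤ) ≤ Θ * W2 := by positivity
  refine ⟨_, ?_, ?_, ((h.p1.mono (by linarith)).trans h6).trans (h'.p3.mono (by linarith))⟩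
  · have := h.len
    have := h'.len
    simp only [List.length_append, List.length_map]
    omega
  · intro u hu
    simp only [List.mem_append, List.mem_map] at hu
    rcases hu with (hu | ⟨u, hu, rfl⟩) | hu
    · exact h.t1 u hu
    · exact h5 u hu
    · exact h'.t3 u hu

lemma short_fiber {W h κ : ℕ} (hT : TS W h κ m b) (hh : 0 < h) (hκ : 0 < κ) (hW : hi.1 = W)
    (hμ : 0 < μ) (hΘ : 4 * (μ * W2) ≤ Θ) (hK : (Θ * W2 : ℤ) < K) (H : Finset ℕ) (d : ℕ → ID X)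
    (hd : ∀ i ∈ H, ∃ A A', IsInd E T hi K g K1 Θ W2 m b A A' (d i))
    (hs : ∀ i ∈ H, ∀ j ∈ H, shape μ m (d i) = shape μ m (d j))
    (hH : (2 * Ks h κ m) ^ 2 ^ m < H.card) :
    ∃ i ∈ H, ∃ j ∈ H, i < j ∧ Short μ m Θ b (d i) (d j) := by
  obtain ⟨i0, hi0⟩ := card_pos.1 (show 0 < H.card by omega)
  choose A A' hd using hd
  set vA := (d i0).vA with hvA
  set vB := (d i0).vB with hvB
  have hΘ' : (4 * (μ * W2) : ℤ) ≤ Θ := by exact_mod_cast hΘ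
  have h1 : ∀ i ∈ H, (d i).vA = vA ∧ (d i).vB = vB ∧ (d i).ts2.length = (d i0).ts2.length ∧
      (∀ a : Fin m, ((d i).ts2.getD a (0, false)).2 = ((d i0).ts2.getD a (0, false)).2) ∧
      ∃ α β : ℤ, |α| ≤ 2 * (μ * W2) ∧ |β| ≤ 2 * (μ * W2) ∧
        (d i).a4.2 = (d i0).a4.2 + α • vA + β • vB := by
    intro i hi
    have := hs i hi i0 hi0
    simp only [shape, Prod.mk.injEq] at this
    obtain ⟨-, ⟨e1, e2⟩, ⟨e3, e4⟩, ⟨e5, e6⟩, e7, e8⟩ := this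
    refine ⟨e1, e2, e7, congrFun e8, ?_⟩
    rw [e1, e2] at e3 e4
    obtain ⟨w1, hw1⟩ := Int.ModEq.dvd e3.symm
    obtain ⟨w2, hw2⟩ := Int.ModEq.dvd e4.symm
    have hD : 1 ≤ |det vA vB| := Int.one_le_abs (hd i0 hi0).ind
    have n1 := near_of_div hμ e5
    have n2 := near_of_div hμ e6
    rw [hw1, abs_mul] at n1
    rw [hw2, abs_mul] at n2
    have hw : Bd μ (w1, w2) := ⟨(le_mul_of_one_le_left (abs_nonneg _) hD).trans n1.le,
      (le_mul_of_one_le_left (abs_nonneg _) hD).trans n2.le⟩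
    refine ⟨det (w1, w2) vB, det vA (w1, w2), det_bd hw (hd i0 hi0).pB.1,
      mul_comm (μ : ℤ) W2 ▸ det_bd (hd i0 hi0).pA.1 hw, ?_⟩
    simp only [det] at hw1 hw2
    ext
    · simp only [det, Prod.fst_add, Prod.smul_fst, smul_eq_mul]
      linarith
    · simp only [det, Prod.snd_add, Prod.smul_snd, smul_eq_mul]
      linarith
  choose! e1 e2 e3 e4 α β hα hβ e5 using h1
  have hlen : ∀ i ∈ H, (d i).ts2.length ≤ m := fun i hi => by have := (hd i hi).len; omega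
  have hKW : K ≤ W := by
    obtain ⟨k1, k2, -⟩ := (hd i0 hi0).p1.start_in
    have : (0 : ℤ) ≤ Θ * W2 := by positivity
    omega
  have hv : ∀ x : ℤ, |x| ≤ Θ → |x * vA.1| < K := fun x hx => by
    rw [abs_mul]
    exact lt_of_le_of_lt (mul_le_mul hx (hd i0 hi0).pA.1.1 (abs_nonneg _) (by positivity)) hK
  have h0 : (0 : ℤ) ≤ μ * W2 := by positivity
  have hdiff : ∀ (γ : ℕ → ℤ), (∀ i ∈ H, |γ i| ≤ 2 * (μ * W2)) → ∀ i ∈ H, ∀ j ∈ H,
      |γ j - γ i| ≤ Θ := fun γ hγ i hi j hj =>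
    (abs_sub _ _).trans (by linarith [hγ i hi, hγ j hj])
  have hin : ∀ i ∈ H, ∀ a ∈ univ.filter fun a : Fin m => a.1 < (d i0).ts2.length,
      K ≤ ((d i).ts2.getD a (0, false)).1 ∧ ((d i).ts2.getD a (0, false)).1 + K ≤ W := by
    intro i hi
    have := (hd i hi).p2.tests_in
    rwa [list_act _ (hlen i hi), e3 i hi, hW] at this
  obtain ⟨i, hi, j, hj, hij, h2⟩ := fiber hT hh hκ H
    (fun i a => ((d i).ts2.getD a (0, false)).1 - α i * vA.1) (fun j => α j * vA.1)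
    (fun a => ((d i0).ts2.getD a (0, false)).2)
    (univ.filter fun a : Fin m => a.1 < (d i0).ts2.length)
    (fun i hi a ha => by
      have := abs_lt.1 (hv _ ((hα i hi).trans (by linarith)))
      have := hin i hi a ha
      rw [abs_le]
      omega)
    (fun j hj => (hv _ ((hα j hj).trans (by linarith))).le.trans hKW)
    (fun i hi j hj a ha => by
      have h3 := abs_lt.1 (hv _ (hdiff α hα i hi j hj))
      have := hin i hi a ha
      rw [sub_mul] at h3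
      omega)
    (fun j hj a ha => by
      have := (hd j hj).t2
      rw [list_act _ (hlen j hj), e3 j hj] at this
      rw [sub_add_cancel, this a ha, e4 j hj]) hH
  refine ⟨i, hi, j, hj, hij, hs i hi j hj, α j - α i, β j - β i, hdiff α hα i hi j hj,
    hdiff β hβ i hi j hj, ?_, ?_⟩
  · rw [e1 i hi, e2 i hi, e5 i hi, e5 j hj]
    module
  · rw [list_act _ (hlen i hi), e3 i hi, e1 i hi]
    intro a ha
    rw [e4 i hi, ← h2 a ha]
    congr 1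
    ring

lemma cells (hi : ℤ × ℤ) (K1 : ℤ) {μ c7 Z : ℕ} (hμ : 0 < μ) (hK : K1 ≤ c7 * μ) (h1 : hi.1 ≤ Z)
    (h2 : hi.2 ≤ Z) : ∃ S : Finset (ℤ × ℤ), S.card ≤ 4 * (c7 + 1) * (Z / μ + 1) ∧
      ∀ y, In hi 0 y → ¬ In hi K1 y → (y.1 / μ, y.2 / μ) ∈ S := by
  have hμ' : (0 : ℤ) < μ := by exact_mod_cast hμ
  set Bn : ℤ → Finset ℤ := fun t => Icc 0 (c7 : ℤ) ∪ Icc (t / μ - c7) (t / μ) with hBn
  have hc : ∀ t, (Bn t).card ≤ 2 * (c7 + 1) := fun t => by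
    refine (card_union_le _ _).trans ?_
    rw [Int.card_Icc, Int.card_Icc]
    omega
  have hc' : (Icc (0 : ℤ) (Z / μ : ℕ)).card = Z / μ + 1 := by
    rw [Int.card_Icc]
    generalize Z / μ = k
    omega
  have hm : ∀ t y : ℤ, 0 ≤ y → y ≤ t → (y < K1 ∨ t < y + K1) → y / μ ∈ Bn t := by
    intro t y k1 k2 k3
    simp only [hBn, mem_union, mem_Icc]
    rcases k3 with k3 | k3
    · exact Or.inl ⟨Int.ediv_nonneg k1 hμ'.le, Int.ediv_le_of_le_mul hμ' (by omega)⟩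
    · refine Or.inr ⟨?_, Int.ediv_le_ediv hμ' k2⟩
      have := Int.ediv_le_ediv hμ' (show t ≤ y + c7 * μ by omega)
      rw [Int.add_mul_ediv_right _ _ hμ'.ne'] at this
      omega
  have hm' : ∀ y : ℤ, 0 ≤ y → y ≤ Z → y / μ ∈ Icc (0 : ℤ) (Z / μ : ℕ) := fun y k1 k2 =>
    mem_Icc.2 ⟨Int.ediv_nonneg k1 hμ'.le, by push_cast; exact Int.ediv_le_ediv hμ' k2⟩
  refine ⟨Bn hi.1 ×ˢ Icc 0 ((Z / μ : ℕ) : ℤ) ∪ Icc 0 ((Z / μ : ℕ) : ℤ) ×ˢ Bn hi.2, ?_, ?_⟩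
  · refine (card_union_le _ _).trans ?_
    rw [card_product, card_product, hc']
    have := Nat.mul_le_mul_right (Z / μ + 1) (hc hi.1)
    have := Nat.mul_le_mul_left (Z / μ + 1) (hc hi.2)
    nlinarith
  · intro y k1 k2
    unfold In at k1 k2
    simp only [mem_union, mem_product]
    by_cases k3 : y.1 < K1 ∨ hi.1 < y.1 + K1
    · exact Or.inl ⟨hm _ _ k1.1 (by omega) k3, hm' _ k1.2.2.1 (by omega)⟩
    · exact Or.inr ⟨hm' _ k1.1 (by omega), hm _ _ k1.2.2.1 (by omega) (by omega)⟩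

theorem vis_card [Fintype X] {W h κ c7 Z : ℕ} (hT : TS W h κ m b) (hh : 0 < h) (hκ : 0 < κ)
    (hW : hi.1 = W) (hμ : 0 < μ) (hΘ : 4 * (μ * W2) ≤ Θ) (hK : (Θ * W2 : ℤ) < K)
    (hK1 : K1 ≤ c7 * μ) (h1 : hi.1 ≤ Z) (h2 : hi.2 ≤ Z) (H : Finset ℕ) (d : ℕ → ID X)
    (hd : ∀ i ∈ H, ∃ A A', IsInd E T hi K g K1 Θ W2 m b A A' (d i))
    (hs : ∀ i ∈ H, ∀ j ∈ H, i < j → ¬ Short μ m Θ b (d i) (d j)) :
    H.card ≤ (2 * Ks h κ m) ^ 2 ^ m * (Fintype.card X * ((2 * W2 + 1) ^ 4 *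
      ((2 * (W2 * W2)) ^ 2 * (4 * (c7 + 1) * (Z / μ + 1) * ((m + 1) * 2 ^ m))))) := by
  classical
  obtain ⟨S, hS, hS'⟩ := cells hi K1 hμ hK1 h1 h2
  set I : Finset ℤ := Icc (-(W2 : ℤ)) W2 with hI
  set J : Finset ℤ := Ico 0 (2 * (W2 * W2) : ℤ) with hJ
  have hIc : I.card = 2 * W2 + 1 := by rw [hI, Int.card_Icc]; omega
  have hJc : J.card = 2 * (W2 * W2) := by
    rw [hJ, Int.card_Ico, sub_zero]
    exact_mod_cast Int.toNat_natCast (2 * (W2 * W2))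
  refine (card_le_mul_card_image_of_maps_to (f := fun i => shape μ m (d i))
    (t := univ ×ˢ ((I ×ˢ I) ×ˢ I ×ˢ I) ×ˢ (J ×ˢ J) ×ˢ S ×ˢ range (m + 1) ×ˢ univ) ?_ _ ?_).trans
    (Nat.mul_le_mul_left _ ?_)
  · intro i hi
    obtain ⟨A, A', h3⟩ := hd i hi
    have hD := det_bd h3.pA.1 h3.pB.1
    have h0 : (0 : ℤ) ≤ Θ * W2 := by positivity
    have := h3.len
    simp only [shape, mem_product, mem_univ, true_and, and_true, hI, hJ, mem_Icc, mem_Ico,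
      mem_range, ← abs_le]
    exact ⟨⟨h3.pA.1, h3.pB.1⟩, ⟨⟨Int.emod_nonneg _ h3.ind, (Int.emod_lt_abs _ h3.ind).trans_le hD⟩,
      Int.emod_nonneg _ h3.ind, (Int.emod_lt_abs _ h3.ind).trans_le hD⟩,
      hS' _ (h3.p3.start_in.mono (by omega)) h3.near, by omega⟩
  · intro σ _
    by_contra h3
    obtain ⟨i, hi, j, hj, h4, h5⟩ := short_fiber hT hh hκ hW hμ hΘ hK _ d
      (fun i hi => hd i (mem_filter.1 hi).1)
      (fun i hi j hj => (mem_filter.1 hi).2.trans (mem_filter.1 hj).2.symm) (not_le.1 h3)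
    exact hs i (mem_filter.1 hi).1 j (mem_filter.1 hj).1 h4 h5
  · simp only [card_product, card_univ, hIc, hJc, card_range, Fintype.card_pi, Fintype.card_bool,
      prod_const, Fintype.card_fin]
    refine Nat.mul_le_mul_left _ (Nat.mul_le_mul (le_of_eq (by ring))
      (Nat.mul_le_mul (le_of_eq (by ring)) (Nat.mul_le_mul_right _ hS)))

section

variable {F : Type} {W h κ : ℕ} {K0 G : ℤ} {P : F → X × ℤ × ℤ → Prop} {fz : F → ℤ}
  (hh : 0 < h) (hW : hi.1 = W) (hg : 0 ≤ g)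
  (hU : ∀ f A ts A', AP E T hi (K - g - Θ * W2) A ts A' → (∀ u ∈ ts, b u.1 = u.2) →
    (∀ u ∈ ts, u.1 / h ≠ fz f) → P f A → P f A')
  (hI : ∀ f A ts A', AP E T hi (K - g - Θ * W2) A ts A' → (∀ u ∈ ts, b u.1 = u.2) →
    (∀ u ∈ ts, fz f * h - 6 * G ≤ u.1 ∧ u.1 < fz f * h + h + 6 * G) →
    (fz f * h - 6 * G ≤ A.2.1 ∧ A.2.1 < fz f * h + h + 6 * G) →
    (fz f * h - 6 * G ≤ A'.2.1 ∧ A'.2.1 < fz f * h + h + 6 * G) →
    ¬ In hi (K0 + G) A.2 → ¬ In hi (K0 + G) A'.2 → P f A → P f A')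
include hh hg hU hI

lemma piece {A ts A'} (h1 : AP E T hi K A ts A') (h2 : ∀ u ∈ ts, b u.1 = u.2)
    (h3 : Narrow (3 * G) A ts A') (h4 : ¬ In hi (K0 + G) A.2) (h5 : ¬ In hi (K0 + G) A'.2) (f : F) :
    P f A → P f A' := by
  have h0 : (0 : ℤ) ≤ Θ * W2 := by positivity
  by_cases h6 : ∀ u ∈ ts, u.1 / h ≠ fz f
  · exact hU f A ts A' (h1.mono (by linarith)) h2 h6
  · push Not at h6
    obtain ⟨u, hu, h6⟩ := h6
    have hh' : (0 : ℤ) < h := by exact_mod_cast hh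
    have a1 := Int.ediv_mul_add_emod u.1 h
    have a2 := Int.emod_nonneg u.1 hh'.ne'
    have a3 := Int.emod_lt_of_pos u.1 hh'
    rw [h6] at a1
    have a4 := abs_le.1 (h3.2 u hu)
    have a5 := abs_le.1 h3.1
    refine hI f A ts A' (h1.mono (by linarith)) h2 (fun v hv => ?_) (by omega) (by omega) h4 h5
    have := abs_le.1 (h3.2 v hv)
    omega

include hW in
theorem seg (hT : TS W h κ m b) (hκ : 0 < κ) (hG : G = (m + 1) * g)
    (hΘ : 2 * Ks h κ m * W2 ≤ Θ) (hK : (Θ * W2 : ℤ) < K)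
    (hS : ∀ a a', FR E hi K a a' → Bd g (a'.2 - a.2) ∨
      ∃ v, v ≠ 0 ∧ PV E hi (K - g) Θ W2 v a a' ∧ (v.1 = 0 → |a'.2.1 - a.2.1| ≤ g))
    {A ts A'} (h1 : AP E T hi K A ts A') (h2 : ∀ u ∈ ts, b u.1 = u.2) (hm : ts.length ≤ m)
    (h4 : ¬ In hi K0 A.2) (h5 : ¬ In hi K0 A'.2) :
    (∀ f, P f A → P f A') ∨ ∃ d, IsInd E T hi K g (K0 + G) Θ W2 m b A A' d := by
  have hG0 : 0 ≤ G := by rw [hG]; positivity
  have h0 : (0 : ℤ) ≤ Θ * W2 := by positivity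
  have h4' : ¬ In hi (K0 + G) A.2 := fun k => h4 (k.mono (by linarith))
  have h5' : ¬ In hi (K0 + G) A'.2 := fun k => h5 (k.mono (by linarith))
  have hl : ∀ {C ts}, Small G A ts C → ¬ In hi (K0 + G) C.2 := fun {C _} k k' => h4 (by
    simpa using k'.add (t := A.2 - C.2) (k := G) ⟨by simpa [abs_sub_comm] using k.1.1,
      by simpa [abs_sub_comm] using k.2⟩)
  have hr : ∀ {C ts}, Small G C ts A' → ¬ In hi (K0 + G) C.2 := fun {C _} k k' => h5 (by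
    simpa using k'.add (t := A'.2 - C.2) (k := G) ⟨k.1.1, k.2⟩)
  rcases h1.tri hg hS hm with k | ⟨a1, a4, ts1, ts2, ts3, rfl, k1, k2, k3, k4, k5⟩ |
    ⟨a1, a2, a3, a4, ts1, ts2, ts3, vA, vB, rfl, k1, k2, k3, k4, k5, k6, k7⟩
  · exact Or.inl (piece hh hg hU hI h1 h2 (hG ▸ k) h4' h5')
  · rw [← hG] at k2 k4
    refine Or.inl fun f hp => ?_
    refine piece hh hg hU hI k3 (fun u hu => h2 u (by simp [hu])) (k4.1.mono (by linarith))
      (hr k4) h5' f ?_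
    replace hp := piece hh hg hU hI k1 (fun u hu => h2 u (by simp [hu])) (k2.1.mono (by linarith))
      h4' (hl k2) f hp
    rcases k5 with ⟨v, k5⟩ | ⟨a2, a3, vA, vB, j1, j2, j3, j4, j5, j6⟩
    · have := k5.2 0 (by simp)
      simp only [zero_smul, add_zero] at this
      exact hU f _ _ _ (.free (this.mono (by linarith))) (by simp) (by simp) hp
    · have hΘ' : (2 * Ks h κ m * W2 : ℤ) ≤ Θ := by exact_mod_cast hΘ
      obtain ⟨j, i1, i2⟩ := shift_tests hT hh hκ ts2 (by simp at hm; omega)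
        (fun u hu => h2 u (by simp [hu])) (vB.1 * vA.1) (mul_ne_zero j6 j5) (K := K) (by
          refine lt_of_le_of_lt ?_ hK
          rw [abs_mul, ← mul_assoc]
          exact mul_le_mul ((mul_le_mul_of_nonneg_left j3.1.1 (by positivity)).trans hΘ') j1.1.1
            (abs_nonneg _) (by positivity))
        (by obtain ⟨i1, i2, -⟩ := h1.start_in; omega) (hW ▸ j2.tests_in) (fz f)
      have hj : ∀ x : ℤ, |x| ≤ W2 → |j * x| ≤ Θ := fun x hx => by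
        rw [abs_mul, Nat.abs_cast]
        exact (mul_le_mul (by exact_mod_cast i1) hx (abs_nonneg _) (by positivity)).trans hΘ'
      have i3 := glue hg j1 j2 j3 (hj _ j3.1.1) (hj (-vA.1) (by simpa using j1.1.1))
      have e : a4.2 + (j * vB.1) • vA + (j * -vA.1) • vB = a4.2 := by
        unfold det at j4
        ext
        · simp only [Prod.fst_add, Prod.smul_fst, smul_eq_mul]
          ring
        · simp only [Prod.snd_add, Prod.smul_snd, smul_eq_mul]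
          linear_combination (-j) * j4
      rw [e] at i3
      refine hU f _ _ _ i3 ?_ ?_ hp <;> intro u hu <;> obtain ⟨v, hv, rfl⟩ := List.mem_map.1 hu
      · simpa only [mul_assoc] using (i2 v hv).1
      · simpa only [mul_assoc] using (i2 v hv).2
  · exact Or.inr ⟨⟨a1, a2, a3, a4, ts1, ts2, ts3, vA, vB⟩, k1, k2, k3, k4, k5, hr (hG ▸ k6), k7,
      by simpa only [List.length_append] using hm, fun u hu => h2 u (by simp [hu]),
      fun u hu => h2 u (by simp [hu]), fun u hu => h2 u (by simp [hu])⟩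

end

end Pool.Agent.P.MP_d0a708_lc.BH
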