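import Mathlib

/-!
Random block sequences satisfy some pattern of every large block-disjoint family of patterns.
-/

namespace Pool.Agent.P.MP_d0a708_lc.BH

open Finset

open Classical in
/-- The number of elements of `s` with property `P`. -/
noncomputable def cnt {α : Type} (s : Finset α) (P : α → Prop) : ℕ := (s.filter P).card

lemma cnt_eq {α : Type} (s : Finset α) (P : α → Prop) [DecidablePred P] :
    cnt s P = (s.filter P).card := by
  unfold cnt
  congr

lemma cnt_mono {α : Type} {s : Finset α} {P P' : α → Prop} (h : ∀ a ∈ s, P a → P' a) :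
    cnt s P ≤ cnt s P' := by
  classical
  rw [cnt_eq, cnt_eq]
  exact card_le_card fun a ha => mem_filter.2 ⟨(mem_filter.1 ha).1,
    h a (mem_filter.1 ha).1 (mem_filter.1 ha).2⟩

lemma cnt_congr {α : Type} {s : Finset α} {P P' : α → Prop} (h : ∀ a ∈ s, P a ↔ P' a) :
    cnt s P = cnt s P' :=
  le_antisymm (cnt_mono fun a ha => (h a ha).1) (cnt_mono fun a ha => (h a ha).2)

lemma cnt_add {α : Type} (s : Finset α) (B P : α → Prop) :
    cnt s (fun a => B a ∧ P a) + cnt s (fun a => B a ∧ ¬ P a) = cnt s B := by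
  classical
  rw [cnt_eq, cnt_eq, cnt_eq, ← filter_filter, ← filter_filter]
  exact card_filter_add_card_filter_not _

lemma cnt_true {α : Type} {s : Finset α} {P : α → Prop} (h : ∀ a ∈ s, P a) : cnt s P = s.card := by
  classical
  rw [cnt_eq, filter_true_of_mem h]

lemma cnt_add_not {α : Type} (s : Finset α) (P : α → Prop) :
    cnt s P + cnt s (fun a => ¬ P a) = s.card := by
  classical
  rw [cnt_eq, cnt_eq]
  exact card_filter_add_card_filter_not _

/-- The bit at index `i` of a sequence of blocks. -/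
def bitf {M h : ℕ} (V : Fin M → Fin h → Bool) (i : ℤ) : Bool :=
  if H : 0 ≤ i ∧ (i / h).toNat < M ∧ (i % h).toNat < h then V ⟨_, H.2.1⟩ ⟨_, H.2.2⟩ else false

lemma bitf_congr {M h : ℕ} {V V' : Fin M → Fin h → Bool} {i : ℤ}
    (H : ∀ f : Fin M, i / h = f → V f = V' f) : bitf V i = bitf V' i := by
  unfold bitf
  split_ifs with hi
  · rw [H]
    exact (Int.toNat_of_nonneg (Int.ediv_nonneg hi.1 (by positivity))).symm
  · rfl

lemma bitf_apply {M h : ℕ} (V : Fin M → Fin h → Bool) (k : Fin M) (j : Fin h) :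
    bitf V (k * h + j) = V k j := by
  have hh : (0 : ℤ) < h := by have := j.2; omega
  have hj : (j : ℤ) < h := by exact_mod_cast j.2
  have e1 : ((k : ℤ) * h + j) / h = k := by
    rw [add_comm, Int.add_mul_ediv_right _ _ hh.ne', Int.ediv_eq_zero_of_lt (by positivity) hj,
      zero_add]
  have e2 : ((k : ℤ) * h + j) % h = j := by
    rw [add_comm, Int.add_mul_emod_self_right, Int.emod_eq_of_lt (by positivity) hj]
  unfold bitf
  rw [dif_pos ⟨by positivity, by simp [e1], by simp [e2]⟩]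
  simp [e1, e2]

lemma exists_coord {M h : ℕ} {i : ℤ} (h0 : 0 ≤ i) (h1 : i < (M * h : ℕ)) :
    ∃ (k : Fin M) (j : Fin h), i = k * h + j ∧ i / h = k := by
  have hh : (0 : ℤ) < h := by
    rcases Nat.eq_zero_or_pos h with rfl | hh
    · simp at h1; omega
    · exact_mod_cast hh
  have a1 := Int.ediv_nonneg h0 hh.le
  have a2 := Int.emod_nonneg i hh.ne'
  have a3 := Int.emod_lt_of_pos i hh
  have a4 : i / h < M := Int.ediv_lt_of_lt_mul hh (by exact_mod_cast h1)
  refine ⟨⟨(i / h).toNat, by omega⟩, ⟨(i % h).toNat, by omega⟩, ?_, ?_⟩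
  · simp only [Int.toNat_of_nonneg a1, Int.toNat_of_nonneg a2]
    exact (Int.ediv_mul_add_emod i h).symm
  · simp only [Int.toNat_of_nonneg a1]

/-- More than `m` coordinates whose flip changes membership in `U`. -/
def Flip {h : ℕ} (m : ℕ) (U : Finset (Fin h → Bool)) : Prop :=
  ∃ Z : Finset (Fin h), m < Z.card ∧ ∀ j ∈ Z, ∀ t, t ∈ U ↔ Function.update t j (!t j) ∉ U

lemma fix_block {h m : ℕ} {U : Finset (Fin h → Bool)} (hU : Flip m U) (A : Finset (Fin h))
    (hA : A.card ≤ m) (γ : Fin h → Bool) : ∃ F : (Fin h → Bool) → (Fin h → Bool),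
    (∀ t, F t ∈ U) ∧ (∀ t, ∀ j ∈ A, F t j = γ j) ∧ (A = ∅ → ∀ t ∈ U, F t = t) ∧
    ∀ t ∈ U, ∀ t' ∈ U, F t = F t' → (∀ j ∈ A, t j = t' j) → t = t' := by
  obtain ⟨Z, hZ, hZ'⟩ := hU
  obtain ⟨j0, hj0, hj0'⟩ := exists_mem_notMem_of_card_lt_card (hA.trans_lt hZ)
  set o : (Fin h → Bool) → (Fin h → Bool) := fun t j => if j ∈ A then γ j else t j with ho
  set F : (Fin h → Bool) → (Fin h → Bool) :=
    fun t => if o t ∈ U then o t else Function.update (o t) j0 (!o t j0) with hF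
  have hoff : ∀ t j, j ≠ j0 → F t j = o t j := by
    intro t j hj
    simp only [hF]
    split_ifs
    · rfl
    · rw [Function.update_of_ne hj]
  refine ⟨F, fun t => ?_, fun t j hj => ?_, fun hA t ht => ?_, fun t ht t' ht' h1 h2 => ?_⟩
  · simp only [hF]
    split_ifs with h1
    · exact h1
    · by_contra h2
      exact h1 ((hZ' j0 hj0 _).2 h2)
  · rw [hoff t j (by rintro rfl; exact hj0' hj)]
    simp [ho, hj]
  · have : o t = t := by funext j; simp [ho, hA]
    simp [hF, this, ht]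
  · have h3 : ∀ j, j ≠ j0 → t j = t' j := by
      intro j hj
      by_cases hjA : j ∈ A
      · exact h2 j hjA
      · have := congrFun h1 j
        rw [hoff t j hj, hoff t' j hj] at this
        simpa [ho, hjA] using this
    by_contra h4
    refine (hZ' j0 hj0 t).1 ht ?_
    convert ht' using 1
    funext j
    by_cases hj : j = j0
    · subst hj
      rw [Function.update_self]
      by_contra h5
      refine h4 (funext fun i => ?_)
      by_cases hi : i = j
      · subst hi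
        revert h5
        cases t i <;> cases t' i <;> simp
      · exact h3 i hi
    · rw [Function.update_of_ne hj, h3 j hj]

lemma pattern_card {M h m : ℕ} {U : Finset (Fin h → Bool)} (hU : Flip m U) (act : Finset (Fin m))
    (pos : Fin m → ℤ) (β : Fin m → Bool) (hr : ∀ a ∈ act, 0 ≤ pos a ∧ pos a < (M * h : ℕ))
    (hc : ∀ a ∈ act, ∀ a' ∈ act, pos a = pos a' → β a = β a')
    (B : (Fin M → Fin h → Bool) → Prop)
    (hB : ∀ V V', (∀ k : Fin M, (∀ a ∈ act, pos a / h ≠ k) → V k = V' k) → B V → B V') :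
    cnt (Fintype.piFinset fun _ : Fin M => U) B ≤
      2 ^ m * cnt (Fintype.piFinset fun _ : Fin M => U)
        fun V => B V ∧ ∀ a ∈ act, bitf V (pos a) = β a := by
  classical
  rw [cnt_eq, cnt_eq]
  set A : Fin M → Finset (Fin h) :=
    fun k => univ.filter fun j => ∃ a ∈ act, pos a = k * h + j with hA
  have hAc : ∀ k, (A k).card ≤ m := by
    intro k
    have : (A k).card ≤ (act.image pos).card := by
      refine card_le_card_of_injOn (fun j => (k : ℤ) * h + j) ?_ ?_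
      · intro j hj
        obtain ⟨a, ha, e⟩ := (mem_filter.1 hj).2
        exact mem_coe.2 (mem_image.2 ⟨a, ha, e⟩)
      · intro j _ j' _ e
        exact Fin.ext (by simpa using e)
    exact this.trans (card_image_le.trans ((card_le_univ _).trans (by simp)))
  set γ : Fin M → Fin h → Bool :=
    fun k j => decide (∃ a ∈ act, pos a = k * h + j ∧ β a = true) with hγ
  choose F h1 h2 h3 h4 using fun k => fix_block hU (A k) (hAc k) (γ k)
  refine card_le_mul_card_image_of_maps_to (f := fun V k => F k (V k)) ?_ _ ?_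
  · intro V hV
    rw [mem_filter, Fintype.mem_piFinset] at hV ⊢
    refine ⟨fun k => h1 k _, hB _ _ (fun k hk => (h3 k ?_ _ (hV.1 k)).symm) hV.2, fun a ha => ?_⟩
    · refine filter_eq_empty_iff.2 ?_
      rintro j - ⟨a, ha, e⟩
      obtain ⟨k', j', e1, e2⟩ := exists_coord (hr a ha).1 (hr a ha).2
      refine hk a ha ?_
      have hj : (j : ℤ) < h := by exact_mod_cast j.2
      rw [e, add_comm, Int.add_mul_ediv_right _ _ (by omega),
        Int.ediv_eq_zero_of_lt (by positivity) hj, zero_add]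
    · obtain ⟨k, j, e1, -⟩ := exists_coord (hr a ha).1 (hr a ha).2
      rw [e1, bitf_apply, h2 k _ j (mem_filter.2 ⟨mem_univ _, a, ha, e1⟩)]
      cases hb : β a
      · simp only [hγ, decide_eq_false_iff_not]
        rintro ⟨a', ha', e, hb'⟩
        rw [hc a ha a' ha' (e1.trans e.symm), hb'] at hb
        cases hb
      · simp only [hγ, decide_eq_true_eq]
        exact ⟨a, ha, e1, hb⟩
  · intro V0 _
    refine (card_le_card_of_injOn (t := univ) (fun V (a : Fin m) => bitf V (pos a))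
      (fun _ _ => mem_coe.2 (mem_univ _)) ?_).trans (by simp)
    intro V hV V' hV' e
    simp only [coe_filter, mem_filter, Fintype.mem_piFinset, Set.mem_ofPred_eq] at hV hV'
    funext k
    refine h4 k _ (hV.1.1 k) _ (hV'.1.1 k) (congrFun (hV.2.trans hV'.2.symm) k) fun j hj => ?_
    obtain ⟨a, -, ea⟩ := (mem_filter.1 hj).2
    have := congrFun e a
    simp only [ea, bitf_apply] at this
    exact this

lemma family_card {M h m : ℕ} {U : Finset (Fin h → Bool)} (hU : Flip m U) (act : Finset (Fin m))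
    {ι : Type} (pos : ι → Fin m → ℤ) (β : Fin m → Bool)
    (hr : ∀ p, ∀ a ∈ act, 0 ≤ pos p a ∧ pos p a < (M * h : ℕ))
    (hc : ∀ p, ∀ a ∈ act, ∀ a' ∈ act, pos p a = pos p a' → β a = β a')
    (hd : ∀ p p', p ≠ p' → ∀ a ∈ act, ∀ a' ∈ act, pos p a / h ≠ pos p' a' / h) (S : Finset ι) :
    (2 ^ m) ^ S.card * (cnt (Fintype.piFinset fun _ : Fin M => U)
        fun V => ∀ p ∈ S, ¬ ∀ a ∈ act, bitf V (pos p a) = β a) ≤
      (2 ^ m - 1) ^ S.card * (Fintype.piFinset fun _ : Fin M => U).card := by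
  classical
  induction S using Finset.induction_on with
  | empty => simp [cnt_true]
  | insert p S hp ih =>
    have h1 := pattern_card hU act (pos p) β (hr p) (hc p)
      (fun V => ∀ p ∈ S, ¬ ∀ a ∈ act, bitf V (pos p a) = β a) (by
        intro V V' hV hB p' hp' hh
        refine hB p' hp' fun a ha => (bitf_congr fun f hf => hV f fun a' ha' e => ?_).trans (hh a ha)
        exact hd p p' (by rintro rfl; exact hp hp') a' ha' a ha (e.trans hf.symm))
    have h2 := cnt_add (Fintype.piFinset fun _ : Fin M => U)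
      (fun V => ∀ p ∈ S, ¬ ∀ a ∈ act, bitf V (pos p a) = β a)
      (fun V => ∀ a ∈ act, bitf V (pos p a) = β a)
    have e : (cnt (Fintype.piFinset fun _ : Fin M => U)
        fun V => ∀ p' ∈ insert p S, ¬ ∀ a ∈ act, bitf V (pos p' a) = β a) =
        (cnt (Fintype.piFinset fun _ : Fin M => U)
        fun V => (∀ p ∈ S, ¬ ∀ a ∈ act, bitf V (pos p a) = β a) ∧
          ¬ ∀ a ∈ act, bitf V (pos p a) = β a) :=
      cnt_congr fun V _ => by rw [forall_mem_insert, and_comm]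
    rw [e, card_insert_of_notMem hp, pow_succ, pow_succ]
    obtain ⟨c, hc⟩ : ∃ c, 2 ^ m = c + 1 :=
      ⟨2 ^ m - 1, by have := Nat.one_le_two_pow (n := m); omega⟩
    rw [hc] at h1 ih ⊢
    rw [Nat.add_sub_cancel] at ih ⊢
    rw [← h2] at h1 ih
    generalize cnt _ _ = u at h1 ih
    generalize cnt _ _ = v at h1 ih ⊢
    have h3 : (c + 1) * v ≤ c * (u + v) := by nlinarith
    calc (c + 1) ^ S.card * (c + 1) * v = (c + 1) ^ S.card * ((c + 1) * v) := by ring
      _ ≤ (c + 1) ^ S.card * (c * (u + v)) := Nat.mul_le_mul_left _ h3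
      _ = c * ((c + 1) ^ S.card * (u + v)) := by ring
      _ ≤ c * (c ^ S.card * _) := Nat.mul_le_mul_left _ ih
      _ = _ := by ring

/-- Some pattern of every block-disjoint `κ × κ` family of translates holds. -/
def TS (W h κ m : ℕ) (b : ℤ → Bool) : Prop :=
  ∀ (x : Fin κ → Fin m → ℤ) (ψ : Fin κ → ℤ) (β : Fin m → Bool) (act : Finset (Fin m)),
    (∀ i a, |x i a| ≤ 2 * W) → (∀ j, |ψ j| ≤ W) →
    (∀ i j, ∀ a ∈ act, 0 ≤ x i a + ψ j ∧ x i a + ψ j < W) →
    (∀ i, ∀ a ∈ act, ∀ a' ∈ act, x i a = x i a' → β a = β a') →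
    (∀ p p' : Fin κ × Fin κ, p ≠ p' → ∀ a ∈ act, ∀ a' ∈ act,
      (x p.1 a + ψ p.2) / h ≠ (x p'.1 a' + ψ p'.2) / h) →
    ∃ i j, ∀ a ∈ act, b (x i a + ψ j) = β a

lemma bern (b n : ℕ) : b ^ n * (b + n) ≤ b * (b + 1) ^ n := by
  induction n with
  | zero => simp
  | succ n ih =>
    calc b ^ (n + 1) * (b + (n + 1)) = b ^ n * (b * (b + n) + b) := by ring
      _ ≤ b ^ n * (b * (b + n) + (b + n)) := Nat.mul_le_mul_left _ (by omega)
      _ = b ^ n * (b + n) * (b + 1) := by ring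
      _ ≤ b * (b + 1) ^ n * (b + 1) := Nat.mul_le_mul_right _ ih
      _ = _ := by ring

lemma half_pow (c : ℕ) : 2 * c ^ (c + 1) ≤ (c + 1) ^ (c + 1) := by
  rcases Nat.eq_zero_or_pos c with rfl | hc
  · simp
  · refine Nat.le_of_mul_le_mul_left ?_ hc
    refine le_trans ?_ (bern c (c + 1))
    calc c * (2 * c ^ (c + 1)) = c ^ (c + 1) * (2 * c) := by ring
      _ ≤ _ := Nat.mul_le_mul_left _ (by omega)

lemma ts_numeric {W w m κ : ℕ} (hw : 4 * W + 1 ≤ 2 ^ w)
    (hκ : κ = 2 ^ m * ((m + 1) * w + 2 * m + 2)) :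
    4 * (4 ^ m * (4 * W + 1) ^ (κ * (m + 1))) * (2 ^ m - 1) ^ (κ * κ) ≤ (2 ^ m) ^ (κ * κ) := by
  obtain ⟨c, hc⟩ : ∃ c, 2 ^ m = c + 1 := ⟨2 ^ m - 1, by have := Nat.one_le_two_pow (n := m); omega⟩
  set k0 := (m + 1) * w + 2 * m + 2 with hk0
  have hκ1 : 1 ≤ κ := by rw [hκ]; exact Nat.mul_pos (by positivity) (by omega)
  have h1 : 4 * (4 ^ m * (4 * W + 1) ^ (κ * (m + 1))) ≤ 2 ^ (k0 * κ) := by
    calc 4 * (4 ^ m * (4 * W + 1) ^ (κ * (m + 1))) ≤ 4 * (4 ^ m * (2 ^ w) ^ (κ * (m + 1))) := by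
          gcongr
      _ = 2 ^ (2 * m + 2 + (m + 1) * w * κ) := by
          rw [show (4 : ℕ) = 2 ^ 2 by norm_num, ← pow_mul, ← pow_mul, ← pow_add, ← pow_add]
          congr 1
          ring
      _ ≤ _ := Nat.pow_le_pow_right (by norm_num) (by rw [hk0]; nlinarith)
  have h2 : κ * κ = (c + 1) * (k0 * κ) := by rw [← hc, ← mul_assoc, ← hκ]
  rw [hc, Nat.add_sub_cancel, h2, pow_mul c, pow_mul (c + 1)]
  calc _ ≤ 2 ^ (k0 * κ) * (c ^ (c + 1)) ^ (k0 * κ) := Nat.mul_le_mul_right _ h1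
    _ = (2 * c ^ (c + 1)) ^ (k0 * κ) := by rw [mul_pow]
    _ ≤ _ := Nat.pow_le_pow_left (half_pow c) _

theorem tstar {M h m w κ : ℕ} {U : Finset (Fin h → Bool)} (hU : Flip m U)
    (hw : 4 * (M * h) + 1 ≤ 2 ^ w) (hκ : κ = 2 ^ m * ((m + 1) * w + 2 * m + 2)) :
    4 * (cnt (Fintype.piFinset fun _ : Fin M => U)
      fun V => ¬ TS (M * h) h κ m (bitf V)) ≤ (Fintype.piFinset fun _ : Fin M => U).card := by
  classical
  rw [cnt_eq]
  set W := M * h with hW
  set Ω := Fintype.piFinset fun _ : Fin M => U with hΩ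
  set I : Finset ℤ := Icc (-(2 * W : ℤ)) (2 * W) with hI
  have hIc : I.card = 4 * W + 1 := by rw [hI, Int.card_Icc]; omega
  set fam : Finset ((Fin κ → Fin m → ℤ) × (Fin κ → ℤ) × (Fin m → Bool) × Finset (Fin m)) :=
    (Fintype.piFinset fun _ => Fintype.piFinset fun _ => I) ×ˢ (Fintype.piFinset fun _ => I) ×ˢ
      univ ×ˢ univ with hfam
  have hfc : fam.card = 4 ^ m * (4 * W + 1) ^ (κ * (m + 1)) := by
    simp only [hfam, card_product, Fintype.card_piFinset, hIc, prod_const, card_univ,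
      Fintype.card_fin, Fintype.card_pi, Fintype.card_bool, Fintype.card_finset]
    rw [show (4 : ℕ) ^ m = 2 ^ m * 2 ^ m by rw [← mul_pow]; norm_num]
    ring
  set bad : (Fin κ → Fin m → ℤ) × (Fin κ → ℤ) × (Fin m → Bool) × Finset (Fin m) →
      Finset (Fin M → Fin h → Bool) := fun d => Ω.filter fun V =>
        ((∀ i j, ∀ a ∈ d.2.2.2, 0 ≤ d.1 i a + d.2.1 j ∧ d.1 i a + d.2.1 j < W) ∧
        (∀ i, ∀ a ∈ d.2.2.2, ∀ a' ∈ d.2.2.2, d.1 i a = d.1 i a' → d.2.2.1 a = d.2.2.1 a') ∧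
        (∀ p p' : Fin κ × Fin κ, p ≠ p' → ∀ a ∈ d.2.2.2, ∀ a' ∈ d.2.2.2,
          (d.1 p.1 a + d.2.1 p.2) / h ≠ (d.1 p'.1 a' + d.2.1 p'.2) / h)) ∧
        ∀ p ∈ (univ : Finset (Fin κ × Fin κ)),
          ¬ ∀ a ∈ d.2.2.2, bitf V (d.1 p.1 a + d.2.1 p.2) = d.2.2.1 a with hbad
  have hsub : (Ω.filter fun V => ¬ TS W h κ m (bitf V)) ⊆ fam.biUnion bad := by
    intro V hV
    obtain ⟨hV, hn⟩ := mem_filter.1 hV
    unfold TS at hn
    push Not at hn
    obtain ⟨x, ψ, β, act, h1, h2, h3, h4, h5, h6⟩ := hn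
    refine mem_biUnion.2 ⟨(x, ψ, β, act), ?_, mem_filter.2 ⟨hV, ⟨h3, h4, h5⟩, fun p _ hh => ?_⟩⟩
    · simp only [hfam, mem_product, Fintype.mem_piFinset, mem_univ, and_true, hI, mem_Icc]
      refine ⟨fun i a => abs_le.1 (h1 i a), fun j => abs_le.1 ((h2 j).trans ?_)⟩
      omega
    · obtain ⟨a, ha, h7⟩ := h6 p.1 p.2
      exact h7 (hh a ha)
  have hb : ∀ d, (2 ^ m) ^ (κ * κ) * (bad d).card ≤ (2 ^ m - 1) ^ (κ * κ) * Ω.card := by
    intro d
    by_cases hd : (bad d).Nonempty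
    · obtain ⟨V, hV⟩ := hd
      obtain ⟨h3, h4, h5⟩ := (mem_filter.1 hV).2.1
      have := family_card (M := M) hU d.2.2.2 (fun p : Fin κ × Fin κ => fun a =>
        d.1 p.1 a + d.2.1 p.2) d.2.2.1 (fun p => h3 p.1 p.2)
        (fun p a ha a' ha' e => h4 p.1 a ha a' ha' (by simpa using e)) h5 univ
      simp only [card_univ, Fintype.card_prod, Fintype.card_fin] at this
      rw [cnt_eq] at this
      refine le_trans (Nat.mul_le_mul_left _ (card_le_card ?_)) this
      intro V hV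
      exact mem_filter.2 ⟨(mem_filter.1 hV).1, (mem_filter.1 hV).2.2⟩
    · rw [not_nonempty_iff_eq_empty.1 hd]
      simp
  refine Nat.le_of_mul_le_mul_left ?_ (show 0 < (2 ^ m) ^ (κ * κ) by positivity)
  calc (2 ^ m) ^ (κ * κ) * (4 * (Ω.filter fun V => ¬ TS W h κ m (bitf V)).card)
      ≤ (2 ^ m) ^ (κ * κ) * (4 * ∑ d ∈ fam, (bad d).card) := by
        gcongr
        exact (card_le_card hsub).trans card_biUnion_le
    _ = 4 * ∑ d ∈ fam, (2 ^ m) ^ (κ * κ) * (bad d).card := by rw [← mul_sum]; ring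
    _ ≤ 4 * ∑ _d ∈ fam, (2 ^ m - 1) ^ (κ * κ) * Ω.card :=
        Nat.mul_le_mul_left _ (sum_le_sum fun d _ => hb d)
    _ = 4 * (4 ^ m * (4 * W + 1) ^ (κ * (m + 1))) * (2 ^ m - 1) ^ (κ * κ) * Ω.card := by
        rw [sum_const, hfc, smul_eq_mul]; ring
    _ ≤ _ := Nat.mul_le_mul_right _ (ts_numeric hw hκ)

end Pool.Agent.P.MP_d0a708_lc.BH
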