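import Mathlib

/-!
Walks in a finite digraph with edge labels in `ℤ × ℤ`: skeleton and cycle decomposition,
normal form with two pumped cycles.
-/

namespace Pool.Agent.P.MP_d0a708_lc.BH

/-- Both coordinates are at most `K` in absolute value. -/
def Bd (K : ℤ) (v : ℤ × ℤ) : Prop := |v.1| ≤ K ∧ |v.2| ≤ K

lemma Bd.add {K L : ℤ} {u v : ℤ × ℤ} (h : Bd K u) (h' : Bd L v) : Bd (K + L) (u + v) :=
  ⟨(abs_add_le _ _).trans (add_le_add h.1 h'.1), (abs_add_le _ _).trans (add_le_add h.2 h'.2)⟩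

lemma Bd.mono {K L : ℤ} {u : ℤ × ℤ} (h : Bd K u) (h' : K ≤ L) : Bd L u :=
  ⟨h.1.trans h', h.2.trans h'⟩

lemma Bd.neg {K : ℤ} {u : ℤ × ℤ} (h : Bd K u) : Bd K (-u) :=
  ⟨by simpa using h.1, by simpa using h.2⟩

lemma Bd.nonneg {K : ℤ} {u : ℤ × ℤ} (h : Bd K u) : 0 ≤ K := (abs_nonneg _).trans h.1

lemma Bd.zsmul {K L : ℤ} {u : ℤ × ℤ} (h : Bd K u) {d : ℤ} (hd : |d| ≤ L) : Bd (L * K) (d • u) := by
  constructor
  · simp only [Prod.smul_fst, smul_eq_mul, abs_mul]
    exact mul_le_mul hd h.1 (abs_nonneg _) ((abs_nonneg _).trans hd)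
  · simp only [Prod.smul_snd, smul_eq_mul, abs_mul]
    exact mul_le_mul hd h.2 (abs_nonneg _) ((abs_nonneg _).trans hd)

lemma bd_zero {K : ℤ} (h : 0 ≤ K) : Bd K 0 := ⟨by simpa, by simpa⟩

/-- Determinant of two vectors. -/
def det (u v : ℤ × ℤ) : ℤ := u.1 * v.2 - u.2 * v.1

lemma det_bd {K L : ℤ} {u v : ℤ × ℤ} (h : Bd K u) (h' : Bd L v) : |det u v| ≤ 2 * (K * L) := by
  have h1 : |u.1 * v.2| ≤ K * L := by
    rw [abs_mul]; exact mul_le_mul h.1 h'.2 (abs_nonneg _) h.nonneg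
  have h2 : |u.2 * v.1| ≤ K * L := by
    rw [abs_mul]; exact mul_le_mul h.2 h'.1 (abs_nonneg _) h.nonneg
  have := abs_sub (u.1 * v.2) (u.2 * v.1)
  unfold det
  linarith

variable {X : Type} [DecidableEq X]

/-- A walk with `n` edges from `x` to `y`, label sum `s` and vertex set `Y`. -/
inductive Tour (E : X → X → ℤ × ℤ → Prop) : ℕ → X → X → ℤ × ℤ → Finset X → Prop
  | nil (x : X) : Tour E 0 x x 0 {x}
  | cons {n : ℕ} {x x1 y : X} {d s : ℤ × ℤ} {Y : Finset X} :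
      E x x1 d → Tour E n x1 y s Y → Tour E (n + 1) x y (d + s) (insert x Y)

variable {E : X → X → ℤ × ℤ → Prop}

lemma Tour.start_mem {n x y s Y} (h : Tour E n x y s Y) : x ∈ Y := by
  cases h <;> simp

lemma Tour.end_mem {n x y s Y} (h : Tour E n x y s Y) : y ∈ Y := by
  induction h with
  | nil => simp
  | cons _ _ ih => exact Finset.mem_insert_of_mem ih

lemma Tour.card_le {n x y s Y} (h : Tour E n x y s Y) : Y.card ≤ n + 1 := by
  induction h with
  | nil => simp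
  | cons _ _ ih => exact (Finset.card_insert_le _ _).trans (by omega)

lemma Tour.append {n x y s Y} (h : Tour E n x y s Y) {m z t Y'} (h' : Tour E m y z t Y') :
    Tour E (n + m) x z (s + t) (Y ∪ Y') := by
  induction h with
  | nil x =>
    have : ({x} : Finset X) ∪ Y' = Y' := by
      rw [Finset.union_eq_right]; simpa using h'.start_mem
    simpa [this] using h'
  | @cons _ _ _ _ d _ _ e _ ih =>
    have := Tour.cons e (ih h')
    rw [Finset.insert_union, add_assoc d, Nat.add_right_comm]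
    exact this

lemma Tour.split {n x y s Y} (h : Tour E n x y s Y) {z : X} (hz : z ∈ Y) :
    ∃ n1 n2 s1 s2 Y1 Y2, Tour E n1 x z s1 Y1 ∧ Tour E n2 z y s2 Y2 ∧ n = n1 + n2 ∧
      s = s1 + s2 ∧ Y = Y1 ∪ Y2 := by
  induction h with
  | nil x =>
    obtain rfl : z = x := by simpa using hz
    exact ⟨0, 0, 0, 0, {z}, {z}, .nil z, .nil z, rfl, by simp, by simp⟩
  | @cons n x x1 y d s Y e h ih =>
    by_cases hzx : z = x
    · subst hzx
      exact ⟨0, n + 1, 0, d + s, {z}, insert z Y, .nil z, .cons e h, by simp, by simp, by simp⟩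
    · obtain ⟨n1, n2, s1, s2, Y1, Y2, h1, h2, rfl, rfl, rfl⟩ :=
        ih (by simpa [hzx] using hz)
      exact ⟨n1 + 1, n2, d + s1, s2, insert x Y1, Y2, .cons e h1, h2, by omega,
        by rw [add_assoc], by rw [Finset.insert_union]⟩

lemma Tour.bd {Ω : ℤ} (hE : ∀ x y d, E x y d → Bd Ω d) {n x y s Y}
    (h : Tour E n x y s Y) : Bd (n * Ω) s := by
  induction h with
  | nil => exact bd_zero (by simp)
  | cons e _ ih => exact ((hE _ _ _ e).add ih).mono (by push_cast; linarith)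

/-- `v` is the label of a short cycle at a vertex of `Y`. -/
def Avail (E : X → X → ℤ × ℤ → Prop) (N : ℕ) (Y : Finset X) (v : ℤ × ℤ) : Prop :=
  ∃ z ∈ Y, ∃ k ≤ N, ∃ Y', Tour E k z z v Y'

lemma Avail.mono {N Y Y' v} (h : Avail E N Y v) (hY : Y ⊆ Y') : Avail E N Y' v := by
  obtain ⟨z, hz, h⟩ := h
  exact ⟨z, hY hz, h⟩

lemma Avail.bd {Ω : ℤ} (hE : ∀ x y d, E x y d → Bd Ω d) (hΩ : 0 ≤ Ω) {N Y v}
    (h : Avail E N Y v) : Bd (N * Ω) v := by
  obtain ⟨z, -, k, hk, Y', h⟩ := h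
  exact (h.bd hE).mono (mul_le_mul_of_nonneg_right (by exact_mod_cast hk) hΩ)

lemma Tour.insert {N n x y s Y} (h : Tour E n x y s Y) {v} (hv : Avail E N Y v) :
    ∃ n' Y', Tour E n' x y (s + v) Y' ∧ n' ≤ n + N ∧ Y ⊆ Y' := by
  obtain ⟨z, hz, k, hk, Y', hc⟩ := hv
  obtain ⟨n1, n2, s1, s2, Y1, Y2, h1, h2, rfl, rfl, rfl⟩ := h.split hz
  refine ⟨n1 + (k + n2), Y1 ∪ (Y' ∪ Y2), ?_, by omega, ?_⟩
  · have := h1.append (hc.append h2)
    rwa [show s1 + (v + s2) = s1 + s2 + v by abel] at this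
  · intro w hw
    simp only [Finset.mem_union] at hw ⊢
    tauto

lemma Tour.insert_list {N x y} (l : List (ℤ × ℤ)) : ∀ {n s Y}, Tour E n x y s Y →
    (∀ v ∈ l, Avail E N Y v) →
    ∃ n' Y', Tour E n' x y (s + l.sum) Y' ∧ n' ≤ n + N * l.length ∧ Y ⊆ Y' := by
  induction l with
  | nil => exact fun h _ => ⟨_, _, by simpa using h, by simp, le_rfl⟩
  | cons v l ih =>
    intro n s Y h hl
    obtain ⟨n1, Y1, h1, hn1, hY1⟩ := h.insert (hl v (by simp))
    obtain ⟨n2, Y2, h2, hn2, hY2⟩ := ih h1 fun w hw => (hl w (by simp [hw])).mono hY1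
    refine ⟨n2, Y2, by rwa [List.sum_cons, ← add_assoc], ?_, hY1.trans hY2⟩
    simp only [List.length_cons]
    nlinarith

lemma Tour.insert_mul {N n x y s Y} (h : Tour E n x y s Y) {v} (hv : Avail E N Y v) (k : ℕ) :
    ∃ n' Y', Tour E n' x y (s + (k : ℤ) • v) Y' ∧ n' ≤ n + N * k ∧ Y ⊆ Y' := by
  have := Tour.insert_list (List.replicate k v) h (N := N)
    fun w hw => (List.eq_of_mem_replicate hw) ▸ hv
  simpa using this

lemma Tour.dec_aux [Fintype X] {n x y s Y} (h : Tour E n x y s Y) :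
    ∃ w n1 s1 Y1 n2 s2, ∃ cs : List (ℤ × ℤ), Tour E n1 x w s1 Y1 ∧ Tour E n2 w y s2 Y ∧ Y1 ⊆ Y ∧
      n1 + 1 ≤ Y1.card ∧ n2 + Fintype.card X ≤ Fintype.card X * Y.card ∧
      s = s1 + s2 + cs.sum ∧ ∀ v ∈ cs, Avail E (Fintype.card X) Y v := by
  induction h with
  | nil x => exact ⟨x, 0, 0, {x}, 0, 0, [], .nil x, .nil x, le_rfl, by simp, by simp, by simp,
      by simp⟩
  | @cons n x x1 y d s Y e h ih =>
    obtain ⟨w, n1, s1, Y1, n2, s2, cs, h1, h2, hY, hn1, hn2, rfl, hcs⟩ := ih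
    have hc : Y1.card ≤ Fintype.card X := Finset.card_le_univ _
    by_cases hx : x ∈ Y
    · rw [Finset.insert_eq_of_mem hx]
      by_cases hx1 : x ∈ Y1
      · obtain ⟨na, nb, sa, sb, Ya, Yb, ha, hb, rfl, rfl, rfl⟩ := h1.split hx1
        refine ⟨w, nb, sb, Yb, n2, s2, (d + sa) :: cs, hb, h2,
          Finset.subset_union_right.trans hY, ?_, hn2, by simp; abel, ?_⟩
        · have h3 := Finset.card_union_add_card_inter Ya Yb
          have h4 : 0 < (Ya ∩ Yb).card :=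
            Finset.card_pos.2 ⟨x, Finset.mem_inter.2 ⟨ha.end_mem, hb.start_mem⟩⟩
          have h5 := ha.card_le
          omega
        · intro v hv
          rcases List.mem_cons.1 hv with rfl | hv
          · exact ⟨x, hx, na + 1, by omega, _, .cons e ha⟩
          · exact hcs v hv
      · refine ⟨w, n1 + 1, d + s1, Insert.insert x Y1, n2, s2, cs, .cons e h1, h2,
          Finset.insert_subset hx hY, ?_, hn2, by abel, hcs⟩
        rw [Finset.card_insert_of_notMem hx1]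
        omega
    · have h3 := Tour.cons e (h1.append h2)
      rw [Finset.union_eq_right.2 hY] at h3
      refine ⟨x, 0, 0, {x}, _, _, cs, .nil x, h3, by simp, by simp, ?_, by abel,
        fun v hv => (hcs v hv).mono (Finset.subset_insert _ _)⟩
      rw [Finset.card_insert_of_notMem hx, mul_add]
      omega

/-- Every walk is a short skeleton with the same vertex set plus short cycles. -/
lemma Tour.dec [Fintype X] {n x y s Y} (h : Tour E n x y s Y) :
    ∃ n' s', ∃ cs : List (ℤ × ℤ), Tour E n' x y s' Y ∧ n' ≤ Fintype.card X ^ 2 ∧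
      s = s' + cs.sum ∧ ∀ v ∈ cs, Avail E (Fintype.card X) Y v := by
  obtain ⟨w, n1, s1, Y1, n2, s2, cs, h1, h2, hY, hn1, hn2, rfl, hcs⟩ := h.dec_aux
  have h3 := h1.append h2
  rw [Finset.union_eq_right.2 hY] at h3
  refine ⟨_, _, cs, h3, ?_, rfl, hcs⟩
  have hc : Y1.card ≤ Fintype.card X := Finset.card_le_univ _
  have hc' : Y.card ≤ Fintype.card X := Finset.card_le_univ _
  have := Nat.mul_le_mul_left (Fintype.card X) hc'
  nlinarith

/-- Exchange along a linear relation until one multiplicity is small. -/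
lemma exchange {ι : Type} [Fintype ι] (p : ι → ℤ × ℤ) (α : ι → ℤ) (T : ℕ)
    (hα : ∀ i, α i ≤ T) (h0 : ∑ i, α i • p i = 0) (k : ι) (hk : 0 < α k) (A : ι → ℕ) :
    ∃ A' : ι → ℕ, ∑ i, (A' i : ℤ) • p i = ∑ i, (A i : ℤ) • p i ∧ ∃ j, 0 < α j ∧ A' j ≤ T := by
  induction hA : A k using Nat.strong_induction_on generalizing A with
  | _ a ih =>
    by_cases h : ∃ j, 0 < α j ∧ A j ≤ T
    · exact ⟨A, rfl, h⟩
    · push Not at h
      have h1 : ∀ j, α j ≤ A j := by
        intro j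
        by_cases hj : 0 < α j
        · have := h j hj
          have := hα j
          omega
        · omega
      obtain ⟨A', h2, h3⟩ := ih ((A k : ℤ) - α k).toNat (by have := h1 k; omega)
        (fun j => ((A j : ℤ) - α j).toNat) rfl
      refine ⟨A', h2.trans ?_, h3⟩
      have : ∀ j, ((((A j : ℤ) - α j).toNat : ℕ) : ℤ) • p j = (A j : ℤ) • p j - α j • p j := by
        intro j
        rw [Int.toNat_of_nonneg (by have := h1 j; omega), sub_smul]
      simp only [this, Finset.sum_sub_distrib, h0, sub_zero]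

lemma exchange' {ι : Type} [Fintype ι] (p : ι → ℤ × ℤ) (α : ι → ℤ) (T : ℕ)
    (hα : ∀ i, |α i| ≤ T) (h0 : ∑ i, α i • p i = 0) (k : ι) (hk : α k ≠ 0) (A : ι → ℕ) :
    ∃ A' : ι → ℕ, ∑ i, (A' i : ℤ) • p i = ∑ i, (A i : ℤ) • p i ∧ ∃ j, A' j ≤ T := by
  rcases lt_or_gt_of_ne hk with hk | hk
  · obtain ⟨A', h1, j, -, h2⟩ := exchange p (fun i => -α i) T
      (fun i => (neg_le_abs _).trans (hα i)) (by simp only [neg_smul, Finset.sum_neg_distrib, h0, neg_zero]) k (by omega) A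
    exact ⟨A', h1, j, h2⟩
  · obtain ⟨A', h1, j, -, h2⟩ := exchange p α T (fun i => (le_abs_self _).trans (hα i)) h0 k hk A
    exact ⟨A', h1, j, h2⟩

/-- Two dependent vectors: one multiplicity can be made small. -/
lemma two_small {K : ℕ} {p q : ℤ × ℤ} (hp : Bd K p) (hq : Bd K q) (hK : 1 ≤ K) (hd : det p q = 0)
    (A B : ℕ) : ∃ A' B' : ℕ, (A' : ℤ) • p + (B' : ℤ) • q = (A : ℤ) • p + (B : ℤ) • q ∧
      (A' ≤ K ∨ B' ≤ K) := by
  have key : ∀ α : Fin 2 → ℤ, (∀ i, |α i| ≤ K) → α 0 • p + α 1 • q = 0 → (∃ k, α k ≠ 0) →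
      ∃ A' B' : ℕ, (A' : ℤ) • p + (B' : ℤ) • q = (A : ℤ) • p + (B : ℤ) • q ∧
      (A' ≤ K ∨ B' ≤ K) := by
    rintro α h1 h2 ⟨k, hk⟩
    obtain ⟨A', h3, j, h4⟩ := exchange' ![p, q] α K h1 (by simpa using h2) k hk ![A, B]
    refine ⟨A' 0, A' 1, by simpa using h3, ?_⟩
    fin_cases j
    · exact Or.inl h4
    · exact Or.inr h4
  unfold det at hd
  by_cases h1 : p.1 = 0
  · by_cases h2 : p.2 = 0
    · refine key ![1, 0] (fun i => ?_) ?_ ⟨0, by simp⟩
      · fin_cases i <;> simp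
        exact_mod_cast hK
      · ext <;> simp [h1, h2]
    · refine key ![q.2, -p.2] (fun i => ?_) ?_ ⟨1, by simpa using h2⟩
      · fin_cases i
        · exact hq.2
        · simpa using hp.2
      · ext <;> simp <;> linarith
  · refine key ![q.1, -p.1] (fun i => ?_) ?_ ⟨1, by simpa using h1⟩
    · fin_cases i
      · exact hq.1
      · simpa using hp.1
    · ext <;> simp <;> linarith

lemma three_small {K : ℕ} {p q r : ℤ × ℤ} (hp : Bd K p) (hq : Bd K q) (hr : Bd K r) (hK : 1 ≤ K)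
    (A B C : ℕ) : ∃ A' B' C' : ℕ, (A' : ℤ) • p + (B' : ℤ) • q + (C' : ℤ) • r =
      (A : ℤ) • p + (B : ℤ) • q + (C : ℤ) • r ∧
      (A' ≤ 2 * (K * K) ∨ B' ≤ 2 * (K * K) ∨ C' ≤ 2 * (K * K)) := by
  by_cases hd : det p q = 0
  · obtain ⟨A', B', h1, h2⟩ := two_small hp hq hK hd A B
    refine ⟨A', B', C, by rw [h1], ?_⟩
    have : K ≤ 2 * (K * K) := by nlinarith
    omega
  · obtain ⟨A', h3, j, h4⟩ := exchange' ![p, q, r] ![det q r, det r p, det p q] (2 * (K * K))
      (fun i => by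
        fin_cases i
        · simpa using det_bd hq hr
        · simpa using det_bd hr hp
        · simpa using det_bd hp hq)
      (by ext <;> simp [Fin.sum_univ_three, det] <;> ring) 2 (by simpa using hd) ![A, B, C]
    refine ⟨A' 0, A' 1, A' 2, by simpa [Fin.sum_univ_three] using h3, ?_⟩
    fin_cases j
    · exact Or.inl h4
    · exact Or.inr (Or.inl h4)
    · exact Or.inr (Or.inr h4)

lemma carath {K : ℕ} (hK : 1 ≤ K) (P : ℤ × ℤ → Prop) (hP : ∀ v, P v → Bd K v) (h0 : P 0)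
    (A : ℤ × ℤ → ℕ) (S : Finset (ℤ × ℤ)) : (∀ v ∈ S, P v) →
    ∃ (sm : List (ℤ × ℤ)) (p q : ℤ × ℤ) (a b : ℕ), (∀ v ∈ sm, P v) ∧ P p ∧ P q ∧
      sm.length ≤ 2 * (K * K) * S.card ∧
      ∑ v ∈ S, (A v : ℤ) • v = sm.sum + (a : ℤ) • p + (b : ℤ) • q := by
  induction S using Finset.induction_on with
  | empty => exact fun _ => ⟨[], 0, 0, 0, 0, by simp, h0, h0, by simp, by simp⟩
  | insert r S hr ih =>
    intro hS
    obtain ⟨sm, p, q, a, b, h1, hp, hq, h2, h3⟩ := ih fun v hv => hS v (by simp [hv])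
    have hPr : P r := hS r (by simp)
    obtain ⟨a', b', c', h4, h5⟩ := three_small (hP _ hp) (hP _ hq) (hP _ hPr) hK a b (A r)
    rw [Finset.sum_insert hr, Finset.card_insert_of_notMem hr, h3]
    have h6 : (A r : ℤ) • r + (sm.sum + (a : ℤ) • p + (b : ℤ) • q) =
        sm.sum + ((a' : ℤ) • p + (b' : ℤ) • q + (c' : ℤ) • r) := by rw [h4]; abel
    rw [h6]
    have key : ∀ (k : ℕ) (w : ℤ × ℤ), P w → k ≤ 2 * (K * K) →
        (∀ v ∈ List.replicate k w ++ sm, P v) ∧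
        (List.replicate k w ++ sm).length ≤ 2 * (K * K) * (S.card + 1) ∧
        (List.replicate k w ++ sm).sum = sm.sum + (k : ℤ) • w := by
      intro k w hw hk
      refine ⟨fun v hv => ?_, ?_, ?_⟩
      · rcases List.mem_append.1 hv with hv | hv
        · exact (List.eq_of_mem_replicate hv) ▸ hw
        · exact h1 v hv
      · simp only [List.length_append, List.length_replicate]
        nlinarith
      · simp [add_comm]
    rcases h5 with h5 | h5 | h5
    · obtain ⟨k1, k2, k3⟩ := key a' p hp h5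
      exact ⟨_, q, r, b', c', k1, hq, hPr, k2, by rw [k3]; abel⟩
    · obtain ⟨k1, k2, k3⟩ := key b' q hq h5
      exact ⟨_, p, r, a', c', k1, hp, hPr, k2, by rw [k3]; abel⟩
    · obtain ⟨k1, k2, k3⟩ := key c' r hPr h5
      exact ⟨_, p, q, a', b', k1, hp, hq, k2, by rw [k3]; abel⟩

/-- Normal form: a bounded walk with two pumped cycles. -/
lemma nf [Fintype X] {Ω : ℕ} (hΩ : 1 ≤ Ω) (hE : ∀ x y d, E x y d → Bd Ω d) :
    ∃ L : ℕ, ∀ n x y s Y, Tour E n x y s Y → ∃ n' b Y' p q, ∃ A B : ℕ, Tour E n' x y b Y' ∧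
      n' ≤ L ∧ Avail E (Fintype.card X) Y' p ∧ Avail E (Fintype.card X) Y' q ∧
      s = b + (A : ℤ) • p + (B : ℤ) • q ∧ (det p q ≠ 0 ∨ B = 0) := by
  set N := Fintype.card X with hN
  set K := N * Ω with hKdef
  refine ⟨N ^ 2 + N * (2 * (K * K) * ((2 * K + 1) * (2 * K + 1))) + N * K, ?_⟩
  intro n x y s Y h
  have hN1 : 1 ≤ N := Fintype.card_pos_iff.2 ⟨x⟩
  have hK : 1 ≤ K := Nat.mul_pos hN1 hΩ
  obtain ⟨n', s', cs, h1, hn', rfl, hcs⟩ := h.dec
  have hP : ∀ Y v, Avail E N Y v → Bd K v := fun Y v hv => by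
    have := hv.bd hE (by positivity)
    simpa [hKdef] using this
  have h0 : Avail E N Y 0 := ⟨x, h1.start_mem, 0, by omega, _, .nil x⟩
  obtain ⟨sm, p, q, a, b, h2, hp, hq, h3, h4⟩ := carath hK (Avail E N Y) (hP Y) h0
    (fun v => (cs : Multiset (ℤ × ℤ)).count v) cs.toFinset
    fun v hv => hcs v (List.mem_toFinset.1 hv)
  have h5 : cs.sum = ∑ v ∈ cs.toFinset, (((cs : Multiset (ℤ × ℤ)).count v : ℕ) : ℤ) • v := by
    have := Finset.sum_multiset_count (cs : Multiset (ℤ × ℤ))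
    simp only [natCast_zsmul]
    simpa only [Multiset.sum_coe, List.toFinset_coe] using this
  have h6 : cs.toFinset.card ≤ (2 * K + 1) * (2 * K + 1) := by
    have : cs.toFinset ⊆ Finset.Icc (-(K : ℤ)) K ×ˢ Finset.Icc (-(K : ℤ)) K := by
      intro v hv
      have := hP Y v (hcs v (List.mem_toFinset.1 hv))
      simp only [Finset.mem_product, Finset.mem_Icc]
      exact ⟨abs_le.1 this.1, abs_le.1 this.2⟩
    refine (Finset.card_le_card this).trans ?_
    rw [Finset.card_product, Int.card_Icc]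
    have : ((K : ℤ) + 1 - -K).toNat = 2 * K + 1 := by omega
    rw [this]
  obtain ⟨n2, Y2, h7, hn2, hY2⟩ := Tour.insert_list sm h1 h2
  have hn3 : n2 ≤ N ^ 2 + N * (2 * (K * K) * ((2 * K + 1) * (2 * K + 1))) := by
    have := Nat.mul_le_mul_left N (h3.trans (Nat.mul_le_mul_left _ h6))
    have hn'' : n' ≤ N ^ 2 := hn'
    omega
  by_cases hd : det p q = 0
  · obtain ⟨a', b', h8, h9⟩ := two_small (hP _ _ hp) (hP _ _ hq) hK hd a b
    rcases h9 with h9 | h9
    · obtain ⟨n3, Y3, h10, hn4, hY3⟩ := h7.insert_mul (hp.mono hY2) a'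
      refine ⟨n3, _, Y3, q, q, b', 0, h10, ?_, hq.mono (hY2.trans hY3), hq.mono (hY2.trans hY3),
        ?_, Or.inr rfl⟩
      · have := Nat.mul_le_mul_left N h9
        omega
      · rw [h5, h4, add_assoc sm.sum, ← h8]
        simp only [Nat.cast_zero, zero_smul]
        abel
    · obtain ⟨n3, Y3, h10, hn4, hY3⟩ := h7.insert_mul (hq.mono hY2) b'
      refine ⟨n3, _, Y3, p, p, a', 0, h10, ?_, hp.mono (hY2.trans hY3), hp.mono (hY2.trans hY3),
        ?_, Or.inr rfl⟩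
      · have := Nat.mul_le_mul_left N h9
        omega
      · rw [h5, h4, add_assoc sm.sum, ← h8]
        simp only [Nat.cast_zero, zero_smul]
        abel
  · exact ⟨n2, _, Y2, p, q, a, b, h7, by omega, hp.mono hY2, hq.mono hY2,
      by rw [h5, h4]; abel, Or.inl hd⟩

end Pool.Agent.P.MP_d0a708_lc.BH
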