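import Pool.Agent.P.MP_d0a708_lc.BH.BDefs
import Pool.Agent.P.MP_d0a708_lc.BH.Pda
import Pool.Agent.P.MP_d0a708_lc.BH.Core

/-!
Transfer from automata with a blind second head to the abstract counting theorem.
-/

namespace Pool.Agent.P.MP_d0a708_lc.BH

open Relation

/-- Steps in integer coordinates, the first head shifted by `p0`. -/
def ZSt (A : HeadsFA (Fin 3) 2) (w : List (Fin 3)) (p0 : ℕ) (a a' : A.Q × ℤ × ℤ) : Prop :=
  (0 ≤ a.2.1 + p0 ∧ 0 ≤ a.2.2 ∧ a.2.2 ≤ w.length + 1 ∧ 0 ≤ a'.2.1 + p0 ∧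
    a'.2.1 + p0 ≤ w.length + 1 ∧ 0 ≤ a'.2.2 ∧ a'.2.2 ≤ w.length + 1) ∧
  ∃ m : Fin 2 → SignType,
    (a'.1, m) ∈ A.δ a.1 ![cell w (a.2.1 + p0).toNat, cell w a.2.2.toNat] ∧
    a'.2.1 - a.2.1 = m 0 ∧ a'.2.2 - a.2.2 = m 1

lemma acc_iff (A : HeadsFA (Fin 3) 2) (w : List (Fin 3)) (p0 : ℕ) :
    w ∈ A.lang ↔ ∃ a, ReflTransGen (ZSt A w p0) (A.start, -p0, 0) a ∧ a.1 ∈ A.accept := by
  constructor
  · rintro ⟨c, h1, h2⟩
    refine ⟨(c.1, c.2 0 - p0, c.2 1), ?_, h2⟩
    suffices H : c.2 1 ≤ w.length + 1 ∧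
        ReflTransGen (ZSt A w p0) (A.start, -p0, 0) (c.1, c.2 0 - p0, c.2 1) from H.2
    clear h2
    induction h1 with
    | refl => exact ⟨by simp, by simpa using ReflTransGen.refl⟩
    | @tail b c _ h ih =>
      obtain ⟨m, h3, h4⟩ := h
      have k0 := h4 0
      have k1 := h4 1
      have k2 := ih.1
      refine ⟨k1.2, ih.2.tail ⟨by simp only; omega, m, ?_, by simp only; omega,
        by simp only; omega⟩⟩
      convert h3 using 2
      funext i
      fin_cases i <;> simp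
  · rintro ⟨a, h1, h2⟩
    refine ⟨(a.1, ![(a.2.1 + p0).toNat, a.2.2.toNat]), ?_, h2⟩
    have := ReflTransGen.lift (p := A.Step w)
      (fun a : A.Q × ℤ × ℤ => (a.1, ![(a.2.1 + p0).toNat, a.2.2.toNat])) ?_ _ _ h1
    · convert this using 2
      funext i
      fin_cases i <;> simp
    · rintro a a' ⟨k1, m, k2, k3, k4⟩
      refine ⟨m, ?_, fun i => ?_⟩
      · convert k2 using 2
        funext i
        fin_cases i <;> simp
      · fin_cases i
        · simp only [Fin.zero_eta, Matrix.cons_val_zero]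
          omega
        · simp only [Fin.mk_one, Matrix.cons_val_one, Matrix.cons_val_zero]
          omega

lemma cell_letter {w : List (Fin 3)} {c : ℕ} (h1 : 0 < c) (h2 : c < w.length + 1) :
    ∃ x, cell w c = .letter x := by
  cases h : cell w c with
  | left => rw [cell_left] at h; omega
  | right => rw [cell_right] at h; omega
  | letter x => exact ⟨x, rfl⟩

lemma blind_cell {A : HeadsFA (Fin 3) 2} (hA : A.Blind) {w w' : List (Fin 3)}
    (hl : w.length = w'.length) (q : A.Q) (s : Tape (Fin 3)) (c : ℕ) :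
    A.δ q ![s, cell w c] = A.δ q ![s, cell w' c] := by
  rcases Nat.eq_zero_or_pos c with rfl | h1
  · rfl
  by_cases h2 : c < w.length + 1
  · obtain ⟨x, hx⟩ := cell_letter h1 h2
    obtain ⟨y, hy⟩ := cell_letter h1 (hl ▸ h2)
    rw [hx, hy]
    exact hA _ _ _ _
  · rw [cell_right.2 (by omega), cell_right.2 (by omega)]

lemma ZSt.congr {A : HeadsFA (Fin 3) 2} (hA : A.Blind) {w w' : List (Fin 3)} {p0 : ℕ}
    (hl : w.length = w'.length) {a a' : A.Q × ℤ × ℤ}
    (hc : cell w (a.2.1 + p0).toNat = cell w' (a.2.1 + p0).toNat) (h : ZSt A w p0 a a') :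
    ZSt A w' p0 a a' := by
  obtain ⟨k1, m, k2, k3⟩ := h
  refine ⟨hl ▸ k1, m, ?_, k3⟩
  rwa [← hc, ← blind_cell hA hl]

lemma word_length (H : ℕ) (leaf : ℕ → Bool) (v : List Bool) :
    (word H leaf v).length = 2 ^ (H + 1) + v.length := by
  rw [← tree_length H leaf]
  simp only [word, List.length_append, List.length_map, List.length_singleton]

lemma cell_word_hi (H : ℕ) (leaf : ℕ → Bool) (v : List Bool) (p : ℕ) (hp : p < v.length) :
    cell (word H leaf v) (p + (2 ^ (H + 1) + 1)) = .letter (enc v[p]) := by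
  have := tree_length H leaf
  rw [← add_assoc, cell, word, List.getElem?_append_right (by simp; omega)]
  simp only [List.length_append, List.length_singleton, this, Nat.add_sub_cancel]
  simp [hp]

lemma cell_word_lo (H : ℕ) (leaf : ℕ → Bool) (v v' : List Bool) (p : ℕ)
    (hp : p < 2 ^ (H + 1) + 1) : cell (word H leaf v) p = cell (word H leaf v') p := by
  have := tree_length H leaf
  cases p with
  | zero => rfl
  | succ p =>
    rw [cell, cell, word, word, List.getElem?_append_left (by simp; omega),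
      List.getElem?_append_left (l₂ := v'.map enc) (by simp; omega)]

section

variable (lam : ℕ) (s : Bool → ℤ → Bool) {h M : ℕ}

/-- The code of one test word. -/
def blk (t : Fin h → Bool) : List Bool :=
  List.ofFn fun j : Fin (h * lam) =>
    s (t ⟨j / lam, Nat.div_lt_of_lt_mul (j.2.trans_eq (mul_comm _ _))⟩) (j % lam)

/-- The code of a sequence of test words. -/
def bits (V : Fin M → Fin h → Bool) : List Bool :=
  List.ofFn fun p : Fin (M * (h * lam)) => s (bitf V (p / lam)) (p % lam)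

lemma bits_eq (hl : 0 < lam) (V : Fin M → Fin h → Bool) :
    bits lam s V = (List.ofFn fun k => blk lam s (V k)).flatten := by
  rw [bits, List.ofFn_mul]
  congr 2
  funext k
  rw [blk]
  congr 1
  funext j
  have e1 : (((k * (h * lam) + j : ℕ) : ℤ)) / lam = k * h + ((j / lam : ℕ) : ℤ) := by
    push_cast
    rw [← mul_assoc, add_comm, Int.add_mul_ediv_right _ _ (by omega), add_comm]
  have e2 : (((k * (h * lam) + j : ℕ) : ℤ)) % lam = j % lam := by
    push_cast
    rw [← mul_assoc, add_comm, Int.add_mul_emod_self_right]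
  simp only [e1, e2]
  rw [← bitf_apply V k]

lemma blk_inj {r : ℤ} (h0 : 0 ≤ r) (h1 : r < lam) (h2 : s false r ≠ s true r)
    {t t' : Fin h → Bool} (e : blk lam s t = blk lam s t') : t = t' := by
  lift r to ℕ using h0
  have h3 : r < lam := by exact_mod_cast h1
  funext j
  have h4 : j * lam + r < h * lam := by
    have := Nat.mul_le_mul_right lam (Nat.succ_le_of_lt j.2)
    rw [Nat.succ_mul] at this
    omega
  have h5 := congrFun (List.ofFn_injective e) ⟨_, h4⟩
  have e1 : (j * lam + r) / lam = j := by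
    rw [add_comm, Nat.add_mul_div_right _ _ (by omega), Nat.div_eq_of_lt h3, zero_add]
  have e2 : (((j * lam + r : ℕ) : ℤ)) % lam = r := by
    push_cast
    rw [add_comm, Int.add_mul_emod_self_right, Int.emod_eq_of_lt (by omega) h1]
  simp only [e1, e2, Fin.eta] at h5
  revert h5
  cases t j <;> cases t' j <;> simp [h2, h2.symm]

/-- The leaves marked by `U`. -/
def lf (U : Finset (Fin h → Bool)) (p : ℕ) : Bool := decide (∃ t ∈ U, val 1 (blk lam s t) = p)

/-- The input for the set `U` and the test words `V`. -/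
def inp (U : Finset (Fin h → Bool)) (V : Fin M → Fin h → Bool) : List (Fin 3) :=
  word (h * lam) (lf lam s U) (bits lam s V)

lemma inp_mem (hl : 0 < lam) (hh : 0 < h) {r : ℤ} (h0 : 0 ≤ r) (h1 : r < lam)
    (h2 : s false r ≠ s true r) (U : Finset (Fin h → Bool)) (V : Fin M → Fin h → Bool) :
    inp lam s U V ∈ pda.lang ↔ ∀ k, V k ∈ U := by
  rw [inp, bits_eq lam s hl, pda_spec (Nat.mul_pos hh hl) _ _ (by simp [blk, List.mem_ofFn])]
  simp only [List.mem_ofFn, forall_exists_index, forall_apply_eq_imp_iff, lf, decide_eq_true_eq]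
  refine forall_congr' fun k => ⟨?_, fun h => ⟨_, h, rfl⟩⟩
  rintro ⟨t, ht, e⟩
  rwa [← blk_inj lam s h0 h1 h2 (val_inj _ _ _ _ (by simp [blk]) e).2]

lemma inp_length (U : Finset (Fin h → Bool)) (V : Fin M → Fin h → Bool) :
    (inp lam s U V).length = 2 ^ (h * lam + 1) + M * (h * lam) := by
  simp [inp, word_length, bits]

lemma cell_inp (U : Finset (Fin h → Bool)) (V : Fin M → Fin h → Bool) {p : ℤ} (h0 : 0 ≤ p)
    (h1 : p < (M * h : ℕ) * lam) :
    cell (inp lam s U V) (p + (2 ^ (h * lam + 1) + 1 : ℕ)).toNat =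
      .letter (enc (s (bitf V (p / lam)) (p % lam))) := by
  lift p to ℕ using h0
  have h2 : p < M * (h * lam) := by
    rw [← mul_assoc]
    exact_mod_cast h1
  rw [← Nat.cast_add, Int.toNat_natCast, inp, cell_word_hi _ _ _ _ (by simpa [bits] using h2)]
  simp [bits]

end

theorem not_blind (A : HeadsFA (Fin 3) 2) (hA : A.Blind) : A.lang ≠ pda.lang := by
  intro hL
  have := A.finQ
  have := Fintype.ofFinite A.Q
  have hs : ∀ x : SignType, |(x : ℤ)| ≤ 1 := fun x => by cases x <;> simp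
  obtain ⟨lam, s, h, hl, hh, ⟨r, r0, r1, r2⟩, H⟩ := core (Q := A.Q)
    (int := fun q x q' dp dc => ∃ m : Fin 2 → SignType,
      (q', m) ∈ A.δ q ![.letter (enc x), .letter 0] ∧ dp = m 0 ∧ dc = m 1)
    (by rintro q x q' dp dc ⟨m, -, rfl, rfl⟩; exact ⟨hs _, hs _⟩)
  obtain ⟨M, hM⟩ : ∃ M, M = 2 ^ (h * lam) := ⟨_, rfl⟩
  have hM1 : 1 ≤ M := hM ▸ Nat.one_le_two_pow
  have hH : 1 ≤ h * lam := Nat.mul_pos hh hl
  have hMH : M ≤ M * (h * lam) := Nat.le_mul_of_pos_right _ hH
  have hlen := fun U (V : Fin M → Fin h → Bool) => inp_length lam s U V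
  have hc : ((M * h : ℕ) : ℤ) * lam = (M * (h * lam) : ℕ) := by push_cast; ring
  refine H M hM (fun U V => ZSt A (inp lam s U V) (2 ^ (h * lam + 1) + 1))
    (A.start, -(2 ^ (h * lam + 1) + 1 : ℕ), 0) A.accept
    ((2 ^ (h * lam + 1) + M * (h * lam) : ℕ) + 1) ?_ ?_ ?_ ?_ ?_ ?_ fun U V => ?_
  · rw [pow_succ, ← hM, mul_assoc]
    omega
  · simp only
    omega
  · rintro U V a a' ⟨k1, m, -, k3, k4⟩
    rw [hlen] at k1
    rw [k3, k4]
    exact ⟨hs _, hs _, k1.2.1, k1.2.2.1, k1.2.2.2.2.2⟩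
  · intro U V U' V' a a' k1 k2 k3
    refine ZSt.congr hA (by rw [hlen, hlen]) ?_
    rw [cell_inp lam s U V k1 k2, cell_inp lam s U' V' k1 k2, k3]
  · intro U V V' a a' k1
    refine ZSt.congr hA (by rw [hlen, hlen]) ?_
    by_cases k2 : a.2.1 < 0
    · exact cell_word_lo _ _ _ _ _ (by omega)
    · rw [cell_right.2 (by rw [hlen]; omega), cell_right.2 (by rw [hlen]; omega)]
  · rintro U V a a' ⟨k1, k2, k3, k4⟩ ⟨k5, k6, k7, k8⟩
    simp only at k2 k4 k6 k8
    obtain ⟨x, hx⟩ := cell_letter (w := inp lam s U V) (c := a.2.2.toNat) (by omega)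
      (by rw [hlen]; omega)
    simp only [ZSt, IS]
    rw [cell_inp lam s U V k1 k2, hx, hA _ _ x 0, hlen]
    exact and_iff_right (by omega)
  · rw [← acc_iff, hL, inp_mem lam s hl hh r0 r1 r2]

end Pool.Agent.P.MP_d0a708_lc.BH
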